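import Pool.Agent.Lib.MP_f31b39_co.AS.Defs

/-!
# AS-Approx: the main term

`h_k = q ^ k * (GG k).eval (U 1 / q)` satisfies `h_0 = 1`, `h_1 = U 1`,
`(k+2) h_{k+2} = U 1 * h_{k+1} - 2 q ^ 2 h_k`.
First `‖cc (pw (q^2) U) k‖ ≤ ((K+2) q) ^ k` for `k ≤ r` (strong induction with `cc_succ`;
`‖pw (q^2) U i‖ ≤ ((K+2) q) ^ i`).
Then by two-step induction `q * ‖cc k - h_k‖ ≤ C_k q ^ k`: with `P_1 = U 1`, `P_2 = U 2 - 2 q ^ 2`,
`(k+2) (cc (k+2) - h (k+2)) = U 1 (cc (k+1) - h (k+1)) - 2 q ^ 2 (cc k - h k) + U 2 cc k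
 + ∑_{3 ≤ i ≤ k+2} P_i cc (k+2-i)`, `‖U 2 * cc k‖ ≤ K q * C' q ^ k`, and for `i ≥ 3`
`‖P_i‖ ≤ (K + 2) q ^ 2`, `‖cc (k+2-i)‖ ≤ C' q ^ (k+2-i) ≤ C' q ^ (k - 1)`; everything times `q` is
`O(q ^ (k+2))`.
-/

namespace TightIndep

open Finset

private theorem norm_nat_add_one (k : ℕ) : ‖((k : ℂ) + 1)‖ = (k : ℝ) + 1 := by
  rw [show ((k : ℂ) + 1) = (((k : ℝ) + 1 : ℝ) : ℂ) by push_cast; rfl, Complex.norm_real,
    Real.norm_of_nonneg (by positivity)]

private theorem pw_bd {r : ℕ} {K q : ℝ} (hK : 0 ≤ K) (hq : 1 ≤ q) {U : ℕ → ℂ}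
    (hU : ∀ i, 1 ≤ i → i ≤ r → ‖U i‖ ≤ K * q) {i : ℕ} (hi : 1 ≤ i) (hir : i ≤ r) :
    ‖pw ((q ^ 2 : ℝ) : ℂ) U i‖ ≤ (K + 2) * q ^ 2 := by
  unfold pw
  refine (norm_sub_le _ _).trans ?_
  have h1 := hU i hi hir
  have h2 : ‖(if Even i then 2 * (((q ^ 2 : ℝ)) : ℂ) else 0)‖ ≤ 2 * q ^ 2 := by
    split_ifs
    · rw [norm_mul, Complex.norm_real, Real.norm_of_nonneg (by positivity)]
      simp
    · rw [norm_zero]
      positivity
  have h3 : K * q ≤ K * q ^ 2 := mul_le_mul_of_nonneg_left (by nlinarith) hK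
  linarith

private theorem pw_one {N : ℂ} {U : ℕ → ℂ} : pw N U 1 = U 1 := by
  simp [pw]

private theorem pw_two {N : ℂ} {U : ℕ → ℂ} : pw N U 2 = U 2 - 2 * N := by
  simp [pw]

private theorem cc_bd {r : ℕ} {K q : ℝ} (hK : 0 ≤ K) (hq : 1 ≤ q) {U : ℕ → ℂ}
    (hU : ∀ i, 1 ≤ i → i ≤ r → ‖U i‖ ≤ K * q) :
    ∀ k, k ≤ r → ‖cc (pw ((q ^ 2 : ℝ) : ℂ) U) k‖ ≤ ((K + 2) * q) ^ k := by
  have hb1 : 1 ≤ (K + 2) * q := by nlinarith
  have hP : ∀ i, 1 ≤ i → i ≤ r → ‖pw ((q ^ 2 : ℝ) : ℂ) U i‖ ≤ ((K + 2) * q) ^ i := by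
    intro i hi hir
    rcases Nat.lt_or_ge i 2 with h2 | h2
    · have h3 : i = 1 := by omega
      rw [h3, pw_one, pow_one]
      have := hU 1 le_rfl (by omega)
      nlinarith
    · have h3 : ((K + 2) * q) ^ 2 ≤ ((K + 2) * q) ^ i := pow_le_pow_right₀ hb1 h2
      refine (pw_bd hK hq hU hi hir).trans (le_trans ?_ h3)
      rw [mul_pow]
      exact mul_le_mul_of_nonneg_right (by nlinarith) (by positivity)
  intro k
  induction k using Nat.strong_induction_on with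
  | _ k ih =>
    intro hk
    rcases k with _ | k
    · rw [cc_zero]
      simp
    · rw [cc_succ, norm_div, norm_nat_add_one, div_le_iff₀ (by positivity)]
      refine (norm_sum_le _ _).trans ?_
      have h1 : ∀ i ∈ range (k + 1), ‖pw ((q ^ 2 : ℝ) : ℂ) U (i + 1) *
          cc (pw ((q ^ 2 : ℝ) : ℂ) U) (k - i)‖ ≤ ((K + 2) * q) ^ (k + 1) := by
        intro i hi
        have hi' : i ≤ k := by
          have := mem_range.mp hi
          omega
        rw [norm_mul]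
        have e : ((K + 2) * q) ^ (k + 1) = ((K + 2) * q) ^ (i + 1) * ((K + 2) * q) ^ (k - i) := by
          rw [← pow_add]
          congr 1
          omega
        rw [e]
        exact mul_le_mul (hP _ (by omega) (by omega)) (ih _ (by omega) (by omega))
          (norm_nonneg _) (by positivity)
      refine (sum_le_sum h1).trans (le_of_eq ?_)
      rw [sum_const, card_range, nsmul_eq_mul]
      push_cast
      ring

private theorem step_id (P U : ℕ → ℂ) (q2 h0 h1 : ℂ) (k : ℕ) (hP1 : P 1 = U 1)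
    (hP2 : P 2 = U 2 - 2 * q2) :
    cc P (k + 2) - (U 1 * h1 - 2 * q2 * h0) / ((k : ℂ) + 2) =
      (U 1 * (cc P (k + 1) - h1) - 2 * q2 * (cc P k - h0) + U 2 * cc P k +
        ∑ i ∈ range k, P (i + 3) * cc P (k - 1 - i)) / ((k : ℂ) + 2) := by
  rw [cc_succ, sum_range_succ', sum_range_succ']
  have e1 : ((k + 1 : ℕ) : ℂ) + 1 = (k : ℂ) + 2 := by
    push_cast
    ring
  rw [e1, ← sub_div]
  congr 1
  have e2 : ∑ i ∈ range k, P (i + 1 + 1 + 1) * cc P (k + 1 - (i + 1 + 1)) =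
      ∑ i ∈ range k, P (i + 3) * cc P (k - 1 - i) := by
    refine sum_congr rfl (fun i _ => ?_)
    congr 2
    omega
  rw [e2]
  have e3 : k + 1 - (0 + 1) = k := by omega
  rw [e3, Nat.sub_zero]
  norm_num
  rw [hP1, hP2]
  ring

theorem cc_approx (r : ℕ) (K : ℝ) (hK : 0 ≤ K) : ∃ C : ℝ, 0 ≤ C ∧ ∀ (q : ℝ) (U : ℕ → ℂ), 1 ≤ q →
    (∀ i, 1 ≤ i → i ≤ r → ‖U i‖ ≤ K * q) →
    q * ‖cc (pw ((q ^ 2 : ℝ) : ℂ) U) r - q ^ r * (GG r).eval (U 1 / q)‖ ≤ C * q ^ r := by
  have hA0 : 0 ≤ (K + 2) ^ r := by positivity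
  have main : ∀ k, k ≤ r → ∃ C : ℝ, 0 ≤ C ∧ ∀ (q : ℝ) (U : ℕ → ℂ), 1 ≤ q →
      (∀ i, 1 ≤ i → i ≤ r → ‖U i‖ ≤ K * q) →
      q * ‖cc (pw ((q ^ 2 : ℝ) : ℂ) U) k - q ^ k * (GG k).eval (U 1 / q)‖ ≤ C * q ^ k := by
    intro k
    induction k using Nat.twoStepInduction with
    | zero =>
      intro _
      refine ⟨0, le_rfl, fun q U hq hU => ?_⟩
      rw [cc_zero]
      simp [GG]
    | one =>
      intro _
      refine ⟨0, le_rfl, fun q U hq hU => ?_⟩
      have hq0 : (q : ℂ) ≠ 0 := by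
        intro h
        have : q = 0 := by exact_mod_cast h
        linarith
      have e : cc (pw ((q ^ 2 : ℝ) : ℂ) U) 1 - (q : ℂ) ^ 1 * (GG 1).eval (U 1 / q) = 0 := by
        rw [cc_succ]
        simp only [zero_add, range_one, sum_singleton, Nat.sub_zero, cc_zero, pw_one, GG,
          Polynomial.eval_X, pow_one]
        field_simp
        simp
      rw [e]
      simp
    | more k ih0 ih1 =>
      intro hk
      obtain ⟨C0, hC0, h0⟩ := ih0 (by omega)
      obtain ⟨C1, hC1, h1⟩ := ih1 (by omega)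
      refine ⟨K * C1 + 2 * C0 + K * (K + 2) ^ r + k * ((K + 2) * (K + 2) ^ r), by positivity,
        fun q U hq hU => ?_⟩
      have hq0 : (q : ℂ) ≠ 0 := by
        intro h
        have : q = 0 := by exact_mod_cast h
        linarith
      have hqp : 0 < q := by linarith
      specialize h0 q U hq hU
      specialize h1 q U hq hU
      set P : ℕ → ℂ := pw ((q ^ 2 : ℝ) : ℂ) U with hP
      set x : ℂ := U 1 / q with hx
      set H0 : ℂ := q ^ k * (GG k).eval x with hH0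
      set H1 : ℂ := q ^ (k + 1) * (GG (k + 1)).eval x with hH1
      have e0 : (q : ℂ) ^ (k + 2) * (GG (k + 2)).eval x =
          (U 1 * H1 - 2 * (((q ^ 2 : ℝ)) : ℂ) * H0) / ((k : ℂ) + 2) := by
        have hU1 : U 1 = q * x := by
          rw [hx]
          field_simp
        have hk2 : ((k : ℂ) + 2) ≠ 0 := by
          have := Nat.cast_add_one_ne_zero (R := ℂ) (k + 1)
          intro h
          apply this
          push_cast
          rw [← h]
          ring
        rw [hU1, hH0, hH1, GG]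
        simp only [Polynomial.eval_mul, Polynomial.eval_C, Polynomial.eval_sub, Polynomial.eval_X,
          Polynomial.eval_ofNat]
        push_cast
        field_simp
        ring
      rw [e0, step_id P U _ H0 H1 k pw_one pw_two, norm_div]
      have hk2n : ‖((k : ℂ) + 2)‖ = (k : ℝ) + 2 := by
        have := norm_nat_add_one (k + 1)
        push_cast at this
        rw [show ((k : ℂ) + 2) = (k : ℂ) + 1 + 1 by ring, this]
        ring
      rw [hk2n]
      have hcb := cc_bd hK hq hU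
      have hKA : ∀ j, j ≤ r → ‖cc P j‖ ≤ (K + 2) ^ r * q ^ j := by
        intro j hj
        refine (hcb j hj).trans ?_
        rw [mul_pow]
        exact mul_le_mul_of_nonneg_right (pow_le_pow_right₀ (by linarith) hj) (by positivity)
      -- the four terms
      have t1 : q * ‖U 1 * (cc P (k + 1) - H1)‖ ≤ K * C1 * q ^ (k + 2) := by
        rw [norm_mul]
        have hU1 := hU 1 le_rfl (by omega)
        calc q * (‖U 1‖ * ‖cc P (k + 1) - H1‖) = ‖U 1‖ * (q * ‖cc P (k + 1) - H1‖) := by ring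
          _ ≤ (K * q) * (C1 * q ^ (k + 1)) := mul_le_mul hU1 h1 (by positivity) (by positivity)
          _ = K * C1 * q ^ (k + 2) := by ring
      have t2 : q * ‖2 * (((q ^ 2 : ℝ)) : ℂ) * (cc P k - H0)‖ ≤ 2 * C0 * q ^ (k + 2) := by
        rw [norm_mul, norm_mul, Complex.norm_real, Real.norm_of_nonneg (by positivity : 0 ≤ q ^ 2),
          Complex.norm_ofNat]
        calc q * (2 * q ^ 2 * ‖cc P k - H0‖) = 2 * q ^ 2 * (q * ‖cc P k - H0‖) := by ring
          _ ≤ 2 * q ^ 2 * (C0 * q ^ k) := mul_le_mul_of_nonneg_left h0 (by positivity)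
          _ = 2 * C0 * q ^ (k + 2) := by ring
      have t3 : q * ‖U 2 * cc P k‖ ≤ K * (K + 2) ^ r * q ^ (k + 2) := by
        rw [norm_mul]
        have hU2 := hU 2 (by omega) (by omega)
        calc q * (‖U 2‖ * ‖cc P k‖) ≤ q * ((K * q) * ((K + 2) ^ r * q ^ k)) := by
              refine mul_le_mul_of_nonneg_left ?_ hqp.le
              exact mul_le_mul hU2 (hKA k (by omega)) (norm_nonneg _) (by positivity)
          _ = K * (K + 2) ^ r * q ^ (k + 2) := by ring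
      have t4 : q * ‖∑ i ∈ range k, P (i + 3) * cc P (k - 1 - i)‖ ≤
          k * ((K + 2) * (K + 2) ^ r) * q ^ (k + 2) := by
        have hs : ∀ i ∈ range k, ‖P (i + 3) * cc P (k - 1 - i)‖ ≤
            (K + 2) * (K + 2) ^ r * q ^ (k + 1) := by
          intro i hi
          have hi' : i < k := mem_range.mp hi
          rw [norm_mul]
          have b1 : ‖P (i + 3)‖ ≤ (K + 2) * q ^ 2 := pw_bd hK hq hU (by omega) (by omega)
          have b2 := hKA (k - 1 - i) (by omega)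
          have b3 : q ^ (k - 1 - i) ≤ q ^ (k - 1) := pow_le_pow_right₀ hq (by omega)
          calc ‖P (i + 3)‖ * ‖cc P (k - 1 - i)‖
              ≤ ((K + 2) * q ^ 2) * ((K + 2) ^ r * q ^ (k - 1 - i)) :=
                mul_le_mul b1 b2 (norm_nonneg _) (by positivity)
            _ ≤ ((K + 2) * q ^ 2) * ((K + 2) ^ r * q ^ (k - 1)) := by
                refine mul_le_mul_of_nonneg_left ?_ (by positivity)
                exact mul_le_mul_of_nonneg_left b3 (by positivity)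
            _ = (K + 2) * (K + 2) ^ r * (q ^ 2 * q ^ (k - 1)) := by ring
            _ = (K + 2) * (K + 2) ^ r * q ^ (k + 1) := by
                rw [← pow_add]
                congr 2
                omega
        calc q * ‖∑ i ∈ range k, P (i + 3) * cc P (k - 1 - i)‖
            ≤ q * (k * ((K + 2) * (K + 2) ^ r * q ^ (k + 1))) := by
              refine mul_le_mul_of_nonneg_left ?_ hqp.le
              refine (norm_sum_le _ _).trans ((sum_le_sum hs).trans (le_of_eq ?_))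
              rw [sum_const, card_range, nsmul_eq_mul]
          _ = k * ((K + 2) * (K + 2) ^ r) * q ^ (k + 2) := by ring
      set S4 : ℂ := ∑ i ∈ range k, P (i + 3) * cc P (k - 1 - i) with hS4
      have tot : q * ‖U 1 * (cc P (k + 1) - H1) - 2 * (((q ^ 2 : ℝ)) : ℂ) * (cc P k - H0) +
          U 2 * cc P k + S4‖ ≤ (K * C1 + 2 * C0 + K * (K + 2) ^ r + k * ((K + 2) * (K + 2) ^ r)) *
            q ^ (k + 2) := by
        have n1 := norm_add_le (U 1 * (cc P (k + 1) - H1) - 2 * (((q ^ 2 : ℝ)) : ℂ) *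
          (cc P k - H0) + U 2 * cc P k) S4
        have n2 := norm_add_le (U 1 * (cc P (k + 1) - H1) - 2 * (((q ^ 2 : ℝ)) : ℂ) *
          (cc P k - H0)) (U 2 * cc P k)
        have n3 := norm_sub_le (U 1 * (cc P (k + 1) - H1)) (2 * (((q ^ 2 : ℝ)) : ℂ) *
          (cc P k - H0))
        have n4 : ‖U 1 * (cc P (k + 1) - H1) - 2 * (((q ^ 2 : ℝ)) : ℂ) * (cc P k - H0) +
          U 2 * cc P k + S4‖ ≤ ‖U 1 * (cc P (k + 1) - H1)‖ + ‖2 * (((q ^ 2 : ℝ)) : ℂ) *
          (cc P k - H0)‖ + ‖U 2 * cc P k‖ + ‖S4‖ := by linarith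
        have n5 := mul_le_mul_of_nonneg_left n4 hqp.le
        have n6 : q * (‖U 1 * (cc P (k + 1) - H1)‖ + ‖2 * (((q ^ 2 : ℝ)) : ℂ) *
          (cc P k - H0)‖ + ‖U 2 * cc P k‖ + ‖S4‖) = q * ‖U 1 * (cc P (k + 1) - H1)‖ +
          q * ‖2 * (((q ^ 2 : ℝ)) : ℂ) * (cc P k - H0)‖ + q * ‖U 2 * cc P k‖ + q * ‖S4‖ := by ring
        have n7 : (K * C1 + 2 * C0 + K * (K + 2) ^ r + k * ((K + 2) * (K + 2) ^ r)) *
            q ^ (k + 2) = K * C1 * q ^ (k + 2) + 2 * C0 * q ^ (k + 2) +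
            K * (K + 2) ^ r * q ^ (k + 2) + k * ((K + 2) * (K + 2) ^ r) * q ^ (k + 2) := by ring
        linarith
      rw [← mul_div_assoc, div_le_iff₀ (by positivity)]
      refine tot.trans ?_
      have hk0 : (0 : ℝ) ≤ k := Nat.cast_nonneg k
      refine le_mul_of_one_le_right (by positivity) (by linarith)
  exact main r le_rfl

end TightIndep
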