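import Pool.Agent.Lib.MP_f31b39_co.AS.Defs

/-!
# AS-Fac: a factor prime to `2 X + e`

`F = f.map (Int.castRingHom ℚ)`, `L = 2 X + e ∈ ℚ[X]` irreducible (degree 1).  `f ≠ 0` (degree `r ≥ 1`),
so `F = L ^ k * H` with `L ∤ H` (`exists_eq_pow_mul_and_not_dvd`, finite multiplicity).  If `H` is a
constant `c` then `k = r` by degrees, and `F(1) e^r = c (2+e)^r e^r = F(0) (2+e)^r`, against `hne`.
So `H` is nonconstant and `IsCoprime H L` (`Irreducible.coprime_iff_not_dvd`): `H u + L v = 1`.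
Clear denominators (`IsLocalization.integerNormalization`, or
`Polynomial.exists_..`: for `P ∈ ℚ[X]` there are `b ∈ ℕ`, `b ≠ 0` and `P' ∈ ℤ[X]` with
`P'.map = C b * P`): `g = b H ∈ ℤ[X]`, and `g u' + (2 X + e) v' = C D`, `g h' = C D * f` with one
integer `D ≠ 0` (multiply).
-/

namespace TightIndep

open Polynomial

private theorem fac_clr (P : ℚ[X]) : ∃ b : ℤ, b ≠ 0 ∧ ∃ P' : ℤ[X],
    P'.map (Int.castRingHom ℚ) = C (b : ℚ) * P := by
  obtain ⟨b, hb⟩ := IsLocalization.integerNormalization_map_to_map (nonZeroDivisors ℤ) P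
  refine ⟨(b : ℤ), nonZeroDivisors.coe_ne_zero b, IsLocalization.integerNormalization (nonZeroDivisors ℤ) P, ?_⟩
  have h1 : (algebraMap ℤ ℚ) = Int.castRingHom ℚ := rfl
  rw [h1] at hb
  rw [hb]
  ext n
  simp

theorem exists_factor (f : ℤ[X]) (r e : ℕ) (hr : 1 ≤ r) (hf : f.natDegree = r)
    (hne : f.eval 1 * (e : ℤ) ^ r ≠ f.eval 0 * (2 + e : ℤ) ^ r) :
    ∃ g : ℤ[X], 0 < g.natDegree ∧ ∃ D : ℤ, D ≠ 0 ∧
      (∃ u v : ℤ[X], g * u + (2 * X + C (e : ℤ)) * v = C D) ∧ ∃ h : ℤ[X], g * h = C D * f := by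
  classical
  have hf0 : f ≠ 0 := by
    rintro rfl
    rw [natDegree_zero] at hf
    omega
  have hinj : Function.Injective (Int.castRingHom ℚ) := (Int.castRingHom ℚ).injective_int
  have hminj : Function.Injective (Polynomial.map (Int.castRingHom ℚ)) := Polynomial.map_injective _ hinj
  set F : ℚ[X] := f.map (Int.castRingHom ℚ) with hFdef
  have hF0 : F ≠ 0 := by
    rw [hFdef]
    exact (Polynomial.map_ne_zero_iff hinj).2 hf0
  set L : ℚ[X] := C 2 * X + C (e : ℚ) with hL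
  have hLd : L.degree = 1 := degree_linear (by norm_num)
  have hLn : L.natDegree = 1 := natDegree_linear (by norm_num)
  have hLi : Irreducible L := irreducible_of_degree_eq_one hLd
  obtain ⟨k, H, hH, hFe⟩ := WfDvdMonoid.max_power_factor hF0 hLi
  have hH0 : H ≠ 0 := by
    rintro rfl
    exact hH (dvd_zero _)
  have hLk0 : L ^ k ≠ 0 := pow_ne_zero _ hLi.ne_zero
  have hFn : F.natDegree = r := by
    rw [hFdef, natDegree_map_eq_of_injective hinj, hf]
  have hHpos : 0 < H.natDegree := by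
    by_contra hcon
    have h0 : H.natDegree = 0 := by omega
    have hkr : k = r := by
      have h1 := congrArg natDegree hFe
      rw [hFn, natDegree_mul hLk0 hH0, natDegree_pow, hLn, h0] at h1
      omega
    have hHC : H = C (H.coeff 0) := eq_C_of_natDegree_eq_zero h0
    have h1 : F.eval 1 = (2 + e : ℚ) ^ r * H.coeff 0 := by
      rw [hFe, hHC, hkr]
      simp [hL]
    have h2 : F.eval 0 = (e : ℚ) ^ r * H.coeff 0 := by
      rw [hFe, hHC, hkr]
      simp [hL]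
    have h3 : F.eval 1 = ((f.eval 1 : ℤ) : ℚ) := by
      rw [hFdef]
      have := Polynomial.eval_map_apply (Int.castRingHom ℚ) (p := f) (1 : ℤ)
      simpa using this
    have h4 : F.eval 0 = ((f.eval 0 : ℤ) : ℚ) := by
      rw [hFdef]
      have := Polynomial.eval_map_apply (Int.castRingHom ℚ) (p := f) (0 : ℤ)
      simpa using this
    apply hne
    have h5 : ((f.eval 1 : ℤ) : ℚ) * (e : ℚ) ^ r = ((f.eval 0 : ℤ) : ℚ) * (2 + e : ℚ) ^ r := by
      rw [← h3, ← h4, h1, h2]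
      ring
    exact_mod_cast h5
  obtain ⟨a, b, hab⟩ : IsCoprime L H := (hLi.coprime_iff_not_dvd).2 hH
  obtain ⟨b1, hb1, g, hg⟩ := fac_clr H
  obtain ⟨b2, hb2, a', ha'⟩ := fac_clr a
  obtain ⟨b3, hb3, b', hb'⟩ := fac_clr b
  have hLm : (2 * X + C (e : ℤ) : ℤ[X]).map (Int.castRingHom ℚ) = L := by
    have hC2 : (C (2 : ℚ) : ℚ[X]) = 2 := map_ofNat C 2
    rw [hL, hC2]
    simp
  refine ⟨g, ?_, b1 * b2 * b3, mul_ne_zero (mul_ne_zero hb1 hb2) hb3,
    ⟨C b2 * b', C (b1 * b3) * a', ?_⟩, C (b2 * b3) * (2 * X + C (e : ℤ)) ^ k, ?_⟩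
  · have h1 : (g.map (Int.castRingHom ℚ)).natDegree = g.natDegree :=
      natDegree_map_eq_of_injective hinj g
    rw [← h1, hg, natDegree_C_mul (by exact_mod_cast hb1)]
    exact hHpos
  · apply hminj
    rw [Polynomial.map_add, Polynomial.map_mul, Polynomial.map_mul, Polynomial.map_mul,
      Polynomial.map_mul, hLm, hg, ha', hb', Polynomial.map_C, Polynomial.map_C, Polynomial.map_C]
    have h1 : C (b1 : ℚ) * H * (C (b2 : ℚ) * (C (b3 : ℚ) * b)) +
        L * (C ((b1 : ℚ) * b3) * (C (b2 : ℚ) * a)) = C (b1 : ℚ) * C (b2 : ℚ) * C (b3 : ℚ) * (a * L + b * H) := by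
      rw [C_mul]
      ring
    have h2 : C ((Int.castRingHom ℚ) (b1 * b3)) = C ((b1 : ℚ) * b3) := by simp
    have h3 : C ((Int.castRingHom ℚ) b2) = C (b2 : ℚ) := by simp
    have h4 : C ((Int.castRingHom ℚ) (b1 * b2 * b3)) = C (b1 : ℚ) * C (b2 : ℚ) * C (b3 : ℚ) := by simp
    rw [h2, h3, h4, h1, hab, mul_one]
  · apply hminj
    rw [Polynomial.map_mul, Polynomial.map_mul, Polynomial.map_mul, Polynomial.map_pow, hLm, hg,
      Polynomial.map_C, Polynomial.map_C, ← hFdef, hFe]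
    have h2 : C ((Int.castRingHom ℚ) (b2 * b3)) = C (b2 : ℚ) * C (b3 : ℚ) := by simp
    have h4 : C ((Int.castRingHom ℚ) (b1 * b2 * b3)) = C (b1 : ℚ) * C (b2 : ℚ) * C (b3 : ℚ) := by simp
    rw [h2, h4]
    ring

end TightIndep
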