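import Pool.Agent.Lib.MP_f31b39_co.AS.Bpoly
import Pool.Agent.Lib.MP_f31b39_co.AS.Fac

/-!
# AS-Bdiv: large primes dividing `g(N)` divide `b(m, t)` and not `2 N + e`

`r = t / 2 ≥ 2`, `e = 1 + t % 2`, `f` from `bound_poly`.  `hne` of `exists_factor`: with
`bound_vals`, even `t`: `f(1) * 1 = r! (2 r + 1) ≠ r! 3 ^ r = f(0) 3 ^ r`; odd `t` (`e = 2`):
`f(1) 2^r = r! 2 (r+1)^2 2^r ≠ r! 2 (r+1) 4^r`, i.e. `r + 1 ≠ 2 ^ r`; both as `r ≥ 2`
(`2 r + 1 < 3 ^ r`, `r + 1 < 2 ^ r`).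
Take `D₀ = max |D| r` (as a natural number).  For a prime `p > D₀` with `p ∣ g(N)`:
`g(N) h(N) = D f(N) = D r! b`, `p ∤ D`, `p ∤ r!` (`Nat.Prime.dvd_factorial`), so `p ∣ b`; if
`p ∣ 2 N + e` then `p ∣ D`: contradiction.
-/

namespace TightIndep

open Polynomial

private theorem two_mul_add_one_lt (r : ℕ) (hr : 2 ≤ r) : 2 * r + 1 < 3 ^ r := by
  induction r, hr using Nat.le_induction with
  | base => norm_num
  | succ n hn ih => rw [pow_succ]; omega

private theorem add_one_lt_two_pow (r : ℕ) (hr : 2 ≤ r) : r + 1 < 2 ^ r := by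
  induction r, hr using Nat.le_induction with
  | base => norm_num
  | succ n hn ih => rw [pow_succ]; omega

theorem bound_div (t : ℕ) (ht : 4 ≤ t) : ∃ g : ℤ[X], 0 < g.natDegree ∧ ∃ D : ℕ,
    ∀ p : ℕ, p.Prime → D < p → ∀ N : ℕ, (p : ℤ) ∣ g.eval (N : ℤ) →
      p ∣ bound (N + t % 2) t ∧ ¬ p ∣ 2 * N + (1 + t % 2) := by
  obtain ⟨f, hdeg, hval⟩ := bound_poly t (by omega)
  obtain ⟨hv0, hv1⟩ := bound_vals t (by omega)
  have hr2 : 2 ≤ t / 2 := by omega
  have hfac : ((t / 2).factorial : ℤ) ≠ 0 := by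
    exact_mod_cast (Nat.factorial_pos _).ne'
  have hne : f.eval 1 * (((1 + t % 2 : ℕ) : ℤ)) ^ (t / 2) ≠
      f.eval 0 * (2 + ((1 + t % 2 : ℕ) : ℤ)) ^ (t / 2) := by
    have h0 := hval 0
    have h1 := hval 1
    rw [hv0] at h0
    rw [hv1] at h1
    simp only [Nat.cast_zero, Nat.cast_one] at h0 h1
    rw [h0, h1]
    intro h
    rcases Nat.even_or_odd t with he | ho
    · have hm : t % 2 = 0 := Nat.even_iff.mp he
      rw [if_pos he, if_pos he, hm] at h
      have h' : ((2 * (t / 2) + 1 : ℕ) : ℤ) = ((3 ^ (t / 2) : ℕ) : ℤ) := by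
        apply mul_left_cancel₀ hfac
        have a1 : ((1 + 0 : ℕ) : ℤ) ^ (t / 2) = 1 := by norm_num
        have a2 : (2 + ((1 + 0 : ℕ) : ℤ)) ^ (t / 2) = 3 ^ (t / 2) := by norm_num
        rw [a1, a2] at h
        push_cast at h ⊢
        linear_combination h
      have h3 := two_mul_add_one_lt (t / 2) hr2
      have h4 : 2 * (t / 2) + 1 = 3 ^ (t / 2) := by exact_mod_cast h'
      omega
    · have hm : t % 2 = 1 := Nat.odd_iff.mp ho
      have hne' : ¬ Even t := Nat.not_even_iff_odd.mpr ho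
      rw [if_neg hne', if_neg hne', hm] at h
      have h4p : (4 : ℤ) ^ (t / 2) = 2 ^ (t / 2) * 2 ^ (t / 2) := by
        rw [← mul_pow]; norm_num
      have h' : (((t / 2) + 1 : ℕ) : ℤ) = ((2 ^ (t / 2) : ℕ) : ℤ) := by
        have h2 : (((t / 2).factorial : ℤ) * 2 * ((t / 2 : ℕ) + 1) * 2 ^ (t / 2)) ≠ 0 := by
          positivity
        apply mul_left_cancel₀ h2
        push_cast at h ⊢
        rw [h4p] at h
        linear_combination h
      have h3 := add_one_lt_two_pow (t / 2) hr2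
      have h4 : (t / 2) + 1 = 2 ^ (t / 2) := by exact_mod_cast h'
      omega
  obtain ⟨g, hg, D, hD, ⟨u, v, huv⟩, h, hh⟩ :=
    exists_factor f (t / 2) (1 + t % 2) (by omega) hdeg hne
  refine ⟨g, hg, max D.natAbs (t / 2), ?_⟩
  intro p hp hDp N hpg
  have hpD : ¬ (p : ℤ) ∣ D := by
    intro hd
    have h1 : p ∣ D.natAbs := Int.natCast_dvd.mp hd
    have h2 := Nat.le_of_dvd (Int.natAbs_pos.mpr hD) h1
    have h3 : D.natAbs < p := lt_of_le_of_lt (le_max_left _ _) hDp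
    omega
  have hpr : Prime (p : ℤ) := Nat.prime_iff_prime_int.mp hp
  constructor
  · have e1 : g.eval (N : ℤ) * h.eval (N : ℤ) = D * f.eval (N : ℤ) := by
      have := congrArg (fun q => Polynomial.eval (N : ℤ) q) hh
      simpa using this
    rw [hval N] at e1
    have h1 : (p : ℤ) ∣ D * (((t / 2).factorial : ℤ) * (bound (N + t % 2) t : ℤ)) := by
      rw [← e1]; exact Dvd.dvd.mul_right hpg _
    rcases hpr.dvd_or_dvd h1 with h2 | h2
    · exact absurd h2 hpD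
    · rcases hpr.dvd_or_dvd h2 with h3 | h3
      · have h4 : p ∣ (t / 2).factorial := by exact_mod_cast h3
        have h5 := (Nat.Prime.dvd_factorial hp).mp h4
        have h6 : t / 2 < p := lt_of_le_of_lt (le_max_right _ _) hDp
        omega
      · exact_mod_cast h3
  · intro hd
    have e2 : g.eval (N : ℤ) * u.eval (N : ℤ) +
        (2 * (N : ℤ) + ((1 + t % 2 : ℕ) : ℤ)) * v.eval (N : ℤ) = D := by
      have := congrArg (fun q => Polynomial.eval (N : ℤ) q) huv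
      simpa using this
    apply hpD
    rw [← e2]
    have h1 : (p : ℤ) ∣ 2 * (N : ℤ) + ((1 + t % 2 : ℕ) : ℤ) := by
      have : (p : ℤ) ∣ ((2 * N + (1 + t % 2) : ℕ) : ℤ) := by exact_mod_cast hd
      simpa using this
    exact dvd_add (Dvd.dvd.mul_right hpg _) (Dvd.dvd.mul_right h1 _)

end TightIndep
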