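import Pool.Agent.Lib.MP_f31b39_co.AS.Defs

/-!
# AS-Bpoly: `r! b(m, t)` is a polynomial in `N`

`N = m - t % 2`, `r = t / 2`.  Even `t = 2 r`: `bound m t = ∑_{i ≤ m} C(m,i) C(r,i) 2^i`
`= ∑_{i ≤ r} C(N,i) C(r,i) 2^i`; odd `t = 2 r + 1`, `m = N + 1`:
`bound m t = ∑_{1 ≤ i ≤ m} C(m-1,i-1) C(r+1,i) 2^i = ∑_{i ≤ r} C(N,i) C(r+1,i+1) 2^{i+1}`
(terms with `i > r` or `i > N` vanish; `bound_even`, `bound_odd`, `nb`, `sb` in `../Count.lean`
help).  `r! C(N,i) = (r!/i!) N (N-1) ... (N-i+1)` is the value of
`C (r!/i!) * descPochhammer ℤ i` (`descPochhammer_eval_eq_descFactorial`).  The degree is `r`: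
the top term is `descPochhammer ℤ r` (monic of degree `r`) times `2^r` (even `t`) or
`2^{r+1}` (odd `t`).
Values: `N = 0`: `1`, `2 (r + 1)`; `N = 1`: `1 + 2 r`, `2 (r + 1) ^ 2`.
-/

namespace TightIndep

open Finset Polynomial

theorem bpoly_aux (r : ℕ) (w : ℕ → ℤ) (hw : ∀ i, r < i → w i = 0) (hr : w r ≠ 0) :
    ∃ f : ℤ[X], f.natDegree = r ∧ ∀ N : ℕ,
      f.eval (N : ℤ) = r.factorial * ∑ i ∈ range (N + 1), (N.choose i : ℤ) * w i := by
  refine ⟨∑ i ∈ range (r + 1), C (((r.factorial / i.factorial : ℕ) : ℤ) * w i) *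
    descPochhammer ℤ i, ?_, fun N => ?_⟩
  · have hdp : ∀ i, (descPochhammer ℤ i).degree = i := by
      intro i
      rw [degree_eq_natDegree (monic_descPochhammer ℤ i).ne_zero, descPochhammer_natDegree]
    have htop : (C (((r.factorial / r.factorial : ℕ) : ℤ) * w r) * descPochhammer ℤ r).degree
        = r := by
      rw [Nat.div_self (Nat.factorial_pos r), Nat.cast_one, one_mul, degree_C_mul hr, hdp]
    have hlow : (∑ i ∈ range r, C (((r.factorial / i.factorial : ℕ) : ℤ) * w i) *
        descPochhammer ℤ i).degree < r := by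
      refine lt_of_le_of_lt (degree_sum_le _ _) ?_
      rw [Finset.sup_lt_iff (by exact WithBot.bot_lt_coe r)]
      intro i hi
      rw [Finset.mem_range] at hi
      refine lt_of_le_of_lt (degree_mul_le _ _) ?_
      rw [hdp]
      refine lt_of_le_of_lt (add_le_add_left degree_C_le _) ?_
      rw [zero_add]
      exact_mod_cast hi
    refine natDegree_eq_of_degree_eq_some ?_
    rw [Finset.sum_range_succ, degree_add_eq_right_of_degree_lt (by rw [htop]; exact hlow), htop]
  · have h1 : ∑ i ∈ range (N + 1), (N.choose i : ℤ) * w i =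
        ∑ i ∈ range (r + 1), (N.choose i : ℤ) * w i := by
      have h2 : ∑ i ∈ range (N + 1), (N.choose i : ℤ) * w i =
          ∑ i ∈ range (max N r + 1), (N.choose i : ℤ) * w i := by
        refine Finset.sum_subset (Finset.range_subset_range.2 (by omega)) ?_
        intro i _ hi
        rw [Finset.mem_range] at hi
        rw [Nat.choose_eq_zero_of_lt (by omega), Nat.cast_zero, zero_mul]
      have h3 : ∑ i ∈ range (r + 1), (N.choose i : ℤ) * w i =
          ∑ i ∈ range (max N r + 1), (N.choose i : ℤ) * w i := by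
        refine Finset.sum_subset (Finset.range_subset_range.2 (by omega)) ?_
        intro i _ hi
        rw [Finset.mem_range] at hi
        rw [hw i (by omega), mul_zero]
      rw [h2, h3]
    rw [h1, eval_finsetSum, Finset.mul_sum]
    refine Finset.sum_congr rfl fun i hi => ?_
    rw [Finset.mem_range] at hi
    rw [eval_mul, eval_C, descPochhammer_eval_eq_descFactorial,
      Nat.descFactorial_eq_factorial_mul_choose]
    have h4 : ((r.factorial / i.factorial : ℕ) : ℤ) * (i.factorial : ℤ) = r.factorial := by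
      exact_mod_cast Nat.div_mul_cancel (Nat.factorial_dvd_factorial (by omega : i ≤ r))
    rw [Nat.cast_mul]
    linear_combination (w i * (N.choose i : ℤ)) * h4

theorem bound_poly (t : ℕ) (ht : 2 ≤ t) : ∃ f : ℤ[X], f.natDegree = t / 2 ∧
    ∀ N : ℕ, f.eval (N : ℤ) = (t / 2).factorial * bound (N + t % 2) t := by
  rcases Nat.even_or_odd' t with ⟨r, rfl | rfl⟩
  · have h1 : 2 * r / 2 = r := by omega
    have h2 : 2 * r % 2 = 0 := by omega
    rw [h1, h2]
    obtain ⟨f, hf1, hf2⟩ := bpoly_aux r (fun i => (r.choose i : ℤ) * 2 ^ i)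
      (fun i hi => by simp [Nat.choose_eq_zero_of_lt hi]) (by simp)
    refine ⟨f, hf1, fun N => ?_⟩
    rw [hf2, add_zero, bound_even]
    unfold nb
    push_cast
    congr 1
    refine Finset.sum_congr rfl fun i _ => ?_
    ring
  · have h1 : (2 * r + 1) / 2 = r := by omega
    have h2 : (2 * r + 1) % 2 = 1 := by omega
    rw [h1, h2]
    obtain ⟨f, hf1, hf2⟩ := bpoly_aux r (fun i => ((r + 1).choose (i + 1) : ℤ) * 2 ^ (i + 1))
      (fun i hi => by simp [Nat.choose_eq_zero_of_lt (show r + 1 < i + 1 by omega)]) (by simp)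
    refine ⟨f, hf1, fun N => ?_⟩
    have h3 : bound (N + 1) (2 * r + 1) = 2 * sb N (r + 1) := by
      have := bound_odd N (r + 1) (by omega)
      rwa [show 2 * (r + 1) - 1 = 2 * r + 1 by omega] at this
    rw [hf2, h3]
    unfold sb
    push_cast
    rw [Finset.mul_sum (a := (2 : ℤ))]
    congr 1
    refine Finset.sum_congr rfl fun i _ => ?_
    ring

theorem bound_vals (t : ℕ) (ht : 2 ≤ t) :
    bound (0 + t % 2) t = (if Even t then 1 else 2 * (t / 2 + 1)) ∧
    bound (1 + t % 2) t = (if Even t then 2 * (t / 2) + 1 else 2 * (t / 2 + 1) ^ 2) := by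
  rcases Nat.even_or_odd' t with ⟨r, rfl | rfl⟩
  · have h1 : 2 * r / 2 = r := by omega
    have h2 : 2 * r % 2 = 0 := by omega
    have h3 : Even (2 * r) := even_two_mul r
    rw [h1, h2, if_pos h3, if_pos h3, add_zero, add_zero, bound_even, bound_even]
    unfold nb
    constructor
    · simp
    · simp [Finset.sum_range_succ]
      ring
  · have h1 : (2 * r + 1) / 2 = r := by omega
    have h2 : (2 * r + 1) % 2 = 1 := by omega
    have h3 : ¬ Even (2 * r + 1) := by
      rw [Nat.not_even_iff_odd]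
      exact ⟨r, rfl⟩
    have h4 : ∀ N, bound (N + 1) (2 * r + 1) = 2 * sb N (r + 1) := by
      intro N
      have := bound_odd N (r + 1) (by omega)
      rwa [show 2 * (r + 1) - 1 = 2 * r + 1 by omega] at this
    rw [h1, h2, if_neg h3, if_neg h3, h4, h4]
    unfold sb
    constructor
    · simp
    · have h6 : (r + 1).choose 2 * 2 = (r + 1) * r := by
        have := Nat.choose_two_right (r + 1)
        rw [this, Nat.add_sub_cancel]
        exact Nat.div_mul_cancel (even_iff_two_dvd.1 (by simpa [mul_comm] using Nat.even_mul_succ_self r))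
      simp [Finset.sum_range_succ]
      nlinarith [h6]

end TightIndep
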