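import Pool.Agent.Lib.MP_f31b39_co.AS.Defs

/-!
# AS-Even2: from the differences to the sum over the vectors of norm `≤ r`, `≡ r (mod 2)`

`EE x = TT (x i) * EE (x ∘ succAbove i)` (`Fin.prod_univ_succAbove`), and with
`S = mk (fun k => ∑_{j ≤ k} x_i^{k-2j})` one has `TT (x i) * geo2 = S` (compare coefficients:
`∑_{l ≤ k, l ≡ k (2)} coeff l (TT x_i)`) and `(x_i - x_i⁻¹) * coeff k S = x_i^{k+1} - x_i⁻¹^{k+1}`.
So `(x_i - x_i⁻¹) * coeff r (EE x * geo2) = ∑_k (x_i^{k+1} - x_i⁻¹^{k+1}) coeff (r-k) (EE x')`.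
It may be easier to prove directly, by induction on `k`, that
`(x - x⁻¹) * coeff k (TT x * geo2) = x^{k+1} - x⁻¹^{k+1}`, using
`coeff (k+2) (TT x * geo2) = coeff (k+2) (TT x) + coeff k (TT x * geo2)`
(as `geo2 = 1 + X^2 * geo2`).
-/

namespace TightIndep

open Finset

private theorem geo2_eq : geo2 = 1 + PowerSeries.X ^ 2 * geo2 := by
  ext n
  rw [map_add, PowerSeries.coeff_one, PowerSeries.coeff_X_pow_mul']
  unfold geo2
  rw [PowerSeries.coeff_mk]
  rcases n with _ | _ | n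
  · simp
  · simp
  · have h1 : ¬ (n + 1 + 1 = 0) := by omega
    have h2 : 2 ≤ n + 1 + 1 := by omega
    have e : n + 1 + 1 - 2 = n := by omega
    have h : Even (n + 1 + 1) ↔ Even n := by
      rw [show n + 1 + 1 = n + 2 by ring]
      exact Nat.even_add.trans (by simp)
    simp only [h1, h2, if_true, if_false, e, h, zero_add, PowerSeries.coeff_mk]

private theorem coeff_TT_geo2_add (x : ℂ) (k : ℕ) :
    PowerSeries.coeff (k + 2) (TT x * geo2) =
      (x ^ (k + 2) + x⁻¹ ^ (k + 2)) + PowerSeries.coeff k (TT x * geo2) := by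
  conv_lhs => rw [geo2_eq]
  rw [mul_add, mul_one, map_add, mul_left_comm, PowerSeries.coeff_X_pow_mul]
  congr 1
  unfold TT
  rw [PowerSeries.coeff_mk, if_neg (by omega)]

private theorem coeff_TT_geo2 (x : ℂ) (hx : x ≠ 0) (k : ℕ) :
    (x - x⁻¹) * PowerSeries.coeff k (TT x * geo2) = x ^ (k + 1) - x⁻¹ ^ (k + 1) := by
  induction k using Nat.twoStepInduction with
  | zero =>
    have h : PowerSeries.coeff 0 (TT x * geo2) = 1 := by
      rw [PowerSeries.coeff_mul]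
      simp [TT, geo2]
    rw [h]; ring
  | one =>
    have h : PowerSeries.coeff 1 (TT x * geo2) = x + x⁻¹ := by
      rw [PowerSeries.coeff_mul]
      simp [TT, geo2, Finset.Nat.antidiagonal_succ]
    rw [h]; ring
  | more k ih _ =>
    rw [coeff_TT_geo2_add, mul_add, ih]
    have h1 : x⁻¹ * x ^ (k + 2) = x ^ (k + 1) := by
      rw [pow_succ x (k + 1), mul_comm (x ^ (k + 1)) x, ← mul_assoc, inv_mul_cancel₀ hx, one_mul]
    have h2 : x * x⁻¹ ^ (k + 2) = x⁻¹ ^ (k + 1) := by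
      rw [pow_succ x⁻¹ (k + 1), mul_comm (x⁻¹ ^ (k + 1)) x⁻¹, ← mul_assoc,
        mul_inv_cancel₀ hx, one_mul]
    have h3 : x * x ^ (k + 2) = x ^ (k + 2 + 1) := by ring
    have h4 : x⁻¹ * x⁻¹ ^ (k + 2) = x⁻¹ ^ (k + 2 + 1) := by ring
    linear_combination h3 + h2 - h1 - h4

theorem coeff_geo2 {m : ℕ} (x : Fin (m + 1) → ℂ) (i : Fin (m + 1)) (r : ℕ) (hx : x i ≠ 0) :
    (x i - (x i)⁻¹) * PowerSeries.coeff r (EE x * geo2) =
      ∑ k ∈ range (r + 1), (x i ^ (k + 1) - (x i)⁻¹ ^ (k + 1)) *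
        PowerSeries.coeff (r - k) (EE fun j => x (i.succAbove j)) := by
  have h1 : EE x = TT (x i) * EE (fun j => x (i.succAbove j)) := by
    unfold EE
    rw [Fin.prod_univ_succAbove _ i]
  have h2 : EE x * geo2 = (TT (x i) * geo2) * EE (fun j => x (i.succAbove j)) := by
    rw [h1]; ring
  rw [h2, PowerSeries.coeff_mul, Finset.mul_sum,
    Finset.Nat.sum_antidiagonal_eq_sum_range_succ_mk]
  apply Finset.sum_congr rfl
  intro k _
  rw [← mul_assoc, coeff_TT_geo2 _ hx]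

end TightIndep
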