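import Pool.Agent.Lib.MP_f31b39_co.AS.Hom

/-!
# AS-Fam: the sums over the balls of a tight set vanish

`a i` are the elements of `A` (`lat_of_tight` in `Family.lean` and `lat_of_family` in `Lat.lean`
contain all the arguments needed: no nonzero `v` with `nrm v ≤ t` and `∑ v i • a i = 0`; so
`v ↦ ∑ v i • a i` is injective on a finite set `U` of vectors with differences of norm `≤ t`, and
bijective onto `G` if `|U| = bound m t = |G|`).  For `t` even, `U = ball m (t / 2)` (`card_ball`,
`bound_even`); for `t` odd, `U = dball (t / 2 + 1) d` for every direction `d` (`card_dball`,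
`bound_odd`).  `mon x v = stdAddChar (j * k (∑ v i • a i))` for `x i = stdAddChar (j * k (a i))`
(`addChar_map_sum`, `map_zsmul`, ...).  So the sum of `mon x v` over `U` is
`∑_{g} stdAddChar (j * k g) = 0` (`sum_hom`).
Last statement: if `stdAddChar (j * k (a i)) ^ 2 = 1` for all `i` then `2 * j * k (a i) = 0`
(`ZMod.injective_stdAddChar`), so `k (a i) = 0` (`p` odd), so `k = 0` as the `a i` generate `G`
(the map `v ↦ ∑ v i • a i` is surjective).
-/

namespace TightIndep

open Finset

/-- the family of the elements of a tight set has no short relations -/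
theorem fam_rel {G : Type} [AddCommGroup G] (t : ℕ) (A : Finset G) (hI : Indep t A) :
    ∃ a : Fin A.card → G, ∀ v ∈ rel a, v ≠ 0 → t + 1 ≤ nrm v := by
  classical
  obtain ⟨a, ha⟩ : ∃ a : Fin A.card → G, a = fun i => ((A.equivFin.symm i : A) : G) := ⟨_, rfl⟩
  refine ⟨a, ?_⟩
  intro v hv hv0
  by_contra hcon
  have hsum : ∀ F : G → ℤ → G, ∑ x ∈ A, F x (if h : x ∈ A then v (A.equivFin ⟨x, h⟩) else 0) =
      ∑ i, F (a i) (v i) := by
    intro F
    rw [← Finset.sum_coe_sort A, ← Equiv.sum_comp A.equivFin]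
    refine Finset.sum_congr rfl fun x _ => ?_
    rw [dif_pos x.2, ha]
    simp
  have hsum' : ∀ F : G → ℤ → ℤ, ∑ x ∈ A, F x (if h : x ∈ A then v (A.equivFin ⟨x, h⟩) else 0) =
      ∑ i, F (a i) (v i) := by
    intro F
    rw [← Finset.sum_coe_sort A, ← Equiv.sum_comp A.equivFin]
    refine Finset.sum_congr rfl fun x _ => ?_
    rw [dif_pos x.2, ha]
    simp
  have hn : ∑ i, |v i| = (nrm v : ℤ) := by
    unfold nrm
    push_cast
    rfl
  have h1 := hI (fun x => if h : x ∈ A then v (A.equivFin ⟨x, h⟩) else 0)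
    (by
      rw [hsum' (fun _ z => |z|), hn]
      have : nrm v ≠ 0 := fun h => hv0 (eq_zero_of_nrm h)
      omega)
    (by
      rw [hsum' (fun _ z => |z|), hn]
      omega)
  apply h1
  rw [hsum (fun x z => z • x)]
  exact hv

/-- a set of vectors with short differences and of the size of the group is mapped bijectively -/
theorem sum_image_fam {G : Type} [AddCommGroup G] [Fintype G] {m : ℕ} (t : ℕ) (a : Fin m → G)
    (h : ∀ v ∈ rel a, v ≠ 0 → t + 1 ≤ nrm v) (U : Finset (Fin m → ℤ))
    (hU : ∀ u ∈ U, ∀ u' ∈ U, nrm (u - u') ≤ t) (hc : U.card = Fintype.card G) :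
    (∀ g : G, ∃ u ∈ U, ∑ i, u i • a i = g) ∧
      ∀ f : G → ℂ, ∑ u ∈ U, f (∑ i, u i • a i) = ∑ g, f g := by
  classical
  have hinj : Set.InjOn (fun u : Fin m → ℤ => ∑ i, u i • a i) U := by
    intro u hu u' hu' heq
    by_contra hne
    have h3 : u - u' ∈ rel a := by
      show ∑ i, (u - u') i • a i = 0
      simp only [Pi.sub_apply, sub_smul, Finset.sum_sub_distrib]
      exact sub_eq_zero.2 heq
    have h4 := h _ h3 (sub_ne_zero.2 hne)
    have h5 := hU u hu u' hu'
    omega
  have himg : U.image (fun u : Fin m → ℤ => ∑ i, u i • a i) = Finset.univ := by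
    apply Finset.eq_univ_of_card
    rw [Finset.card_image_of_injOn hinj, hc]
  constructor
  · intro g
    have h3 : g ∈ U.image (fun u : Fin m → ℤ => ∑ i, u i • a i) := by
      rw [himg]
      exact Finset.mem_univ _
    obtain ⟨u, hu, hu2⟩ := Finset.mem_image.1 h3
    exact ⟨u, hu, hu2⟩
  · intro f
    rw [← himg, Finset.sum_image hinj]

theorem addChar_map_sum {B : Type} [AddCommMonoid B] (χ : AddChar B ℂ) {m : ℕ} (s : Finset (Fin m))
    (f : Fin m → B) : χ (∑ i ∈ s, f i) = ∏ i ∈ s, χ (f i) := by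
  classical
  induction s using Finset.induction_on with
  | empty => rw [Finset.sum_empty, Finset.prod_empty, AddChar.map_zero_eq_one]
  | insert i s hi ih => rw [Finset.sum_insert hi, Finset.prod_insert hi, AddChar.map_add_eq_mul, ih]

theorem mon_eq_char {G : Type} [AddCommGroup G] (p : ℕ) [Fact p.Prime] (k : G →+ ZMod p) {m : ℕ}
    (a : Fin m → G) (j : ZMod p) (x : Fin m → ℂ)
    (hx : ∀ i, x i = ZMod.stdAddChar (j * k (a i))) (v : Fin m → ℤ) :
    mon x v = ZMod.stdAddChar (j * k (∑ i, v i • a i)) := by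
  unfold mon
  rw [map_sum, Finset.mul_sum, addChar_map_sum]
  refine Finset.prod_congr rfl fun i _ => ?_
  rw [hx i, map_zsmul, mul_smul_comm, AddChar.map_zsmul_eq_zpow]

theorem family_sums {G : Type} [AddCommGroup G] [Fintype G] (t : ℕ) (ht : 1 ≤ t) (A : Finset G)
    (hm : 1 ≤ A.card) (hA : Tight t A) (p : ℕ) [Fact p.Prime] (hp : p ≠ 2)
    (k : G →+ ZMod p) (hk : k ≠ 0) :
    ∃ a : Fin A.card → G, ∀ j : ZMod p, j ≠ 0 → ∀ x : Fin A.card → ℂ,
      (∀ i, x i = ZMod.stdAddChar (j * k (a i))) →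
      (Even t → ∑ v ∈ ball A.card (t / 2), mon x v = 0) ∧
      (¬ Even t → (∀ d : Fin A.card × Bool, ∑ v ∈ dball (t / 2 + 1) d, mon x v = 0) ∧
        ∃ i, x i ^ 2 ≠ 1) := by
  classical
  obtain ⟨hI, hG⟩ := hA
  obtain ⟨a, ha⟩ := fam_rel t A hI
  refine ⟨a, ?_⟩
  intro j hj x hx
  have hsum0 : ∀ U : Finset (Fin A.card → ℤ), (∀ u ∈ U, ∀ u' ∈ U, nrm (u - u') ≤ t) →
      U.card = Fintype.card G → ∑ v ∈ U, mon x v = 0 := by
    intro U hU hc
    rw [← sum_hom p k hk j hj,
      ← (sum_image_fam t a ha U hU hc).2 (fun g => (ZMod.stdAddChar (j * k g) : ℂ))]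
    exact Finset.sum_congr rfl fun v _ => mon_eq_char p k a j x hx v
  constructor
  · intro he
    apply hsum0
    · intro u hu u' hu'
      rw [mem_ball] at hu hu'
      have := nrm_sub_le u u'
      omega
    · obtain ⟨e, he⟩ := he
      have h2 : t = 2 * (t / 2) := by omega
      rw [card_ball, hG]
      conv_rhs => rw [h2]
      rw [bound_even]
  · intro ho
    have ho2 : t = 2 * (t / 2) + 1 := by
      rw [Nat.not_even_iff_odd] at ho
      obtain ⟨e, he⟩ := ho
      omega
    have hdd : ∀ d : Fin A.card × Bool,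
        (∀ u ∈ dball (t / 2 + 1) d, ∀ u' ∈ dball (t / 2 + 1) d, nrm (u - u') ≤ t) ∧
        (dball (t / 2 + 1) d).card = Fintype.card G := by
      intro d
      constructor
      · intro u hu u' hu'
        rw [mem_dball] at hu hu'
        have h3 := nrm_sub_le u u'
        have h4 := nrm_sub_le (u + ud d) (u' + ud d)
        rw [add_sub_add_right_eq_sub] at h4
        have h5 : nrm (u' + ud d - ud d) ≤ nrm (u' + ud d) + nrm (ud d) := nrm_sub_le _ _
        have h6 : nrm (u + ud d - ud d) ≤ nrm (u + ud d) + nrm (ud d) := nrm_sub_le _ _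
        rw [add_sub_cancel_right, nrm_ud] at h5 h6
        omega
      · rw [hG]
        clear hsum0 hG hI ha hx
        generalize hn : A.card = n at *
        obtain ⟨q, rfl⟩ : ∃ q, n = q + 1 := ⟨n - 1, by omega⟩
        rw [card_dball]
        have h7 : t = 2 * (t / 2 + 1) - 1 := by omega
        conv_rhs => rw [h7]
        rw [bound_odd q (t / 2 + 1) (by omega)]
    refine ⟨fun d => hsum0 _ (hdd d).1 (hdd d).2, ?_⟩
    by_contra hno
    push Not at hno
    apply hk
    have hka : ∀ i, k (a i) = 0 := by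
      intro i
      have h1 := hno i
      rw [hx i, ← AddChar.map_nsmul_eq_pow, ← AddChar.map_zero_eq_one
        (ZMod.stdAddChar (N := p))] at h1
      have h2 := ZMod.injective_stdAddChar h1
      rw [nsmul_eq_mul] at h2
      rcases mul_eq_zero.1 h2 with h3 | h3
      · exfalso
        have h4 : ((2 : ℕ) : ZMod p) = 0 := h3
        rw [ZMod.natCast_eq_zero_iff] at h4
        exact hp ((Nat.prime_dvd_prime_iff_eq Fact.out Nat.prime_two).1 h4)
      · rcases mul_eq_zero.1 h3 with h5 | h5
        · exact absurd h5 hj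
        · exact h5
    ext g
    obtain ⟨u, -, hu⟩ := (sum_image_fam t a ha _ (hdd (⟨0, hm⟩, true)).1
      (hdd (⟨0, hm⟩, true)).2).1 g
    rw [← hu, map_sum]
    simp only [map_zsmul, hka, smul_zero, Finset.sum_const_zero, AddMonoidHom.zero_apply]

end TightIndep
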