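import Pool.Agent.Lib.MP_f31b39_co.AS.Defs

/-!
# AS-Newton: Newton's recursion for the coefficients

Say that `f` has logarithmic derivative `L` if `X * f' = f * L` (`f' = PowerSeries.derivative f`,
notation `d⁄dX ℂ f`).  Closed under products: `L_{fg} = L_f + L_g` (so under finite products), and if
`f ≠ 0`, `f * g = h`, and `f`, `h` have logarithmic derivatives, then `g` has `L_h - L_f`
(`X f' g + X f g' = f g L_h`, cancel `f`; power series over a field are a domain).
`1 - a X` has `-∑_{k ≥ 1} a^k X^k`; `1 - X^2` has `-2 ∑_{i ≥ 1} X^{2i}`.  As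
`TT x * ((1 - xX) * (1 - x⁻¹X)) = 1 - X^2` (coefficients, `x ≠ 0`), `TT x` has
`∑_{k ≥ 1} (x^k + x⁻¹^k - 2 [k even]) X^k`.  So `EE x * (1-X)⁻¹` has coefficients
`pw m (1 + ∑_j (x_j^k + x_j⁻¹^k)) k` for `k ≥ 1`, and `0` for `k = 0`, and `EE x * geo2` (`geo2 =
1/(1-X^2)`, which has `2 ∑_{i≥1} X^{2i}`) has coefficients `pw m (∑_j ...)` where now `m + 1`
coordinates give `-2 (m+1) + 2 = - 2 m` for even `k`.  If `F` has constant coefficient `1` and
`X F' = F L` with `coeff 0 L = 0`, `coeff k L = P k` (`k ≥ 1`), then `coeff k F = cc P k` by strong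
induction (`cc_succ`; `coeff (k+1) (X F') = (k+1) coeff (k+1) F`).
`coeff r (F * (1-X)⁻¹) = ∑_{k ≤ r} coeff k F`.
-/

namespace TightIndep

open Finset

open PowerSeries in
/-- `f` has the logarithmic derivative `L` -/
private def LD (f L : PowerSeries ℂ) : Prop := X * derivative ℂ f = f * L

open PowerSeries in
private theorem ld_one : LD 1 0 := by
  unfold LD
  rw [derivative_one]
  simp

open PowerSeries in
private theorem ld_mul {f L g M : PowerSeries ℂ} (hf : LD f L) (hg : LD g M) :
    LD (f * g) (L + M) := by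
  unfold LD at *
  rw [Derivation.leibniz, smul_eq_mul, smul_eq_mul]
  linear_combination g * hf + f * hg

open PowerSeries in
private theorem ld_cancel {f L g H : PowerSeries ℂ} (h0 : f ≠ 0) (hf : LD f L)
    (hg : LD (f * g) H) : LD g (H - L) := by
  unfold LD at *
  rw [Derivation.leibniz, smul_eq_mul, smul_eq_mul] at hg
  apply mul_left_cancel₀ h0
  linear_combination hg - g * hf

private theorem ld_prod {ι : Type*} (s : Finset ι) (f L : ι → PowerSeries ℂ)
    (h : ∀ i ∈ s, LD (f i) (L i)) : LD (∏ i ∈ s, f i) (∑ i ∈ s, L i) := by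
  classical
  induction s using Finset.induction_on with
  | empty => simpa using ld_one
  | insert a s ha ih =>
    rw [Finset.prod_insert ha, Finset.sum_insert ha]
    exact ld_mul (h a (Finset.mem_insert_self a s))
      (ih fun i hi => h i (Finset.mem_insert_of_mem hi))

open PowerSeries in
private theorem ld_lin (a : ℂ) :
    LD (1 - C a * X) (PowerSeries.mk fun k => if k = 0 then 0 else - a ^ k) := by
  unfold LD
  rw [map_sub, derivative_one, Derivation.leibniz, derivative_C, derivative_X]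
  simp only [smul_eq_mul, mul_one, mul_zero, add_zero, zero_sub, sub_mul, one_mul]
  ext n
  rcases n with _ | _ | n
  · simp
  · rw [coeff_succ_X_mul, map_sub, coeff_mk, mul_assoc, coeff_C_mul, coeff_succ_X_mul, coeff_mk]
    simp
  · rw [coeff_succ_X_mul, map_sub, coeff_mk, mul_assoc, coeff_C_mul, coeff_succ_X_mul, coeff_mk]
    simp [pow_succ]
    ring

open PowerSeries in
private theorem ld_sq :
    LD (1 - X ^ 2) (PowerSeries.mk fun k => if k ≠ 0 ∧ Even k then (-2 : ℂ) else 0) := by
  unfold LD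
  have h2 : derivative ℂ (X ^ 2 : PowerSeries ℂ) = 2 * X := by
    rw [derivative_pow, derivative_X]; simp
  rw [map_sub, derivative_one, h2]
  ext n
  rw [sub_mul, one_mul, map_sub, coeff_mk]
  rcases n with _ | _ | _ | n
  · simp
  · rw [coeff_X_pow_mul']
    have : (2 : PowerSeries ℂ) = C (2 : ℂ) := (map_ofNat C 2).symm
    rw [coeff_succ_X_mul, this]
    simp
  · rw [coeff_X_pow_mul']
    have : (2 : PowerSeries ℂ) = C (2 : ℂ) := (map_ofNat C 2).symm
    rw [coeff_succ_X_mul, this]
    simp [coeff_X]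
  · rw [coeff_X_pow_mul']
    have : (2 : PowerSeries ℂ) = C (2 : ℂ) := (map_ofNat C 2).symm
    rw [coeff_succ_X_mul, this]
    have e1 : n + 1 + 1 + 1 - 2 = n + 1 := by omega
    have e2 : Even (n + 1 + 1 + 1) ↔ Even (n + 1) := by
      rw [show n + 1 + 1 + 1 = (n + 1) + 2 by ring, Nat.even_add]; simp
    simp [e1, e2]

open PowerSeries in
private theorem tt_mul (x : ℂ) (hx : x ≠ 0) :
    ((1 - C x * X) * (1 - C x⁻¹ * X)) * TT x = 1 - X ^ 2 := by
  have h1 : (1 - C x * X) * (1 - C x⁻¹ * X) = 1 - C (x + x⁻¹) * X + X ^ 2 := by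
    have : C x * C x⁻¹ = (1 : PowerSeries ℂ) := by rw [← map_mul, mul_inv_cancel₀ hx, map_one]
    rw [map_add]
    linear_combination X ^ 2 * this
  rw [h1, add_mul, sub_mul, one_mul]
  ext n
  rw [map_add, map_sub, mul_assoc, coeff_C_mul, coeff_X_pow_mul', map_sub]
  rcases n with _ | _ | _ | n
  · simp [TT]
  · rw [coeff_succ_X_mul]
    simp [TT, coeff_X_pow, coeff_one]
  · rw [coeff_succ_X_mul]
    simp [TT, coeff_X_pow, coeff_one]
    field_simp
    ring
  · rw [coeff_succ_X_mul]
    have e1 : n + 1 + 1 + 1 - 2 = n + 1 := by omega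
    simp [TT, coeff_X_pow, coeff_one, e1]
    field_simp
    ring

open PowerSeries in
private theorem ld_tt (x : ℂ) (hx : x ≠ 0) :
    LD (TT x) (PowerSeries.mk fun k => if k = 0 then 0 else
      x ^ k + x⁻¹ ^ k - if Even k then 2 else 0) := by
  have h0 : ((1 - C x * X) * (1 - C x⁻¹ * X) : PowerSeries ℂ) ≠ 0 := by
    intro h
    have := congrArg (coeff 0) h
    simp at this
  have h := ld_cancel h0 (ld_mul (ld_lin x) (ld_lin x⁻¹)) (by rw [tt_mul x hx]; exact ld_sq)
  convert h using 1
  ext n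
  simp only [map_sub, map_add, coeff_mk]
  by_cases hn : n = 0
  · simp [hn]
  · by_cases he : Even n <;> simp [hn, he] <;> ring

open PowerSeries in
private theorem ld_geo1 : LD (PowerSeries.mk 1)
    (PowerSeries.mk fun k => if k = 0 then 0 else (1 : ℂ)) := by
  have h0 : ((1 - X) : PowerSeries ℂ) ≠ 0 := by
    intro h
    have := congrArg (coeff 0) h
    simp at this
  have h1 := ld_lin 1
  rw [map_one, one_mul] at h1
  have h := ld_cancel (g := PowerSeries.mk 1) (H := 0) h0 h1
    (by rw [mul_comm, mk_one_mul_one_sub_eq_one]; exact ld_one)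
  convert h using 1
  ext n
  simp only [map_sub, coeff_mk]
  by_cases hn : n = 0 <;> simp [hn]

open PowerSeries in
private theorem geo2_mul : (1 - X ^ 2) * geo2 = 1 := by
  ext n
  rw [sub_mul, one_mul, map_sub, coeff_X_pow_mul']
  rcases n with _ | _ | n
  · simp [geo2]
  · simp [geo2, coeff_one]
  · have e1 : n + 1 + 1 - 2 = n := by omega
    have e2 : Even (n + 1 + 1) ↔ Even n := by
      rw [show n + 1 + 1 = n + 2 by ring, Nat.even_add]; simp
    simp [geo2, coeff_one, e1, e2]

open PowerSeries in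
private theorem ld_geo2 : LD geo2
    (PowerSeries.mk fun k => if k = 0 then 0 else if Even k then (2 : ℂ) else 0) := by
  have h0 : ((1 - X ^ 2) : PowerSeries ℂ) ≠ 0 := by
    intro h
    have := congrArg (coeff 0) h
    simp at this
  have h := ld_cancel (g := geo2) (H := 0) h0 ld_sq (by rw [geo2_mul]; exact ld_one)
  convert h using 1
  ext n
  simp only [map_sub, coeff_mk]
  by_cases hn : n = 0
  · simp [hn]
  · by_cases he : Even n <;> simp [hn, he]

open PowerSeries in
private theorem coeff_of_ld {F L : PowerSeries ℂ} {P : ℕ → ℂ} (h : LD F L)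
    (h0 : coeff 0 F = 1) (hL0 : coeff 0 L = 0) (hL : ∀ k, coeff (k + 1) L = P (k + 1)) (n : ℕ) :
    coeff n F = cc P n := by
  induction n using Nat.strong_induction_on with
  | _ n ih =>
    rcases n with _ | k
    · rw [h0, cc_zero]
    · have h1 := congrArg (coeff (k + 1)) h
      rw [coeff_succ_X_mul, coeff_derivative, mul_comm F L, coeff_mul,
        Finset.Nat.sum_antidiagonal_succ, hL0, zero_mul, zero_add,
        Finset.Nat.sum_antidiagonal_eq_sum_range_succ_mk] at h1
      rw [cc_succ, eq_div_iff (by exact_mod_cast Nat.succ_ne_zero k), h1]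
      apply Finset.sum_congr rfl
      intro i hi
      rw [hL, ih (k - i) (by have := Finset.mem_range.1 hi; omega)]

private theorem ld_ee {m : ℕ} (x : Fin m → ℂ) (hx : ∀ i, x i ≠ 0) :
    LD (EE x) (∑ i, PowerSeries.mk fun k => if k = 0 then 0 else
      x i ^ k + (x i)⁻¹ ^ k - if Even k then 2 else 0) :=
  ld_prod Finset.univ _ _ fun i _ => ld_tt (x i) (hx i)

private theorem ee_zero {m : ℕ} (x : Fin m → ℂ) : PowerSeries.coeff 0 (EE x) = 1 := by
  unfold EE
  rw [PowerSeries.coeff_zero_eq_constantCoeff_apply, map_prod]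
  apply Finset.prod_eq_one
  intro i _
  simp [TT]

theorem newton_even {m : ℕ} (x : Fin m → ℂ) (hx : ∀ i, x i ≠ 0) (r : ℕ) :
    ∑ k ∈ range (r + 1), PowerSeries.coeff k (EE x) =
      cc (pw m fun k => 1 + ∑ i, (x i ^ k + (x i)⁻¹ ^ k)) r := by
  have h1 : ∑ k ∈ range (r + 1), PowerSeries.coeff k (EE x) =
      PowerSeries.coeff r (EE x * PowerSeries.mk 1) := by
    rw [PowerSeries.coeff_mul, Finset.Nat.sum_antidiagonal_eq_sum_range_succ_mk]
    apply Finset.sum_congr rfl
    intro k _
    simp
  rw [h1]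
  apply coeff_of_ld (ld_mul (ld_ee x hx) ld_geo1)
  · rw [PowerSeries.coeff_zero_eq_constantCoeff_apply, map_mul,
      ← PowerSeries.coeff_zero_eq_constantCoeff_apply, ee_zero]
    simp
  · simp
  · intro k
    rw [map_add, map_sum]
    simp only [PowerSeries.coeff_mk, Nat.succ_ne_zero, if_false, pw]
    rw [Finset.sum_sub_distrib]
    by_cases he : Even (k + 1)
    · simp [he]; ring
    · simp [he]; ring

theorem newton_odd {m : ℕ} (x : Fin (m + 1) → ℂ) (hx : ∀ i, x i ≠ 0) (r : ℕ) :
    PowerSeries.coeff r (EE x * geo2) = cc (pw m fun k => ∑ i, (x i ^ k + (x i)⁻¹ ^ k)) r := by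
  apply coeff_of_ld (ld_mul (ld_ee x hx) ld_geo2)
  · rw [PowerSeries.coeff_zero_eq_constantCoeff_apply, map_mul,
      ← PowerSeries.coeff_zero_eq_constantCoeff_apply, ee_zero]
    simp [geo2]
  · simp
  · intro k
    rw [map_add, map_sum]
    simp only [PowerSeries.coeff_mk, Nat.succ_ne_zero, if_false, pw]
    rw [Finset.sum_sub_distrib]
    by_cases he : Even (k + 1)
    · simp [he]; ring
    · simp [he]

end TightIndep
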