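import Pool.Agent.Lib.MP_f31b39_co.AS.DSph
import Pool.Agent.Lib.MP_f31b39_co.AS.Even2
import Pool.Agent.Lib.MP_f31b39_co.AS.Newton
import Pool.Agent.Lib.MP_f31b39_co.AS.Fam

/-!
# AS-Char: a tight set gives a solution of the system

`k` from `exists_hom` (`|G| = bound A.card t`), `a` from `family_sums`, `m = A.card`;
`s c = #{i : k (a i) = c} + #{i : k (a i) = -c} (+ [c = 0] for even t)`.  Then `∑ s c = 2 m (+ 1)`,
and for `l : ℕ`, `US s (l * j) = ∑_i (x_i^l + x_i⁻¹^l) (+ 1)` where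
`x_i = stdAddChar (j * k (a i))` (`stdAddChar (c * (l * j))`; `AddChar.map_nsmul_eq_pow`,
`AddChar.map_neg_eq_inv`).
Even `t`: `family_sums`, `sum_ball`, `newton_even`.  Odd `t`: take `i` with `x i ^ 2 ≠ 1`, then
`dball_diff` and `coeff_geo2` give `coeff r (EE x * geo2) = 0`, `r = t / 2` (as `x i - (x i)⁻¹ ≠ 0`),
and `newton_odd` (write `A.card = m + 1`; to avoid casts first prove the statement for a family
`a : Fin (m+1) → G`, e.g. `obtain ⟨m, hm⟩ : ∃ m, A.card = m + 1`, `generalize`, `subst`).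
-/

namespace TightIndep

open Finset

/-- the number of `i` with `b i = c`, plus the number of `i` with `b i = -c`, plus `e` at `0` -/
private def cnt {p : ℕ} {m : ℕ} (b : Fin m → ZMod p) (e : ℤ) (c : ZMod p) : ℤ :=
  ∑ i, ((if b i = c then (1 : ℤ) else 0) + (if -b i = c then (1 : ℤ) else 0)) +
    if 0 = c then e else 0

private theorem sum_cnt {p : ℕ} [NeZero p] {m : ℕ} (b : Fin m → ZMod p) (e : ℤ) :
    ∑ c, cnt b e c = 2 * m + e := by
  unfold cnt
  rw [sum_add_distrib, sum_comm]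
  simp only [sum_add_distrib, sum_ite_eq, mem_univ, if_true]
  simp
  ring

private theorem us_cnt {p : ℕ} [NeZero p] {m : ℕ} (b : Fin m → ZMod p) (e : ℤ) (j : ZMod p) :
    US (cnt b e) j =
      ∑ i, (ZMod.stdAddChar (b i * j) + ZMod.stdAddChar (-b i * j)) + (e : ℂ) := by
  unfold US cnt
  have h1 : ∀ c : ZMod p, (((∑ i, ((if b i = c then (1 : ℤ) else 0) +
      (if -b i = c then (1 : ℤ) else 0)) + if 0 = c then e else 0 : ℤ)) : ℂ) *
        ZMod.stdAddChar (c * j) =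
      ∑ i, ((if b i = c then (ZMod.stdAddChar (c * j) : ℂ) else 0) +
        (if -b i = c then (ZMod.stdAddChar (c * j) : ℂ) else 0)) +
        if 0 = c then (e : ℂ) * ZMod.stdAddChar (c * j) else 0 := by
    intro c
    push_cast
    rw [add_mul, sum_mul]
    congr 1
    · refine sum_congr rfl fun i _ => ?_
      rw [add_mul, ite_mul, ite_mul, one_mul, zero_mul]
    · rw [ite_mul, zero_mul]
  rw [sum_congr rfl fun c _ => h1 c, sum_add_distrib, sum_comm]
  congr 1
  · refine sum_congr rfl fun i _ => ?_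
    rw [sum_add_distrib, sum_ite_eq, sum_ite_eq, if_pos (mem_univ _), if_pos (mem_univ _)]
  · rw [sum_ite_eq, if_pos (mem_univ _), zero_mul, AddChar.map_zero_eq_one, mul_one]

private theorem us_cnt_mul {p : ℕ} [NeZero p] {m : ℕ} (b : Fin m → ZMod p) (e : ℤ) (j : ZMod p)
    (x : Fin m → ℂ) (hx : ∀ i, x i = ZMod.stdAddChar (j * b i)) (l : ℕ) :
    US (cnt b e) ((l : ZMod p) * j) = ∑ i, (x i ^ l + (x i)⁻¹ ^ l) + (e : ℂ) := by
  rw [us_cnt]
  congr 1
  refine sum_congr rfl fun i _ => ?_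
  have h1 : b i * ((l : ZMod p) * j) = l • (j * b i) := by
    rw [nsmul_eq_mul]
    ring
  have h2 : -b i * ((l : ZMod p) * j) = l • (-(j * b i)) := by
    rw [nsmul_eq_mul]
    ring
  rw [h1, h2, AddChar.map_nsmul_eq_pow, AddChar.map_nsmul_eq_pow, AddChar.map_neg_eq_inv, hx i]

private theorem ne_zero_of_char {p : ℕ} [NeZero p] (y : ZMod p) :
    (ZMod.stdAddChar y : ℂ) ≠ 0 := by
  intro h
  have h1 : (ZMod.stdAddChar (y + -y) : ℂ) = 1 := by
    rw [add_neg_cancel, AddChar.map_zero_eq_one]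
  rw [AddChar.map_add_eq_mul, h, zero_mul] at h1
  exact zero_ne_one h1

private theorem odd_coeff {m : ℕ} (x : Fin (m + 1) → ℂ) (hx : ∀ i, x i ≠ 0) (r : ℕ)
    (h : ∀ d : Fin (m + 1) × Bool, ∑ v ∈ dball (r + 1) d, mon x v = 0) (h2 : ∃ i, x i ^ 2 ≠ 1) :
    PowerSeries.coeff r (EE x * geo2) = 0 := by
  obtain ⟨i, hi⟩ := h2
  have h3 := coeff_geo2 x i r (hx i)
  rw [← dball_diff x i r (hx i), h, h, sub_zero] at h3
  rcases mul_eq_zero.1 h3 with h4 | h4
  · exfalso
    apply hi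
    have h5 : x i = (x i)⁻¹ := sub_eq_zero.1 h4
    rw [pow_two]
    nth_rw 2 [h5]
    exact mul_inv_cancel₀ (hx i)
  · exact h4

private theorem odd_case {m : ℕ} (p r n : ℕ) [NeZero p] (hn : n = m + 1) (b : Fin n → ZMod p)
    (h : ∀ j : ZMod p, j ≠ 0 → ∀ x : Fin n → ℂ, (∀ i, x i = ZMod.stdAddChar (j * b i)) →
      (∀ d : Fin n × Bool, ∑ v ∈ dball (r + 1) d, mon x v = 0) ∧ ∃ i, x i ^ 2 ≠ 1)
    (j : ZMod p) (hj : j ≠ 0) :
    cc (pw m fun i => US (cnt b 0) ((i : ZMod p) * j)) r = 0 := by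
  subst hn
  obtain ⟨h1, h2⟩ := h j hj (fun i => ZMod.stdAddChar (j * b i)) fun i => rfl
  have h3 := odd_coeff (fun i => (ZMod.stdAddChar (j * b i) : ℂ)) (fun i => ne_zero_of_char _) r
    h1 h2
  rw [newton_odd _ (fun i => ne_zero_of_char _)] at h3
  rw [← h3]
  congr 2
  funext l
  rw [us_cnt_mul b 0 j (fun i => ZMod.stdAddChar (j * b i)) (fun i => rfl) l]
  simp

theorem sol_of_tight {G : Type} [AddCommGroup G] [Fintype G] (t : ℕ) (ht : 1 ≤ t) (A : Finset G)
    (hm : 1 ≤ A.card) (hA : Tight t A) (p : ℕ) [Fact p.Prime] (hp : p ≠ 2)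
    (hd : p ∣ bound A.card t) :
    ∃ s : ZMod p → ℤ, Sol p (t / 2) (A.card - t % 2) (2 * (A.card - t % 2) + (1 + t % 2)) s := by
  obtain ⟨k, hk⟩ := exists_hom (G := G) p (by rw [hA.2]; exact hd)
  obtain ⟨a, ha⟩ := family_sums t ht A hm hA p hp k hk
  rcases Nat.even_or_odd t with he | ho
  · have h0 : t % 2 = 0 := Nat.even_iff.1 he
    refine ⟨cnt (fun i => k (a i)) 1, ?_, ?_⟩
    · rw [sum_cnt, h0, Nat.sub_zero]
      push_cast
      ring
    · intro j hj
      have h1 := (ha j hj (fun i => ZMod.stdAddChar (j * k (a i))) fun i => rfl).1 he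
      rw [sum_ball, newton_even _ (fun i => ne_zero_of_char _)] at h1
      rw [h0, Nat.sub_zero, ← h1]
      congr 2
      funext l
      rw [us_cnt_mul (fun i => k (a i)) 1 j (fun i => ZMod.stdAddChar (j * k (a i)))
        (fun i => rfl) l]
      push_cast
      ring
  · have h0 : t % 2 = 1 := Nat.odd_iff.1 ho
    obtain ⟨m, hmm⟩ : ∃ m, A.card = m + 1 := ⟨A.card - 1, by omega⟩
    refine ⟨cnt (fun i => k (a i)) 0, ?_, ?_⟩
    · rw [sum_cnt, h0, hmm]
      push_cast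
      simp
      ring
    · intro j hj
      rw [h0, show A.card - 1 = m by omega]
      exact odd_case p (t / 2) A.card hmm (fun i => k (a i))
        (fun j' hj' x hx => (ha j' hj' x hx).2 (Nat.not_even_iff_odd.2 ho)) j hj

end TightIndep
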