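import Pool.Agent.Lib.MP_f31b39_co.AS.Defs

/-!
# AS-Four: Fourier transform on `ZMod p`

`e = ZMod.stdAddChar`, injective and primitive: `∑_j e (c * j) = 0` for `c ≠ 0`, `= p` for `c = 0`
(`AddChar.sum_mulShift`, `ZMod.isPrimitive_stdAddChar`).

`US_inv`: `∑_j US s j e(-(c j)) = p s c`; subtract the cases `c` and `0` (the terms `j = 0` cancel).

`US_dvd`: if `US s j = ∑_c s_c e(c j) = 0`, `ζ = e(j)` is a primitive `p`-th root of unity, and
`∑_{l<p} s_l ζ^l = 0` (`s_l` integers), so the cyclotomic polynomial divides `∑ s_l X^l` over `ℤ`;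
evaluate at `1`.
-/

namespace TightIndep

open Finset

theorem US_inv_full {p : ℕ} [Fact p.Prime] (s : ZMod p → ℤ) (c : ZMod p) :
    ∑ j : ZMod p, US s j * ZMod.stdAddChar (-(c * j)) = (p : ℂ) * (s c : ℂ) := by
  unfold US
  simp_rw [Finset.sum_mul]
  rw [Finset.sum_comm]
  have h1 : ∀ d : ZMod p, ∑ j : ZMod p, (s d : ℂ) * ZMod.stdAddChar (d * j) *
      ZMod.stdAddChar (-(c * j)) = if d = c then (p : ℂ) * (s c : ℂ) else 0 := by
    intro d
    have h2 : ∀ j : ZMod p, (s d : ℂ) * ZMod.stdAddChar (d * j) * ZMod.stdAddChar (-(c * j)) =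
        (s d : ℂ) * ZMod.stdAddChar (j * (d - c)) := by
      intro j
      rw [mul_assoc, ← AddChar.map_add_eq_mul]
      congr 2
      ring
    rw [Finset.sum_congr rfl fun j _ => h2 j, ← Finset.mul_sum,
      AddChar.sum_mulShift (d - c) (ZMod.isPrimitive_stdAddChar p)]
    by_cases h : d = c
    · subst h
      simp [ZMod.card, mul_comm]
    · have h' : d - c ≠ 0 := sub_ne_zero.mpr h
      simp [h, h']
  rw [Finset.sum_congr rfl fun d _ => h1 d]
  simp

theorem US_inv {p : ℕ} [Fact p.Prime] (s : ZMod p → ℤ) (c : ZMod p) :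
    (p : ℂ) * ((s c : ℂ) - s 0) =
      ∑ j ∈ univ.filter (fun j : ZMod p => j ≠ 0), US s j * (ZMod.stdAddChar (-(c * j)) - 1) := by
  have h1 := US_inv_full s c
  have h2 := US_inv_full s 0
  have h3 : ∑ j : ZMod p, US s j * (ZMod.stdAddChar (-(c * j)) - 1) =
      ∑ j ∈ univ.filter (fun j : ZMod p => j ≠ 0),
        US s j * (ZMod.stdAddChar (-(c * j)) - 1) := by
    symm
    apply Finset.sum_subset (Finset.filter_subset _ _)
    intro j _ hj
    have hj0 : j = 0 := by
      by_contra h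
      exact hj (by simp [h])
    subst hj0
    simp
  rw [← h3]
  have h4 : ∀ j : ZMod p, US s j * (ZMod.stdAddChar (-(c * j)) - 1) =
      US s j * ZMod.stdAddChar (-(c * j)) - US s j * ZMod.stdAddChar (-((0 : ZMod p) * j)) := by
    intro j
    simp
    ring
  rw [Finset.sum_congr rfl fun j _ => h4 j, Finset.sum_sub_distrib, h1, h2]
  ring

theorem US_shift {p : ℕ} [Fact p.Prime] (s s' : ZMod p → ℤ) (h : ∀ c, s c - s 0 = s' c - s' 0)
    (j : ZMod p) (hj : j ≠ 0) : US s j = US s' j := by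
  unfold US
  have h1 : ∑ c : ZMod p, (ZMod.stdAddChar (c * j) : ℂ) = 0 := by
    rw [AddChar.sum_mulShift j (ZMod.isPrimitive_stdAddChar p)]
    simp [hj]
  have h2 : ∀ c : ZMod p, (s c : ℂ) = (s' c : ℂ) + ((s 0 : ℂ) - (s' 0 : ℂ)) := by
    intro c
    have h3 := h c
    have h4 : s c = s' c + (s 0 - s' 0) := by linarith
    rw [h4]
    push_cast
    ring
  have h5 : ∀ c : ZMod p, (s c : ℂ) * ZMod.stdAddChar (c * j) =
      (s' c : ℂ) * ZMod.stdAddChar (c * j) +
        ((s 0 : ℂ) - (s' 0 : ℂ)) * ZMod.stdAddChar (c * j) := by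
    intro c
    rw [h2 c]
    ring
  rw [Finset.sum_congr rfl fun c _ => h5 c, Finset.sum_add_distrib, ← Finset.mul_sum, h1]
  ring

theorem US_dvd {p : ℕ} [Fact p.Prime] (s : ZMod p → ℤ) (j : ZMod p) (hj : j ≠ 0)
    (h : US s j = 0) : (p : ℤ) ∣ ∑ c, s c := by
  have hp : p.Prime := Fact.out
  set ζ : ℂ := ZMod.stdAddChar j with hζ
  have hpow : ∀ c : ZMod p, (ZMod.stdAddChar (c * j) : ℂ) = ζ ^ c.val := by
    intro c
    rw [hζ, ← AddChar.map_nsmul_eq_pow]
    congr 1
    rw [nsmul_eq_mul, ZMod.natCast_zmod_val]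
  have hζp : ζ ^ p = 1 := by
    rw [hζ, ← AddChar.map_nsmul_eq_pow]
    simp
  have hζ1 : ζ ≠ 1 := by
    intro h1
    apply hj
    apply ZMod.injective_stdAddChar
    rw [AddChar.map_zero_eq_one]
    exact h1
  have hprim : IsPrimitiveRoot ζ p := by
    have h1 := orderOf_eq_prime hζp hζ1
    rw [← h1]
    exact IsPrimitiveRoot.orderOf ζ
  let f : Polynomial ℤ := ∑ c : ZMod p, Polynomial.C (s c) * Polynomial.X ^ c.val
  have hf : Polynomial.aeval ζ f = 0 := by
    simp only [f, map_sum, map_mul, Polynomial.aeval_C, map_pow, Polynomial.aeval_X]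
    rw [← h]
    unfold US
    apply Finset.sum_congr rfl
    intro c _
    rw [hpow c]
    simp
  have hdvd : Polynomial.cyclotomic p ℤ ∣ f := by
    rw [Polynomial.cyclotomic_eq_minpoly hprim hp.pos]
    exact minpoly.isIntegrallyClosed_dvd (hprim.isIntegral hp.pos) hf
  obtain ⟨g, hg⟩ := hdvd
  have he : f.eval 1 = ∑ c, s c := by
    simp [f, Polynomial.eval_finsetSum]
  rw [← he, hg, Polynomial.eval_mul, Polynomial.eval_one_cyclotomic_prime]
  exact dvd_mul_right _ _

end TightIndep
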