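import Pool.Agent.Lib.MP_f31b39_co.AS.Defs

/-!
# AS-PolyN: for fixed `U` the coefficient is a nonzero polynomial in `N`

Define `Q_k ∈ ℂ[X]` by the same recursion, with `P_i = C (U i) - (if Even i then 2 * X else 0)`
(strong recursion as in `cc`, or prove by strong induction: for all `k` there is `Q` with
`natDegree Q ≤ k / 2`, `∀ N, Q.eval N = cc (pw N U) k`, and `coeff Q (k / 2) =
(-1) ^ (k / 2) / (k / 2)! * (if Even k then 1 else U 1)`).  The leading coefficient: `k Q_k =
∑_{i=1}^k P_i Q_{k-i}`, `natDegree (P_i Q_{k-i}) ≤ [i even] + (k-i)/2`; for even `k = 2 l` only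
`i = 2` contributes to the coefficient of `X ^ l`: `k c = -2 c'`, `c' = (-1)^(l-1) / (l-1)!`.
For odd `k = 2 l + 1`: `i = 1` gives `U 1 * (-1)^l / l!`, `i = 2` gives `-2 U 1 (-1)^(l-1)/(l-1)!`,
sum `U 1 (-1)^l/l! (1 + 2 l)`; other even `i` and other odd `i` contribute nothing.
-/

namespace TightIndep

open Finset

/-- the power sums as polynomials in `N` -/
noncomputable def ppN (U : ℕ → ℂ) (i : ℕ) : Polynomial ℂ :=
  Polynomial.C (U i) - if Even i then Polynomial.C 2 * Polynomial.X else 0

/-- the polynomials `Q_k` -/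
noncomputable def qqN (U : ℕ → ℂ) : ℕ → Polynomial ℂ
  | 0 => 1
  | k + 1 => Polynomial.C (1 / ((k : ℂ) + 1)) * ∑ i : Fin (k + 1), ppN U (i + 1) * qqN U (k - i)

theorem qqN_zero (U : ℕ → ℂ) : qqN U 0 = 1 := by rw [qqN]

theorem qqN_succ (U : ℕ → ℂ) (k : ℕ) :
    qqN U (k + 1) =
      Polynomial.C (1 / ((k : ℂ) + 1)) * ∑ i ∈ range (k + 1), ppN U (i + 1) * qqN U (k - i) := by
  rw [qqN, Finset.sum_range]

theorem eval_ppN (U : ℕ → ℂ) (i : ℕ) (N : ℂ) : (ppN U i).eval N = pw N U i := by
  rw [ppN, pw]
  split_ifs <;> simp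

theorem eval_qqN (U : ℕ → ℂ) (k : ℕ) (N : ℂ) : (qqN U k).eval N = cc (pw N U) k := by
  induction k using Nat.strong_induction_on with
  | _ k ih =>
    rcases k with _ | k
    · simp [qqN_zero, cc_zero]
    · rw [qqN_succ, cc_succ, Polynomial.eval_mul, Polynomial.eval_C, Polynomial.eval_finsetSum,
        one_div, mul_comm, div_eq_mul_inv]
      congr 1
      refine sum_congr rfl fun i _ => ?_
      rw [Polynomial.eval_mul, eval_ppN, ih (k - i) (by omega)]

/-- coefficients of a product with `ppN` -/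
theorem coeff_ppN_mul (U : ℕ → ℂ) (i d : ℕ) (Q : Polynomial ℂ) :
    (ppN U i * Q).coeff (d + 1) =
      U i * Q.coeff (d + 1) - if Even i then 2 * Q.coeff d else 0 := by
  rw [ppN, sub_mul, Polynomial.coeff_sub, Polynomial.coeff_C_mul]
  split_ifs with h
  · rw [mul_assoc, Polynomial.coeff_C_mul, Polynomial.coeff_X_mul]
  · simp

theorem coeff_ppN_mul_zero (U : ℕ → ℂ) (i : ℕ) (Q : Polynomial ℂ) :
    (ppN U i * Q).coeff 0 = U i * Q.coeff 0 := by
  rw [ppN, sub_mul, Polynomial.coeff_sub, Polynomial.coeff_C_mul]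
  split_ifs with h
  · rw [mul_assoc, Polynomial.coeff_C_mul, Polynomial.coeff_X_mul_zero]
    simp
  · simp

theorem coeff_qqN_eq_zero (U : ℕ → ℂ) (k d : ℕ) (hd : k / 2 < d) : (qqN U k).coeff d = 0 := by
  induction k using Nat.strong_induction_on generalizing d with
  | _ k ih =>
    rcases k with _ | k
    · rw [qqN_zero, Polynomial.coeff_one, if_neg (by omega)]
    · obtain ⟨e, rfl⟩ : ∃ e, d = e + 1 := ⟨d - 1, by omega⟩
      rw [qqN_succ, Polynomial.coeff_C_mul, Polynomial.finsetSum_coeff]
      refine mul_eq_zero_of_right _ (sum_eq_zero fun i hi => ?_)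
      rw [mem_range] at hi
      rw [coeff_ppN_mul, ih (k - i) (by omega) (e + 1) (by omega)]
      split_ifs with h
      · have hi1 : 1 ≤ i := by
          rcases h with ⟨r, hr⟩
          omega
        rw [ih (k - i) (by omega) e (by omega)]
        simp
      · simp

/-- the leading coefficient -/
noncomputable def lcN (U : ℕ → ℂ) (k : ℕ) : ℂ :=
  (-1) ^ (k / 2) / ((k / 2).factorial : ℂ) * (if Even k then 1 else U 1)

theorem coeff_qqN_lc (U : ℕ → ℂ) (k : ℕ) : (qqN U k).coeff (k / 2) = lcN U k := by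
  induction k using Nat.strong_induction_on with
  | _ k ih =>
    rcases k with _ | _ | k
    · simp [qqN_zero, lcN]
    · rw [zero_add, qqN_succ]
      simp [qqN_zero, lcN, ppN]
    · have hd : (k + 1 + 1) / 2 = k / 2 + 1 := by omega
      have hk1 : (qqN U (k + 1)).coeff (k / 2 + 1) =
          if Even k then 0 else lcN U (k + 1) := by
        split_ifs with h
        · exact coeff_qqN_eq_zero U _ _ (by rcases h with ⟨r, hr⟩; omega)
        · rw [← ih (k + 1) (by omega)]
          congr 1
          rw [Nat.not_even_iff_odd] at h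
          rcases h with ⟨r, hr⟩
          omega
      rw [hd, qqN_succ, Polynomial.coeff_C_mul, Polynomial.finsetSum_coeff,
        sum_range_succ', sum_range_succ']
      have hrest : ∑ i ∈ range k, (ppN U (i + 1 + 1 + 1) * qqN U (k + 1 - (i + 1 + 1))).coeff
          (k / 2 + 1) = 0 := by
        refine sum_eq_zero fun i hi => ?_
        rw [mem_range] at hi
        rw [coeff_ppN_mul, coeff_qqN_eq_zero U _ (k / 2 + 1) (by omega)]
        split_ifs with h
        · rw [coeff_qqN_eq_zero U _ (k / 2) (by rcases h with ⟨r, hr⟩; omega)]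
          simp
        · simp
      rw [hrest, coeff_ppN_mul, coeff_ppN_mul]
      have e1 : k + 1 - (0 + 1) = k := by omega
      have e2 : k + 1 - 0 = k + 1 := by omega
      rw [e1, e2, hk1, coeff_qqN_eq_zero U k (k / 2 + 1) (by omega), ih k (by omega)]
      have h2 : Even (0 + 1 + 1) := by decide
      have h1 : ¬ Even (0 + 1) := by decide
      rw [if_pos h2, if_neg h1]
      have hf : ((k / 2 + 1).factorial : ℂ) = ((k / 2 : ℕ) + 1) * ((k / 2).factorial : ℂ) := by
        rw [Nat.factorial_succ]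
        push_cast
        ring
      have hf0 : ((k / 2).factorial : ℂ) ≠ 0 := by
        exact_mod_cast Nat.factorial_ne_zero _
      have hq : ((k / 2 : ℕ) : ℂ) + 1 ≠ 0 := by
        exact_mod_cast Nat.succ_ne_zero (k / 2)
      have hq2 : ((k : ℂ) + 1 + 1) ≠ 0 := by
        exact_mod_cast Nat.succ_ne_zero (k + 1)
      by_cases h : Even k
      · have hE : Even (k + 1 + 1) := by
          rcases h with ⟨r, hr⟩
          exact ⟨r + 1, by omega⟩
        rw [if_pos h, lcN, lcN, if_pos h, if_pos hE, hd, hf]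
        have hk : (k : ℂ) = 2 * ((k / 2 : ℕ) : ℂ) := by
          rcases h with ⟨r, hr⟩
          have : k = 2 * (k / 2) := by omega
          exact_mod_cast this
        push_cast
        generalize ((k / 2 : ℕ) : ℂ) = l at *
        rw [hk] at hq2 ⊢
        have hq3 : 2 * l + 1 + 1 ≠ 0 := hq2
        field_simp
        ring
      · have hE : ¬ Even (k + 1 + 1) := by
          intro hcon
          apply h
          rcases hcon with ⟨r, hr⟩
          exact ⟨r - 1, by omega⟩
        have hE1 : ¬ Even k → Even (k + 1) := fun hh => by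
          rw [Nat.not_even_iff_odd] at hh
          exact hh.add_one
        have hk12 : (k + 1) / 2 = k / 2 + 1 := by
          rw [Nat.not_even_iff_odd] at h
          rcases h with ⟨r, hr⟩
          omega
        rw [if_neg h, lcN, lcN, lcN, if_neg h, if_neg hE, if_pos (hE1 h), hd, hk12, hf]
        have hk : (k : ℂ) = 2 * ((k / 2 : ℕ) : ℂ) + 1 := by
          rw [Nat.not_even_iff_odd] at h
          rcases h with ⟨r, hr⟩
          have : k = 2 * (k / 2) + 1 := by omega
          exact_mod_cast this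
        push_cast
        generalize ((k / 2 : ℕ) : ℂ) = l at *
        rw [hk] at hq2 ⊢
        have hq3 : 2 * l + 1 + 1 + 1 ≠ 0 := hq2
        field_simp
        ring

theorem cc_poly (U : ℕ → ℂ) (r : ℕ) : ∃ Q : Polynomial ℂ, Q.natDegree ≤ r ∧
    (∀ N : ℂ, Q.eval N = cc (pw N U) r) ∧ (Even r ∨ U 1 ≠ 0 → Q ≠ 0) := by
  refine ⟨qqN U r, ?_, eval_qqN U r, ?_⟩
  · rw [Polynomial.natDegree_le_iff_coeff_eq_zero]
    intro d hd
    exact coeff_qqN_eq_zero U r d (by omega)
  · intro h h0
    have h1 := coeff_qqN_lc U r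
    rw [h0, Polynomial.coeff_zero, lcN] at h1
    have hf0 : ((r / 2).factorial : ℂ) ≠ 0 := by
      exact_mod_cast Nat.factorial_ne_zero _
    have hne : (if Even r then (1 : ℂ) else U 1) ≠ 0 := by
      split_ifs with h2
      · exact one_ne_zero
      · rcases h with h | h
        · exact absurd h h2
        · exact h
    have : (-1 : ℂ) ^ (r / 2) / ((r / 2).factorial : ℂ) * (if Even r then (1 : ℂ) else U 1) ≠ 0 :=
      mul_ne_zero (div_ne_zero (pow_ne_zero _ (by norm_num)) hf0) hne
    exact this h1.symm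

end TightIndep
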