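import Pool.Agent.Lib.MP_f31b39_co.AS.Near
import Pool.Agent.Lib.MP_f31b39_co.AS.PolyN
import Pool.Agent.Lib.MP_f31b39_co.AS.Four

/-!
# AS-Count: a prime leaves only `O(√X)` values of `N`

Choose for each `N` with `Bad p r e N` a solution `s = s_N` (classical choice), and for `N ≥ 1` and
`j ≠ 0` a root `ρ_j ∈ R` (`near`, `U = US s`).  Put `q = ⌊√N⌋` (`Nat.sqrt N`), so
`0 ≤ √N - q ≤ 1` and `q ≤ √X`.  Let `ω_c = (1/p) ∑_{j ≠ 0} ρ_j (e(-(c j)) - 1)` (depends on the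
pattern `(ρ_j)` only).  By `US_inv`, `‖(s c - s 0) - √N ω_c‖ ≤ 2 C`, and
`‖(s c - s 0) - q ω_c‖ ≤ 2 C + 2 max_R ‖ρ‖ =: D`.  So `w c = s c - s 0` is an integer with
`|w c - Re (q ω_c)| ≤ D`, and `E c = w c - ⌊Re (q ω_c)⌋ ∈ [-(D+1), D+1]`.  The map
`N ↦ (pattern, q, E)` has at most `#R ^ p * (√X + 1) * (2 D + 5) ^ p` values (patterns as functions
`ZMod p → R`, e.g. `Fintype.piFinset`; put a fixed element of `R` at `j = 0`).
If `N, N'` have the same value then `w` is the same, so `US s_N j = US s_{N'} j` for `j ≠ 0`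
(`US_shift`), so both are roots of the nonzero polynomial `Q` of `cc_poly` for the sequence
`i ↦ US s (i * 1)`: `US s 1 ≠ 0` by `US_dvd`, as `∑ s c = 2 N + e` is not divisible by `p`.  (The
sequences of `N` and `N'` agree at all `1 ≤ i ≤ r < p`; at the `i` with `p ∣ i` they might differ,
so first replace `U i` by `0` unless `1 ≤ i ≤ r`: `cc P r` depends only on `P 1, ..., P r`.)
So at most `r` numbers `N` have the same value (`Polynomial.card_roots'`), and the number of the `N`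
in `[1, X)` is at most `r * #R ^ p * (√X + 1) * (2 D + 5) ^ p`
(`Finset.card_le_mul_card_image`); one more for `N = 0`.
-/

namespace TightIndep

open Finset

/-- `cc P r` depends only on `P 1, ..., P r` -/
theorem cc_congr (P P' : ℕ → ℂ) (r : ℕ) (h : ∀ i, 1 ≤ i → i ≤ r → P i = P' i) :
    cc P r = cc P' r := by
  induction r using Nat.strong_induction_on with
  | _ r ih =>
    rcases r with _ | k
    · rw [cc_zero, cc_zero]
    · rw [cc_succ, cc_succ]
      congr 1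
      refine Finset.sum_congr rfl fun i hi => ?_
      rw [mem_range] at hi
      rw [h (i + 1) (by omega) (by omega), ih (k - i) (by omega) fun l h1 h2 => h l h1 (by omega)]

/-- the main vector of a pattern -/
noncomputable def om {p : ℕ} [NeZero p] (π : ZMod p → ℂ) (c : ZMod p) : ℂ :=
  (1 / (p : ℂ)) * ∑ j ∈ univ.filter (fun j : ZMod p => j ≠ 0), π j * (ZMod.stdAddChar (-(c * j)) - 1)

theorem norm_char_sub (p : ℕ) [Fact p.Prime] (x : ZMod p) :
    ‖(ZMod.stdAddChar x : ℂ) - 1‖ ≤ 2 := by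
  have h1 : ‖(ZMod.stdAddChar x : ℂ)‖ = 1 := AddChar.norm_apply _ _
  calc ‖(ZMod.stdAddChar x : ℂ) - 1‖ ≤ ‖(ZMod.stdAddChar x : ℂ)‖ + ‖(1 : ℂ)‖ := norm_sub_le _ _
    _ = 2 := by rw [h1, norm_one]; norm_num

theorem sum_le_two {p : ℕ} [Fact p.Prime] (F : ZMod p → ℂ) (B : ℝ) (hB : 0 ≤ B)
    (hF : ∀ j : ZMod p, j ≠ 0 → ‖F j‖ ≤ B) (c : ZMod p) :
    ‖∑ j ∈ univ.filter (fun j : ZMod p => j ≠ 0), F j * (ZMod.stdAddChar (-(c * j)) - 1)‖ ≤
      p * (2 * B) := by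
  refine (norm_sum_le _ _).trans ?_
  refine (Finset.sum_le_card_nsmul _ _ (2 * B) fun j hj => ?_).trans ?_
  · rw [norm_mul]
    have h1 := hF j (mem_filter.1 hj).2
    have h2 := norm_char_sub p (-(c * j))
    have h3 := norm_nonneg (F j)
    calc ‖F j‖ * ‖(ZMod.stdAddChar (-(c * j)) : ℂ) - 1‖ ≤ B * 2 :=
          mul_le_mul h1 h2 (norm_nonneg _) hB
      _ = 2 * B := by ring
  · rw [nsmul_eq_mul]
    refine mul_le_mul_of_nonneg_right ?_ (by positivity)
    have h1 : (univ.filter (fun j : ZMod p => j ≠ 0)).card ≤ p :=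
      (Finset.card_le_univ _).trans (le_of_eq (ZMod.card p))
    exact_mod_cast h1

theorem norm_om_le {p : ℕ} [Fact p.Prime] (π : ZMod p → ℂ) (B : ℝ) (hB : 0 ≤ B)
    (hF : ∀ j : ZMod p, j ≠ 0 → ‖π j‖ ≤ B) (c : ZMod p) : ‖om π c‖ ≤ 2 * B := by
  have hp : (0 : ℝ) < p := by exact_mod_cast (Fact.out : p.Prime).pos
  have h1 := sum_le_two π B hB hF c
  unfold om
  rw [norm_mul, norm_div, norm_one, Complex.norm_natCast, one_div, inv_mul_le_iff₀ hp]
  exact h1

theorem near_om {p : ℕ} [Fact p.Prime] (s : ZMod p → ℤ) (π : ZMod p → ℂ) (x : ℝ) (B : ℝ)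
    (hB : 0 ≤ B) (h : ∀ j : ZMod p, j ≠ 0 → ‖US s j - π j * x‖ ≤ B) (c : ZMod p) :
    ‖((s c : ℂ) - s 0) - x * om π c‖ ≤ 2 * B := by
  have hp : (0 : ℝ) < p := by exact_mod_cast (Fact.out : p.Prime).pos
  have hpc : (p : ℂ) ≠ 0 := by exact_mod_cast (Fact.out : p.Prime).ne_zero
  have h1 : (p : ℂ) * (((s c : ℂ) - s 0) - x * om π c) =
      ∑ j ∈ univ.filter (fun j : ZMod p => j ≠ 0),
        (US s j - π j * x) * (ZMod.stdAddChar (-(c * j)) - 1) := by
    rw [mul_sub, US_inv]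
    have h2 : (p : ℂ) * ((x : ℂ) * om π c) = ∑ j ∈ univ.filter (fun j : ZMod p => j ≠ 0),
        π j * x * (ZMod.stdAddChar (-(c * j)) - 1) := by
      unfold om
      rw [← mul_assoc, mul_comm (p : ℂ), mul_assoc, ← mul_assoc (p : ℂ), mul_one_div_cancel hpc,
        one_mul, Finset.mul_sum]
      refine Finset.sum_congr rfl fun j _ => ?_
      ring
    rw [h2, ← Finset.sum_sub_distrib]
    refine Finset.sum_congr rfl fun j _ => ?_
    ring
  have h2 := sum_le_two (fun j => US s j - π j * x) B hB h c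
  rw [← h1, norm_mul, Complex.norm_natCast] at h2
  exact le_of_mul_le_mul_left h2 hp

open Classical in
theorem count_bad (p r e : ℕ) [Fact p.Prime] (hr : 1 ≤ r) (hrp : r < p) :
    ∃ C : ℝ, 0 ≤ C ∧ ∀ X : ℕ, (((range X).filter fun N => Bad p r e N).card : ℝ) ≤ C * (√X + 1) := by
  obtain ⟨R, C₀, hC₀, hnear⟩ := near r hr
  -- the solutions
  have hs' : ∀ N : ℕ, ∃ s : ZMod p → ℤ, Bad p r e N → Sol p r N (2 * N + e) s := by
    intro N
    by_cases hN : Bad p r e N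
    · obtain ⟨s, hs⟩ := hN.2
      exact ⟨s, fun _ => hs⟩
    · exact ⟨0, fun h => absurd h hN⟩
  choose s hs using hs'
  have hπ' : ∀ N : ℕ, ∀ j : ZMod p, ∃ ρ : ℂ, ρ ∈ insert 0 R ∧ (Bad p r e N → 1 ≤ N → j ≠ 0 →
      ‖US (s N) j - ρ * (√(N : ℝ) : ℝ)‖ ≤ C₀) := by
    intro N j
    by_cases hN : Bad p r e N ∧ 1 ≤ N ∧ j ≠ 0
    · obtain ⟨ρ, hρ, h1⟩ := hnear p hrp N hN.2.1 (US (s N)) (hs N hN.1).2 j hN.2.2
      exact ⟨ρ, mem_insert_of_mem hρ, fun _ _ _ => h1⟩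
    · exact ⟨0, mem_insert_self _ _, fun h1 h2 h3 => absurd ⟨h1, h2, h3⟩ hN⟩
  choose π hπR hπ using hπ'
  obtain ⟨M, hM⟩ : ∃ M : ℝ, M = ∑ ρ ∈ insert 0 R, ‖ρ‖ := ⟨_, rfl⟩
  have hM0 : 0 ≤ M := hM ▸ Finset.sum_nonneg fun _ _ => norm_nonneg _
  have hπM : ∀ N j, ‖π N j‖ ≤ M := by
    intro N j
    rw [hM]
    exact Finset.single_le_sum (f := fun ρ : ℂ => ‖ρ‖) (fun _ _ => norm_nonneg _) (hπR N j)
  obtain ⟨L, hL⟩ : ∃ L : ℤ, L = ⌈2 * C₀ + 2 * M⌉ + 1 := ⟨_, rfl⟩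
  -- the error vector
  obtain ⟨E, hE⟩ : ∃ E : ℕ → ZMod p → ℤ, E = fun N c =>
      (s N c - s N 0) - ⌊(((Nat.sqrt N : ℕ) : ℂ) * om (π N) c).re⌋ := ⟨_, rfl⟩
  have hEb : ∀ N, Bad p r e N → 1 ≤ N → ∀ c, E N c ∈ Icc (-L) L := by
    intro N hN h1 c
    have h2 := near_om (s N) (π N) (√(N : ℝ)) C₀ hC₀ (fun j hj => hπ N j hN h1 hj) c
    have h3 : |√(N : ℝ) - (Nat.sqrt N : ℕ)| ≤ 1 := by
      have h4 := Real.nat_sqrt_le_real_sqrt (a := N)
      have h5 := Real.real_sqrt_le_nat_sqrt_succ (a := N)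
      rw [abs_of_nonneg (by linarith)]
      linarith
    have h4 := norm_om_le (π N) M hM0 (fun j _ => hπM N j) c
    have h5 : ‖((s N c : ℂ) - s N 0) - ((Nat.sqrt N : ℕ) : ℂ) * om (π N) c‖ ≤ 2 * C₀ + 2 * M := by
      have h6 : ((s N c : ℂ) - s N 0) - ((Nat.sqrt N : ℕ) : ℂ) * om (π N) c =
          (((s N c : ℂ) - s N 0) - (√(N : ℝ) : ℝ) * om (π N) c) +
            ((√(N : ℝ) - (Nat.sqrt N : ℕ) : ℝ) : ℂ) * om (π N) c := by
        push_cast
        ring
      rw [h6]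
      refine (norm_add_le _ _).trans (add_le_add h2 ?_)
      rw [norm_mul, Complex.norm_real, Real.norm_eq_abs]
      calc |√(N : ℝ) - (Nat.sqrt N : ℕ)| * ‖om (π N) c‖ ≤ 1 * (2 * M) :=
            mul_le_mul h3 h4 (norm_nonneg _) zero_le_one
        _ = 2 * M := one_mul _
    have h6 := (Complex.abs_re_le_norm _).trans h5
    rw [Complex.sub_re, Complex.sub_re, Complex.intCast_re, Complex.intCast_re] at h6
    rw [abs_le] at h6
    have h7 := Int.floor_le (((Nat.sqrt N : ℕ) : ℂ) * om (π N) c).re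
    have h8 := Int.lt_floor_add_one (((Nat.sqrt N : ℕ) : ℂ) * om (π N) c).re
    have h9 := Int.le_ceil (2 * C₀ + 2 * M)
    rw [hE, mem_Icc, hL]
    constructor
    · have : (-(⌈2 * C₀ + 2 * M⌉ + 1 : ℤ) : ℝ) ≤
          ((s N c - s N 0 - ⌊(((Nat.sqrt N : ℕ) : ℂ) * om (π N) c).re⌋ : ℤ) : ℝ) := by
        push_cast
        linarith
      exact_mod_cast this
    · have : ((s N c - s N 0 - ⌊(((Nat.sqrt N : ℕ) : ℂ) * om (π N) c).re⌋ : ℤ) : ℝ) ≤
          ((⌈2 * C₀ + 2 * M⌉ + 1 : ℤ) : ℝ) := by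
        push_cast
        linarith
      exact_mod_cast this
  -- the map
  obtain ⟨F, hF⟩ : ∃ F : ℕ → (ZMod p → ℂ) × ℕ × (ZMod p → ℤ), F = fun N => (π N, Nat.sqrt N, E N) :=
    ⟨_, rfl⟩
  obtain ⟨PA, hPA⟩ : ∃ PA : Finset (ZMod p → ℂ), PA = Fintype.piFinset fun _ => insert 0 R :=
    ⟨_, rfl⟩
  obtain ⟨EA, hEA⟩ : ∃ EA : Finset (ZMod p → ℤ), EA = Fintype.piFinset fun _ => Icc (-L) L :=
    ⟨_, rfl⟩
  refine ⟨r * (PA.card * EA.card) + 1, by positivity, fun X => ?_⟩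
  obtain ⟨T, hT⟩ : ∃ T : Finset ℕ, T = (range X).filter fun N => 1 ≤ N ∧ Bad p r e N := ⟨_, rfl⟩
  have himg : T.image F ⊆ PA ×ˢ (range (Nat.sqrt X + 1) ×ˢ EA) := by
    intro y hy
    obtain ⟨N, hN, rfl⟩ := mem_image.1 hy
    rw [hT, mem_filter, mem_range] at hN
    obtain ⟨hNX, hN1, hNB⟩ := hN
    rw [hF, mem_product, mem_product, hPA, hEA, Fintype.mem_piFinset, Fintype.mem_piFinset,
      mem_range]
    refine ⟨fun j => hπR N j, ?_, fun c => hEb N hNB hN1 c⟩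
    have := Nat.sqrt_le_sqrt hNX.le
    simp only
    omega
  have hfib : ∀ y ∈ T.image F, (T.filter fun N => F N = y).card ≤ r := by
    intro y hy
    obtain ⟨N₀, hN₀, rfl⟩ := mem_image.1 hy
    rw [hT, mem_filter, mem_range] at hN₀
    obtain ⟨-, hN₀1, hN₀B⟩ := hN₀
    obtain ⟨U, hU⟩ : ∃ U : ℕ → ℂ, U = fun i : ℕ => if 1 ≤ i ∧ i ≤ r then US (s N₀) (i * 1) else 0 :=
      ⟨_, rfl⟩
    obtain ⟨Q, hQ1, hQ2, hQ3⟩ := cc_poly U r
    have hne : ∀ i : ℕ, 1 ≤ i → i ≤ r → ((i : ZMod p) * 1) ≠ 0 := by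
      intro i h1 h2 h3
      rw [mul_one, ZMod.natCast_eq_zero_iff] at h3
      have := Nat.le_of_dvd (by omega) h3
      omega
    have hQ0 : Q ≠ 0 := by
      apply hQ3
      right
      rw [hU]
      simp only [le_refl, hr, and_self, if_true]
      intro h0
      have h1 := US_dvd (s N₀) _ (hne 1 le_rfl hr) h0
      rw [(hs N₀ hN₀B).1] at h1
      exact hN₀B.1 (by exact_mod_cast h1)
    have hroot : ∀ N ∈ T.filter (fun N => F N = F N₀), (N : ℂ) ∈ Q.roots.toFinset := by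
      intro N hN
      rw [mem_filter, hT, mem_filter, mem_range] at hN
      obtain ⟨⟨-, hN1, hNB⟩, hNF⟩ := hN
      rw [hF] at hNF
      simp only [Prod.mk.injEq] at hNF
      obtain ⟨e1, e2, e3⟩ := hNF
      have hw : ∀ c, s N c - s N 0 = s N₀ c - s N₀ 0 := by
        intro c
        have h1 := congrFun e3 c
        rw [hE] at h1
        simp only [e1, e2] at h1
        linarith
      rw [Multiset.mem_toFinset, Polynomial.mem_roots hQ0, Polynomial.IsRoot.def, hQ2]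
      have h1 := (hs N hNB).2 1 one_ne_zero
      rw [← h1]
      refine cc_congr _ _ r fun i h2 h3 => ?_
      unfold pw
      rw [hU]
      simp only [h2, h3, and_self, if_true]
      rw [US_shift (s N) (s N₀) hw _ (hne i h2 h3)]
    have h1 : (T.filter fun N => F N = F N₀).card ≤ Q.roots.toFinset.card := by
      refine Finset.card_le_card_of_injOn (fun N : ℕ => (N : ℂ)) hroot ?_
      intro a _ b _ hab
      exact Nat.cast_injective hab
    exact h1.trans ((Multiset.toFinset_card_le _).trans ((Polynomial.card_roots' Q).trans hQ1))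
  have h1 : T.card ≤ r * (PA.card * ((Nat.sqrt X + 1) * EA.card)) := by
    refine (Finset.card_le_mul_card_image T r hfib).trans (Nat.mul_le_mul_left r ?_)
    refine (Finset.card_le_card himg).trans ?_
    rw [card_product, card_product, card_range]
  have h2 : ((range X).filter fun N => Bad p r e N) ⊆ insert 0 T := by
    intro N hN
    rw [mem_filter] at hN
    rcases Nat.eq_zero_or_pos N with h | h
    · rw [h]
      exact mem_insert_self _ _
    · apply mem_insert_of_mem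
      rw [hT, mem_filter]
      exact ⟨hN.1, h, hN.2⟩
  have h3 := (Finset.card_le_card h2).trans (Finset.card_insert_le _ _)
  have h4 : (((range X).filter fun N => Bad p r e N).card : ℝ) ≤
      r * (PA.card * ((Nat.sqrt X + 1) * EA.card)) + 1 := by
    exact_mod_cast h3.trans (Nat.add_le_add_right h1 1)
  refine h4.trans ?_
  have h5 := Real.nat_sqrt_le_real_sqrt (a := X)
  have h6 : 0 ≤ √(X : ℝ) := Real.sqrt_nonneg _
  have h7 : (r : ℝ) * (PA.card * ((Nat.sqrt X + 1) * EA.card)) ≤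
      (r * (PA.card * EA.card)) * (√(X : ℝ) + 1) := by
    have h8 : (r : ℝ) * (PA.card * ((Nat.sqrt X + 1) * EA.card)) =
      (r * (PA.card * EA.card)) * ((Nat.sqrt X : ℝ) + 1) := by ring
    rw [h8]
    exact mul_le_mul_of_nonneg_left (by linarith) (by positivity)
  linarith

end TightIndep
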