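import Pool.Agent.Lib.MP_f31b39_co.AS.Sph

/-!
# AS-DSph: the difference of the sums over two double balls

`v ∈ dball (r+1) (i, true)` iff `|v| ≤ r` or `|v + e_i| ≤ r`; `v ∈ dball (r+1) (i, false)` iff
`|v| ≤ r` or `|v - e_i| ≤ r` (`mem_dball`, `nrm_add_ud_insertNth`, `nrm_insertNth`).  Write
`v = (y, w)`, `y = v_i`, `w` the other coordinates (`Fin.insertNth`, `Fin.removeNth`, as in
`card_dball` of `Count.lean`).  For `|w| = r - k` the values of `y` are `[-k-1, k]` for `(i, true)`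
and `[-k, k+1]` for `(i, false)`; so the difference of the sums is
`∑_{|w| ≤ r} x'^w (x_i^{k+1} - x_i^{-(k+1)})`, `k = r - |w|`, and the sum of `x'^w` over the `w` with
`|w| = r - k` is `coeff (r - k) (EE x')` (difference of two cases of `sum_ball`, or a direct proof).
-/

namespace TightIndep

open Finset

/-- the sum over a sphere -/
theorem sum_sphere {m : ℕ} (x : Fin m → ℂ) (k : ℕ) :
    ∑ v ∈ (ball m k).filter (fun v => nrm v = k), mon x v = PowerSeries.coeff k (EE x) := by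
  rcases k with _ | k
  · have h1 : (ball m 0).filter (fun v => nrm v = 0) = ball m 0 := by
      ext v
      rw [mem_filter, mem_ball]
      omega
    rw [h1, sum_ball, range_one, sum_singleton]
  · have h1 := sum_filter_add_sum_filter_not (ball m (k + 1)) (fun v => nrm v = k + 1) (mon x)
    have h2 : (ball m (k + 1)).filter (fun v => ¬ nrm v = k + 1) = ball m k := by
      ext v
      rw [mem_filter, mem_ball, mem_ball]
      omega
    rw [h2, sum_ball, sum_ball, sum_range_succ _ (k + 1), add_comm] at h1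
    exact add_left_cancel h1

private theorem mon_insertNth {m : ℕ} (x : Fin (m + 1) → ℂ) (i : Fin (m + 1)) (y : ℤ)
    (w : Fin m → ℤ) :
    mon x (i.insertNth y w : Fin (m + 1) → ℤ) = x i ^ y * mon (fun j => x (i.succAbove j)) w := by
  unfold mon
  rw [Fin.prod_univ_succAbove _ i]
  simp

private theorem sum_dball {m : ℕ} (x : Fin (m + 1) → ℂ) (i : Fin (m + 1)) (b : Bool) (r : ℕ) :
    ∑ v ∈ dball (r + 1) (i, b), mon x v =
      ∑ w ∈ ball m r, ∑ y ∈ (if b then Icc (-((r : ℤ) - nrm w + 1)) ((r : ℤ) - nrm w)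
        else Icc (-((r : ℤ) - nrm w)) ((r : ℤ) - nrm w + 1)),
          x i ^ y * mon (fun j => x (i.succAbove j)) w := by
  rw [sum_sigma']
  symm
  refine sum_bij (fun p _ => (i.insertNth p.2 p.1 : Fin (m + 1) → ℤ)) ?_ ?_ ?_ ?_
  · rintro ⟨w, y⟩ h
    rw [mem_sigma, mem_ball] at h
    simp only at h
    obtain ⟨h2, h3⟩ := h
    have e1 := nrm_add_ud_insertNth (i, b) y w
    have e2 := nrm_insertNth i y w
    rw [mem_dball]
    simp only at e1 ⊢
    rw [e1, e2]
    split_ifs at h3 ⊢ <;> rw [mem_Icc] at h3 <;> omega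
  · rintro ⟨w, y⟩ _ ⟨w', y'⟩ _ h
    have h2 := congrArg (fun v : Fin (m + 1) → ℤ => v i) h
    have h3 := congrArg (fun v : Fin (m + 1) → ℤ => i.removeNth v) h
    simp at h2 h3
    subst h2
    subst h3
    rfl
  · intro v hv
    rw [mem_dball] at hv
    refine ⟨⟨i.removeNth v, v i⟩, ?_, ?_⟩
    · have h1 := nrm_add_ud_insertNth (i, b) (v i) (i.removeNth v)
      have h2 := nrm_insertNth i (v i) (i.removeNth v)
      rw [Fin.insertNth_self_removeNth] at h1 h2
      rw [mem_sigma, mem_ball]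
      simp only at h1 ⊢
      split_ifs at h1 ⊢ <;> rw [mem_Icc] <;> omega
    · exact Fin.insertNth_self_removeNth _ _
  · rintro ⟨w, y⟩ _
    exact (mon_insertNth x i y w).symm

private theorem icc_diff (z : ℂ) (k : ℕ) :
    ∑ y ∈ Icc (-(k : ℤ)) ((k : ℤ) + 1), z ^ y - ∑ y ∈ Icc (-((k : ℤ) + 1)) (k : ℤ), z ^ y =
      z ^ (k + 1) - z⁻¹ ^ (k + 1) := by
  have h1 : Icc (-(k : ℤ)) ((k : ℤ) + 1) = insert ((k : ℤ) + 1) (Icc (-(k : ℤ)) (k : ℤ)) := by
    ext y
    rw [mem_insert, mem_Icc, mem_Icc]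
    omega
  have h2 : Icc (-((k : ℤ) + 1)) (k : ℤ) = insert (-((k : ℤ) + 1)) (Icc (-(k : ℤ)) (k : ℤ)) := by
    ext y
    rw [mem_insert, mem_Icc, mem_Icc]
    omega
  rw [h1, h2, sum_insert (by rw [mem_Icc]; omega), sum_insert (by rw [mem_Icc]; omega)]
  have h3 : z ^ ((k : ℤ) + 1) = z ^ (k + 1) := by
    have := zpow_natCast z (k + 1)
    rw [← this]
    push_cast
    rfl
  have h4 : z ^ (-((k : ℤ) + 1)) = z⁻¹ ^ (k + 1) := by
    rw [zpow_neg, h3, inv_pow]
  rw [h3, h4]
  ring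

theorem dball_diff {m : ℕ} (x : Fin (m + 1) → ℂ) (i : Fin (m + 1)) (r : ℕ) (_hx : x i ≠ 0) :
    ∑ v ∈ dball (r + 1) (i, false), mon x v - ∑ v ∈ dball (r + 1) (i, true), mon x v =
      ∑ k ∈ range (r + 1), (x i ^ (k + 1) - (x i)⁻¹ ^ (k + 1)) *
        PowerSeries.coeff (r - k) (EE fun j => x (i.succAbove j)) := by
  rw [sum_dball, sum_dball, ← sum_sub_distrib]
  simp only [Bool.false_eq_true, if_false, if_true]
  have h1 : ∀ w ∈ ball m r,
      (∑ y ∈ Icc (-((r : ℤ) - nrm w)) ((r : ℤ) - nrm w + 1),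
          x i ^ y * mon (fun j => x (i.succAbove j)) w -
        ∑ y ∈ Icc (-((r : ℤ) - nrm w + 1)) ((r : ℤ) - nrm w),
          x i ^ y * mon (fun j => x (i.succAbove j)) w) =
      (x i ^ (r - nrm w + 1) - (x i)⁻¹ ^ (r - nrm w + 1)) *
        mon (fun j => x (i.succAbove j)) w := by
    intro w hw
    rw [mem_ball] at hw
    have e1 : (r : ℤ) - nrm w = ((r - nrm w : ℕ) : ℤ) := by omega
    rw [← sum_mul, ← sum_mul, ← sub_mul, e1, icc_diff]
  rw [sum_congr rfl h1]
  have h2 : ∀ w ∈ ball m r, r - nrm w ∈ range (r + 1) := fun w _ => by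
    rw [mem_range]
    omega
  rw [← sum_fiberwise_of_maps_to h2]
  refine sum_congr rfl fun k hk => ?_
  rw [mem_range] at hk
  have h3 : (ball m r).filter (fun w => r - nrm w = k) =
      (ball m (r - k)).filter (fun w => nrm w = r - k) := by
    ext w
    rw [mem_filter, mem_filter, mem_ball, mem_ball]
    omega
  rw [← sum_sphere, ← h3, mul_sum]
  refine sum_congr rfl fun w hw => ?_
  rw [(mem_filter.1 hw).2]

end TightIndep
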