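import Pool.Agent.Lib.MP_f31b39_co.Family

/-!
# Board AS (tight `t`-independent sets for almost all sizes): definitions
-/

namespace TightIndep

open Finset

/-- Newton's recursion: `c_0 = 1`, `k c_k = ∑_{i=1}^k P_i c_{k-i}` -/
noncomputable def cc (P : ℕ → ℂ) : ℕ → ℂ
  | 0 => 1
  | k + 1 => (∑ i : Fin (k + 1), P (i + 1) * cc P (k - i)) / (k + 1)

theorem cc_zero (P : ℕ → ℂ) : cc P 0 = 1 := by rw [cc]

theorem cc_succ (P : ℕ → ℂ) (k : ℕ) :
    cc P (k + 1) = (∑ i ∈ range (k + 1), P (i + 1) * cc P (k - i)) / (k + 1) := by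
  rw [cc, Finset.sum_range]

/-- the power sums `P_i = U_i - 2 N [i even]` -/
noncomputable def pw (N : ℂ) (U : ℕ → ℂ) (i : ℕ) : ℂ := U i - if Even i then 2 * N else 0

/-- the polynomials `G_k(x)`, the coefficients of `exp (x z - z^2)` -/
noncomputable def GG : ℕ → Polynomial ℂ
  | 0 => 1
  | 1 => Polynomial.X
  | k + 2 => Polynomial.C (1 / ((k : ℂ) + 2)) * (Polynomial.X * GG (k + 1) - 2 * GG k)

/-- the power series of one coordinate -/
noncomputable def TT (x : ℂ) : PowerSeries ℂ :=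
  PowerSeries.mk fun n => if n = 0 then 1 else x ^ n + x⁻¹ ^ n

/-- the generating function of the spheres of `ℤ ^ m` -/
noncomputable def EE {m : ℕ} (x : Fin m → ℂ) : PowerSeries ℂ := ∏ i, TT (x i)

/-- `1 / (1 - z ^ 2)` -/
noncomputable def geo2 : PowerSeries ℂ := PowerSeries.mk fun n => if Even n then 1 else 0

/-- the monomial `x ^ v` -/
noncomputable def mon {m : ℕ} (x : Fin m → ℂ) (v : Fin m → ℤ) : ℂ := ∏ i, x i ^ v i

/-- the Fourier transform of `s` -/
noncomputable def US {p : ℕ} [NeZero p] (s : ZMod p → ℤ) (j : ZMod p) : ℂ :=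
  ∑ c, (s c : ℂ) * ZMod.stdAddChar (c * j)

/-- `s` solves the system of the prime `p` -/
def Sol (p r N M : ℕ) [NeZero p] (s : ZMod p → ℤ) : Prop :=
  ∑ c, s c = M ∧ ∀ j : ZMod p, j ≠ 0 → cc (pw N fun i => US s (i * j)) r = 0

/-- the numbers which the prime `p` does not exclude -/
def Bad (p r e : ℕ) [NeZero p] (N : ℕ) : Prop :=
  ¬ p ∣ 2 * N + e ∧ ∃ s : ZMod p → ℤ, Sol p r N (2 * N + e) s

end TightIndep
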