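import Pool.Agent.Lib.MP_f31b39_co.AS.Primes

/-!
# AS-Deg: the primes of degree one

For a nonzero prime `P` of `𝓞 K` let `p` be the rational prime below (`Ideal.absNorm P = p ^ f`,
`f ≥ 1`: `Ideal.exists_..`, `Ideal.absNorm_eq_pow_inertiaDeg'`, or: `𝓞 K ⧸ P` is a finite field, so its
cardinal is a prime power `p ^ f`, `FiniteField.card`, and `p ∈ P`).  At most `d = [K : ℚ]` primes
`P` lie over `p` (`Ideal.sum_ramification_inertia`,
`Ideal.card_primesOverFinset_le...`; or directly: they are pairwise coprime divisors of `(p)`, so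
the product of their norms, at least `p ^ (their number)`, divides
`N((p)) = p ^ d`, `Ideal.absNorm_span_natCast`/`Ideal.absNorm_algebraMap`).
Let `T` be the set of the primes `p > D` for which some `P` has norm exactly `p`.
Then for a finite set `S` of nonzero primes `P`, splitting by `p`,
`∑_{P ∈ S} 1/N(P) ≤ ∑_{p ∈ T_S} d / p + ∑_{p} d / p ^ 2 + ∑_{p ≤ D} d` where `T_S ⊆ T` is the finite
set of the `p ∈ T` below the members of `S`; the second sum is at most `2 d` (`∑ 1/n^2`), the third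
at most `d (D + 1)`.  So if `S` is from `prime_div` with `B' = d B + 2 d + d (D + 1)`, then
`∑_{p ∈ T_S} 1/p ≥ B`.
-/

namespace TightIndep

open NumberField Finset

open Classical in
theorem card_over_le (K : Type) [Field K] [NumberField K] (p : ℕ) (hp : p.Prime)
    (S : Finset (Ideal (𝓞 K))) (hS : ∀ P ∈ S, P.IsPrime ∧ P ≠ ⊥ ∧ (Ideal.absNorm P).minFac = p) :
    S.card ≤ Module.finrank ℤ (𝓞 K) := by
  have key : ∀ P ∈ S, ((p : 𝓞 K) ∈ P) ∧ p ≤ Ideal.absNorm P := by
    intro P hP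
    obtain ⟨h1, h2, h3⟩ := hS P hP
    haveI : P.IsPrime := h1
    haveI : P.IsMaximal := h1.isMaximal h2
    obtain ⟨q, n, hn, hq, hqp, hN⟩ := Ideal.exists_prime_and_absNorm_eq_pow P
    have : q = p := by
      rw [hN, hqp.pow_minFac hn.ne'] at h3
      exact h3
    subst this
    refine ⟨hq, ?_⟩
    rw [hN]
    exact Nat.le_self_pow hn.ne' q
  have hdvd : (∏ P ∈ S, P) ∣ Ideal.span {(p : 𝓞 K)} := by
    apply Finset.prod_primes_dvd
    · intro P hP
      obtain ⟨h1, h2, h3⟩ := hS P hP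
      exact (Ideal.prime_iff_isPrime h2).2 h1
    · intro P hP
      rw [Ideal.dvd_span_singleton]
      exact (key P hP).1
  have h1 := Ideal.absNorm_dvd_absNorm_of_le (Ideal.le_of_dvd hdvd)
  rw [Ideal.absNorm_span_natCast, map_prod] at h1
  have h2 : p ^ S.card ≤ ∏ P ∈ S, Ideal.absNorm P := by
    rw [← Finset.prod_const]
    exact Finset.prod_le_prod' fun P hP => (key P hP).2
  have h3 := Nat.le_of_dvd (pow_pos hp.pos _) h1
  exact (Nat.pow_le_pow_iff_right hp.one_lt).1 (h2.trans h3)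

theorem sum_sq_le_two (T : Finset ℕ) (hT : ∀ p ∈ T, 0 < p) :
    ∑ p ∈ T, 1 / (p : ℝ) ^ 2 ≤ 2 := by
  have h1 : T ⊆ Finset.Ioo 0 (T.sup id + 1) := by
    intro p hp
    rw [Finset.mem_Ioo]
    exact ⟨hT p hp, Nat.lt_succ_of_le (Finset.le_sup (f := id) hp)⟩
  have h2 := sum_Ioo_inv_sq_le (α := ℝ) 0 (T.sup id + 1)
  calc ∑ p ∈ T, 1 / (p : ℝ) ^ 2 ≤ ∑ p ∈ Finset.Ioo 0 (T.sup id + 1), 1 / (p : ℝ) ^ 2 :=
        Finset.sum_le_sum_of_subset_of_nonneg h1 fun _ _ _ => by positivity
    _ ≤ 2 := by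
        simpa using h2

theorem deg_one (K : Type) [Field K] [NumberField K] (D : ℕ) (B : ℝ) :
    ∃ T : Finset ℕ, (∀ p ∈ T, p.Prime ∧ D < p ∧
      ∃ P : Ideal (𝓞 K), P.IsPrime ∧ P ≠ ⊥ ∧ Ideal.absNorm P = p) ∧
      B ≤ ∑ p ∈ T, 1 / (p : ℝ) := by
  classical
  set d : ℕ := Module.finrank ℤ (𝓞 K) with hd
  have hd0 : 0 < d := by
    rw [hd]
    exact Module.finrank_pos
  have hdR : (0 : ℝ) < d := by exact_mod_cast hd0
  obtain ⟨S, hS, hB⟩ := prime_div K (d * B + 2 * d + d * (D + 1))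
  have hpow : ∀ P ∈ S, ∃ p n : ℕ, 0 < n ∧ p.Prime ∧ Ideal.absNorm P = p ^ n ∧
      (Ideal.absNorm P).minFac = p := by
    intro P hP
    obtain ⟨h1, h2⟩ := hS P hP
    haveI : P.IsPrime := h1
    haveI : P.IsMaximal := h1.isMaximal h2
    obtain ⟨q, n, hn, hq, hqp, hN⟩ := Ideal.exists_prime_and_absNorm_eq_pow P
    refine ⟨q, n, hn, hqp, hN, ?_⟩
    rw [hN, hqp.pow_minFac hn.ne']
  set pr : Ideal (𝓞 K) → ℕ := fun P => (Ideal.absNorm P).minFac with hpr
  set I := S.image pr with hI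
  have hIp : ∀ p ∈ I, p.Prime := by
    intro p hp
    rw [hI, Finset.mem_image] at hp
    obtain ⟨P, hP, rfl⟩ := hp
    obtain ⟨q, n, hn, hqp, hN, hm⟩ := hpow P hP
    rw [hpr]
    simp only
    rw [hm]
    exact hqp
  set T := I.filter (fun p => D < p ∧ ∃ P : Ideal (𝓞 K), P.IsPrime ∧ P ≠ ⊥ ∧ Ideal.absNorm P = p)
    with hT
  refine ⟨T, ?_, ?_⟩
  · intro p hp
    rw [hT, Finset.mem_filter] at hp
    exact ⟨hIp p hp.1, hp.2.1, hp.2.2⟩
  have h1 : ∑ P ∈ S, 1 / (Ideal.absNorm P : ℝ) =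
      ∑ p ∈ I, ∑ P ∈ S.filter (fun P => pr P = p), 1 / (Ideal.absNorm P : ℝ) := by
    rw [hI]
    exact (Finset.sum_fiberwise_of_maps_to (fun P hP => Finset.mem_image_of_mem pr hP) _).symm
  have h2 : ∀ p ∈ I, ∑ P ∈ S.filter (fun P => pr P = p), 1 / (Ideal.absNorm P : ℝ) ≤
      (d : ℝ) * (if p ≤ D then 1 else 0) + d * (if p ∈ T then 1 / (p : ℝ) else 0) +
        d * (1 / (p : ℝ) ^ 2) := by
    intro p hp
    have hpp := hIp p hp
    have hp1 : (1 : ℝ) ≤ p := by exact_mod_cast hpp.one_le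
    have hp0 : (0 : ℝ) < p := by linarith
    have hcard : ((S.filter (fun P => pr P = p)).card : ℝ) ≤ d := by
      have := card_over_le K p hpp (S.filter (fun P => pr P = p)) (by
        intro P hP
        rw [Finset.mem_filter] at hP
        exact ⟨(hS P hP.1).1, (hS P hP.1).2, hP.2⟩)
      exact_mod_cast this
    set c : ℝ := (if p ≤ D then 1 else 0) + (if p ∈ T then 1 / (p : ℝ) else 0) + 1 / (p : ℝ) ^ 2
      with hc
    have hc0 : 0 ≤ c := by
      rw [hc]
      have e1 : (0 : ℝ) ≤ if p ≤ D then 1 else 0 := by split_ifs <;> norm_num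
      have e2 : (0 : ℝ) ≤ if p ∈ T then 1 / (p : ℝ) else 0 := by split_ifs <;> positivity
      positivity
    have h3 : ∀ P ∈ S.filter (fun P => pr P = p), 1 / (Ideal.absNorm P : ℝ) ≤ c := by
      intro P hP
      rw [Finset.mem_filter] at hP
      obtain ⟨q, n, hn, hqp, hN, hm⟩ := hpow P hP.1
      have hqe : q = p := by rw [← hm]; exact hP.2
      subst hqe
      rw [hc]
      have e2 : (0 : ℝ) ≤ if q ∈ T then 1 / (q : ℝ) else 0 := by split_ifs <;> positivity
      have e3 : (0 : ℝ) ≤ 1 / (q : ℝ) ^ 2 := by positivity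
      by_cases hD : q ≤ D
      · rw [if_pos hD]
        have : 1 / (Ideal.absNorm P : ℝ) ≤ 1 := by
          rw [hN]
          push_cast
          rw [div_le_one (by positivity)]
          exact one_le_pow₀ hp1
        linarith
      · rw [if_neg hD]
        by_cases hqT : q ∈ T
        · rw [if_pos hqT]
          have : 1 / (Ideal.absNorm P : ℝ) ≤ 1 / q := by
            rw [hN]
            push_cast
            apply one_div_le_one_div_of_le hp0
            calc (q : ℝ) = (q : ℝ) ^ 1 := (pow_one _).symm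
              _ ≤ (q : ℝ) ^ n := pow_le_pow_right₀ hp1 hn
          linarith
        · rw [if_neg hqT]
          have hn2 : 2 ≤ n := by
            by_contra hlt
            have hn1 : n = 1 := by omega
            subst hn1
            apply hqT
            rw [hT, Finset.mem_filter]
            refine ⟨hp, by omega, P, (hS P hP.1).1, (hS P hP.1).2, ?_⟩
            rw [hN, pow_one]
          have : 1 / (Ideal.absNorm P : ℝ) ≤ 1 / (q : ℝ) ^ 2 := by
            rw [hN]
            push_cast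
            exact one_div_le_one_div_of_le (by positivity) (pow_le_pow_right₀ hp1 hn2)
          linarith
    calc ∑ P ∈ S.filter (fun P => pr P = p), 1 / (Ideal.absNorm P : ℝ)
        ≤ ∑ P ∈ S.filter (fun P => pr P = p), c := Finset.sum_le_sum h3
      _ = ((S.filter (fun P => pr P = p)).card : ℝ) * c := by
          rw [Finset.sum_const, nsmul_eq_mul]
      _ ≤ d * c := mul_le_mul_of_nonneg_right hcard hc0
      _ = _ := by rw [hc]; ring
  have h4 : ∑ p ∈ I, ((d : ℝ) * (if p ≤ D then 1 else 0) +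
      d * (if p ∈ T then 1 / (p : ℝ) else 0) + d * (1 / (p : ℝ) ^ 2)) ≤
      d * (D + 1) + d * (∑ p ∈ T, 1 / (p : ℝ)) + d * 2 := by
    rw [Finset.sum_add_distrib, Finset.sum_add_distrib, ← Finset.mul_sum, ← Finset.mul_sum,
      ← Finset.mul_sum]
    have e1 : ∑ p ∈ I, (if p ≤ D then (1 : ℝ) else 0) ≤ D + 1 := by
      rw [← Finset.sum_filter, Finset.sum_const, nsmul_eq_mul, mul_one]
      have : (I.filter (fun p => p ≤ D)).card ≤ (Finset.range (D + 1)).card := by
        apply Finset.card_le_card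
        intro p hp
        rw [Finset.mem_filter] at hp
        rw [Finset.mem_range]
        omega
      rw [Finset.card_range] at this
      exact_mod_cast this
    have e2 : ∑ p ∈ I, (if p ∈ T then 1 / (p : ℝ) else 0) = ∑ p ∈ T, 1 / (p : ℝ) := by
      rw [← Finset.sum_filter]
      congr 1
      ext p
      rw [Finset.mem_filter, hT, Finset.mem_filter]
      tauto
    have e3 : ∑ p ∈ I, 1 / (p : ℝ) ^ 2 ≤ 2 := sum_sq_le_two I fun p hp => (hIp p hp).pos
    rw [e2]
    gcongr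
  have h5 : (d : ℝ) * B + 2 * d + d * (D + 1) ≤
      d * (D + 1) + d * (∑ p ∈ T, 1 / (p : ℝ)) + d * 2 := by
    refine hB.trans ?_
    rw [h1]
    exact (Finset.sum_le_sum h2).trans h4
  have h6 : (d : ℝ) * B ≤ d * ∑ p ∈ T, 1 / (p : ℝ) := by linarith
  exact le_of_mul_le_mul_left h6 hdR

end TightIndep
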