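import Pool.Agent.Lib.MP_f31b39_co.AS.Defs

/-!
# AS-Euler: the Euler product bound

Induction on the finite set `S` of nonzero primes, for all `F`.  `S = ∅`: the ideals of `F` are not
contained in any maximal ideal, so `F ⊆ {⊤}`, `N(⊤) = 1`.  `insert P S`: every `I ∈ F` is
`I = P ^ k * J` with `¬ P ∣ J` (`exists_eq_pow_mul_and_not_dvd`, finite multiplicity as `I ≠ ⊥`; or
`k = multiplicity`); the map `I ↦ (k, J)` is injective, `J` is in a finite set `F'` (the image) all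
of whose members are nonzero with all prime divisors in `S`, `1/N(I) = N(P)^{-k} / N(J)`
(`map_mul`, `map_pow`); so `∑_{I ∈ F} 1/N(I) ≤ (∑_{k ≤ M} N(P)^{-k}) ∑_{J ∈ F'} 1/N(J) ≤
(1 - 1/N(P))⁻¹ * ∏_S`.  `N(P) ≥ 2`.
-/

namespace TightIndep

open NumberField Finset

private lemma two_le_absNorm (K : Type) [Field K] [NumberField K] (P : Ideal (𝓞 K))
    (hP : P.IsPrime) (hP0 : P ≠ ⊥) : 2 ≤ Ideal.absNorm P := by
  have h0 : Ideal.absNorm P ≠ 0 := by
    rw [Ne, Ideal.absNorm_eq_zero_iff]; exact hP0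
  have h1 : Ideal.absNorm P ≠ 1 := by
    rw [Ne, Ideal.absNorm_eq_one_iff]; exact hP.ne_top
  omega

private lemma base_case (K : Type) [Field K] [NumberField K] (F : Finset (Ideal (𝓞 K)))
    (hF : ∀ I ∈ F, I ≠ ⊥ ∧ ∀ P : Ideal (𝓞 K), P.IsPrime → P ≠ ⊥ → I ≤ P → False) :
    ∑ I ∈ F, 1 / (Ideal.absNorm I : ℝ) ≤ 1 := by
  classical
  have hsub : F ⊆ {⊤} := by
    intro I hI
    rw [Finset.mem_singleton]
    by_contra hne
    obtain ⟨P, hPmax, hle⟩ := Ideal.exists_le_maximal I hne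
    obtain ⟨hI0, hI1⟩ := hF I hI
    refine hI1 P hPmax.isPrime ?_ hle
    intro hP0
    apply hI0
    rw [hP0] at hle
    exact le_bot_iff.mp hle
  calc ∑ I ∈ F, 1 / (Ideal.absNorm I : ℝ)
      ≤ ∑ I ∈ ({⊤} : Finset (Ideal (𝓞 K))), 1 / (Ideal.absNorm I : ℝ) :=
        Finset.sum_le_sum_of_subset_of_nonneg hsub (fun I _ _ => by positivity)
    _ = 1 := by
        rw [Finset.sum_singleton, Ideal.absNorm_top]
        norm_num

theorem euler_le (K : Type) [Field K] [NumberField K] (S : Finset (Ideal (𝓞 K)))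
    (hS : ∀ P ∈ S, P.IsPrime ∧ P ≠ ⊥) (F : Finset (Ideal (𝓞 K)))
    (hF : ∀ I ∈ F, I ≠ ⊥ ∧ ∀ P : Ideal (𝓞 K), P.IsPrime → P ≠ ⊥ → I ≤ P → P ∈ S) :
    ∑ I ∈ F, 1 / (Ideal.absNorm I : ℝ) ≤ ∏ P ∈ S, (1 - 1 / (Ideal.absNorm P : ℝ))⁻¹ := by
  classical
  induction S using Finset.induction_on generalizing F with
  | empty =>
    rw [Finset.prod_empty]
    exact base_case K F (fun I hI => ⟨(hF I hI).1, fun P h1 h2 h3 => by
      have := (hF I hI).2 P h1 h2 h3
      simp at this⟩)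
  | insert P S hPS ih =>
    obtain ⟨hPp, hP0⟩ := hS P (Finset.mem_insert_self P S)
    have hPprime : Prime P := Ideal.prime_of_isPrime hP0 hPp
    have hirr : Irreducible P := hPprime.irreducible
    have hdec : ∀ I : Ideal (𝓞 K), ∃ (k : ℕ) (J : Ideal (𝓞 K)), I ≠ ⊥ → (¬ P ∣ J ∧ I = P ^ k * J) := by
      intro I
      by_cases hI : I = ⊥
      · exact ⟨0, ⊥, fun h => absurd hI h⟩
      · obtain ⟨k, J, h1, h2⟩ := WfDvdMonoid.max_power_factor (a₀ := I) (x := P)
          (by rw [Ne, Submodule.zero_eq_bot]; exact hI) hirr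
        exact ⟨k, J, fun _ => ⟨h1, h2⟩⟩
    choose k J hkJ using hdec
    set F' : Finset (Ideal (𝓞 K)) := F.image J with hF'
    obtain ⟨M, hM⟩ : ∃ M : ℕ, ∀ I ∈ F, k I < M := by
      refine ⟨(F.sup k) + 1, fun I hI => ?_⟩
      have : k I ≤ F.sup k := Finset.le_sup hI
      omega
    have hN2 : 2 ≤ Ideal.absNorm P := two_le_absNorm K P hPp hP0
    have hN2' : (2 : ℝ) ≤ (Ideal.absNorm P : ℝ) := by exact_mod_cast hN2
    set r : ℝ := 1 / (Ideal.absNorm P : ℝ) with hr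
    have hr0 : 0 ≤ r := by positivity
    have hr1 : r < 1 := by
      rw [hr, div_lt_one (by linarith)]
      linarith
    -- rewrite the sum
    have hterm : ∀ I ∈ F, 1 / (Ideal.absNorm I : ℝ)
        = r ^ (k I) * (1 / (Ideal.absNorm (J I) : ℝ)) := by
      intro I hI
      obtain ⟨_, h2⟩ := hkJ I (hF I hI).1
      have h3 : Ideal.absNorm I = Ideal.absNorm P ^ (k I) * Ideal.absNorm (J I) := by
        conv_lhs => rw [h2]
        rw [map_mul, map_pow]
      rw [h3]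
      push_cast
      rw [hr, one_div_pow, one_div_mul_one_div]
    have hinj : Set.InjOn (fun I => (k I, J I)) (F : Set (Ideal (𝓞 K))) := by
      intro I hI I' hI' h
      have hI1 := (hkJ I (hF I hI).1).2
      have hI2 := (hkJ I' (hF I' hI').1).2
      simp only [Prod.mk.injEq] at h
      rw [hI1, hI2, h.1, h.2]
    have hsum : ∑ I ∈ F, 1 / (Ideal.absNorm I : ℝ)
        = ∑ x ∈ F.image (fun I => (k I, J I)), r ^ x.1 * (1 / (Ideal.absNorm x.2 : ℝ)) := by
      rw [Finset.sum_image hinj]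
      exact Finset.sum_congr rfl hterm
    have hsub : F.image (fun I => (k I, J I)) ⊆ (Finset.range M) ×ˢ F' := by
      intro x hx
      rw [Finset.mem_image] at hx
      obtain ⟨I, hI, rfl⟩ := hx
      rw [Finset.mem_product]
      exact ⟨Finset.mem_range.mpr (hM I hI), Finset.mem_image_of_mem J hI⟩
    have hle : ∑ I ∈ F, 1 / (Ideal.absNorm I : ℝ)
        ≤ (∑ i ∈ Finset.range M, r ^ i) * ∑ I ∈ F', 1 / (Ideal.absNorm I : ℝ) := by
      rw [hsum, Finset.sum_mul_sum, ← Finset.sum_product']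
      exact Finset.sum_le_sum_of_subset_of_nonneg hsub (fun x _ _ => by positivity)
    have hgeom : (∑ i ∈ Finset.range M, r ^ i) ≤ (1 - r)⁻¹ := by
      have h1 : (1 - r) * ∑ i ∈ Finset.range M, r ^ i = 1 - r ^ M := mul_neg_geom_sum r M
      have h2 : 0 < 1 - r := by linarith
      rw [← mul_le_mul_iff_right₀ h2, h1, mul_inv_cancel₀ h2.ne']
      have : 0 ≤ r ^ M := by positivity
      linarith
    have hih : ∑ I ∈ F', 1 / (Ideal.absNorm I : ℝ)
        ≤ ∏ P ∈ S, (1 - 1 / (Ideal.absNorm P : ℝ))⁻¹ := by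
      apply ih (fun Q hQ => hS Q (Finset.mem_insert_of_mem hQ))
      intro I' hI'
      rw [hF', Finset.mem_image] at hI'
      obtain ⟨I, hI, rfl⟩ := hI'
      obtain ⟨h1, h2⟩ := hkJ I (hF I hI).1
      have hJle : I ≤ J I := Ideal.dvd_iff_le.mp ⟨P ^ k I, by rw [mul_comm]; exact h2⟩
      refine ⟨?_, ?_⟩
      · intro h0
        apply (hF I hI).1
        rw [h2, h0]
        exact Ideal.mul_bot _
      · intro Q hQp hQ0 hQ
        have hmem := (hF I hI).2 Q hQp hQ0 (hJle.trans hQ)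
        rw [Finset.mem_insert] at hmem
        rcases hmem with rfl | hmem
        · exact absurd (Ideal.dvd_iff_le.mpr hQ) h1
        · exact hmem
    rw [Finset.prod_insert hPS]
    calc ∑ I ∈ F, 1 / (Ideal.absNorm I : ℝ)
        ≤ (∑ i ∈ Finset.range M, r ^ i) * ∑ I ∈ F', 1 / (Ideal.absNorm I : ℝ) := hle
      _ ≤ (1 - r)⁻¹ * ∏ P ∈ S, (1 - 1 / (Ideal.absNorm P : ℝ))⁻¹ := by
          apply mul_le_mul hgeom hih
          · exact Finset.sum_nonneg (fun I _ => by positivity)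
          · exact inv_nonneg.mpr (by linarith)

end TightIndep
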