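import Pool.Agent.Lib.MP_f31b39_co.AS.Defs

/-!
# AS-Hom: a homomorphism to `ZMod p`

`p ∣ |G|`: multiplication by `p` on `G` is not injective (Cauchy, `exists_prime_addOrderOf_dvd_card`),
so not surjective (`G` finite), so `V = G ⧸ (p G)` is nontrivial and killed by `p`; it is a vector
space over `ZMod p` (`AddCommGroup.zmodModule`), and a nonzero vector space has a nonzero linear
functional (`Module.exists_dual_forall_apply_eq_zero_iff`, `exists_dual_map_eq_bot_of_notMem`,
`Module.forall_dual_apply_eq_zero_iff`, or a basis).  Compose with the quotient map.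
Second statement: `g ↦ stdAddChar (j * k g)` is a nontrivial additive character (`k` is surjective,
`ZMod.stdAddChar` is primitive / injective: `ZMod.injective_stdAddChar`), so its sum is `0`
(`AddChar.sum_eq_zero_of_ne_one`; build it with `AddChar.compAddMonoidHom`).
-/

namespace TightIndep

open Finset

theorem exists_functional {V : Type} [AddCommGroup V] (p : ℕ) [Fact p.Prime]
    (hp : ∀ x : V, p • x = 0) {v : V} (hv : v ≠ 0) : ∃ φ : V →+ ZMod p, φ v ≠ 0 := by
  have m : Module (ZMod p) V := AddCommGroup.zmodModule hp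
  by_contra hno
  push Not at hno
  apply hv
  rw [← Module.forall_dual_apply_eq_zero_iff (ZMod p) v]
  intro φ
  exact hno φ.toAddMonoidHom

theorem exists_hom {G : Type} [AddCommGroup G] [Fintype G] (p : ℕ) [Fact p.Prime]
    (h : p ∣ Fintype.card G) : ∃ k : G →+ ZMod p, k ≠ 0 := by
  classical
  let μ : G →+ G := nsmulAddMonoidHom p
  have hμ : ∀ g, μ g = p • g := fun g => rfl
  have hninj : ¬ Function.Injective μ := by
    intro hinj
    obtain ⟨g, hg⟩ := exists_prime_addOrderOf_dvd_card p h
    have h1 : μ g = μ 0 := by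
      rw [hμ, map_zero, ← hg, addOrderOf_nsmul_eq_zero]
    have h2 := hinj h1
    rw [h2, addOrderOf_zero] at hg
    exact (Fact.out : p.Prime).one_lt.ne hg
  have hnsurj : ¬ Function.Surjective μ := fun hs => hninj (Finite.injective_iff_surjective.2 hs)
  have hex : ∃ g, g ∉ μ.range := by
    by_contra hno
    push Not at hno
    exact hnsurj fun g => hno g
  obtain ⟨g, hg⟩ := hex
  have hp : ∀ x : G ⧸ μ.range, p • x = 0 := by
    intro x
    obtain ⟨y, rfl⟩ := QuotientAddGroup.mk_surjective x
    rw [← QuotientAddGroup.mk_nsmul, QuotientAddGroup.eq_zero_iff]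
    exact ⟨y, rfl⟩
  have hne : (QuotientAddGroup.mk g : G ⧸ μ.range) ≠ 0 := by
    rw [Ne, QuotientAddGroup.eq_zero_iff]
    exact hg
  obtain ⟨φ, hφ⟩ := exists_functional p hp hne
  refine ⟨φ.comp (QuotientAddGroup.mk' μ.range), fun h0 => hφ ?_⟩
  have := DFunLike.congr_fun h0 g
  exact this

theorem sum_hom {G : Type} [AddCommGroup G] [Fintype G] (p : ℕ) [Fact p.Prime]
    (k : G →+ ZMod p) (hk : k ≠ 0) (j : ZMod p) (hj : j ≠ 0) :
    ∑ g, (ZMod.stdAddChar (j * k g) : ℂ) = 0 := by
  let χ : AddChar G ℂ := (ZMod.stdAddChar (N := p)).compAddMonoidHom ((AddMonoidHom.mulLeft j).comp k)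
  have h1 : χ ≠ 1 := by
    intro h
    apply hk
    ext g
    by_contra hg
    have h2 : χ g = 1 := by rw [h]; rfl
    have h3 : (ZMod.stdAddChar (j * k g) : ℂ) = ZMod.stdAddChar (0 : ZMod p) := by
      rw [AddChar.map_zero_eq_one]
      exact h2
    have h4 := ZMod.injective_stdAddChar h3
    rcases mul_eq_zero.1 h4 with h5 | h5
    · exact hj h5
    · exact hg h5
  exact AddChar.sum_eq_zero_of_ne_one h1

end TightIndep
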