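import Pool.Agent.Lib.MP_f31b39_co.AS.Defs

/-!
# AS-Ideals: the sum of `1 / N(I)` over the ideals of a number field diverges

`NumberField.Ideal.tendsto_norm_le_div_atTop K`: the number `A(x)` of the ideals of norm `≤ x`
is asymptotic to `κ x`, `κ > 0` (`NumberField.dedekindZeta_residue_pos` /
`dedekindZeta_residue_def`, or positivity of the factors).  The live library file
`Pool/Agent/Lib/MP_e426f4_ag/N/Ideals.lean` works with this limit (finiteness:
`Ideal.finite_setOfPred_absNorm_le`).  So there is `k₀` with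
`(3/4) κ 2^k ≤ A(2^k) ≤ (5/4) κ 2^k` for `k ≥ k₀`, so at least `κ (3/2 - 5/4) 2^k = κ 2^k / 4`
ideals have norm in `(2^k, 2^(k+1)]`; they contribute at least `κ / 8` to the sum.  Sum over
`k₀ ≤ k < k₀ + n` (disjoint blocks).
-/

namespace TightIndep

open NumberField Finset

/-- the ideals of norm at most `2 ^ k` -/
private noncomputable def FF (K : Type) [Field K] [NumberField K] (k : ℕ) : Finset (Ideal (𝓞 K)) :=
  (Ideal.finite_setOfPred_absNorm_le (S := 𝓞 K) (2 ^ k)).toFinset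

private theorem mem_FF {K : Type} [Field K] [NumberField K] {k : ℕ} {I : Ideal (𝓞 K)} :
    I ∈ FF K k ↔ Ideal.absNorm I ≤ 2 ^ k := by
  simp [FF]

private theorem FF_mono {K : Type} [Field K] [NumberField K] {k l : ℕ} (h : k ≤ l) :
    FF K k ⊆ FF K l := fun I hI =>
  mem_FF.2 ((mem_FF.1 hI).trans (Nat.pow_le_pow_right (by norm_num) h))

private theorem FF_card (K : Type) [Field K] [NumberField K] (k : ℕ) :
    ((FF K k).card : ℝ) = (Nat.card {I : Ideal (𝓞 K) // (Ideal.absNorm I : ℝ) ≤ (2 : ℝ) ^ k} : ℝ) := by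
  have h1 : {I : Ideal (𝓞 K) | (Ideal.absNorm I : ℝ) ≤ (2 : ℝ) ^ k} = (FF K k : Set (Ideal (𝓞 K))) := by
    ext I
    simp only [Set.mem_setOf_eq, Finset.mem_coe, mem_FF]
    exact_mod_cast Iff.rfl
  have h2 : Nat.card {I : Ideal (𝓞 K) // (Ideal.absNorm I : ℝ) ≤ (2 : ℝ) ^ k} =
      Set.ncard {I : Ideal (𝓞 K) | (Ideal.absNorm I : ℝ) ≤ (2 : ℝ) ^ k} := rfl
  rw [h2, h1, Set.ncard_coe_finset]

private theorem FF_asym (K : Type) [Field K] [NumberField K] : ∃ κ : ℝ, 0 < κ ∧ ∃ k₀ : ℕ,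
    ∀ k, k₀ ≤ k → 3 / 4 * κ * 2 ^ k ≤ ((FF K k).card : ℝ) ∧ ((FF K k).card : ℝ) ≤ 5 / 4 * κ * 2 ^ k := by
  have hlim := NumberField.Ideal.tendsto_norm_le_div_atTop K
  rw [← NumberField.dedekindZeta_residue_def] at hlim
  have hpos := NumberField.dedekindZeta_residue_pos K
  set κ := NumberField.dedekindZeta_residue K
  have h1 := hlim.eventually (lt_mem_nhds (show 3 / 4 * κ < κ by linarith))
  have h2 := hlim.eventually (gt_mem_nhds (show κ < 5 / 4 * κ by linarith))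
  have h3 : Filter.Tendsto (fun k : ℕ => (2 : ℝ) ^ k) Filter.atTop Filter.atTop :=
    tendsto_pow_atTop_atTop_of_one_lt (by norm_num)
  obtain ⟨k₀, hk₀⟩ := Filter.eventually_atTop.1 (h3.eventually (h1.and h2))
  refine ⟨κ, hpos, k₀, fun k hk => ?_⟩
  have hp : (0 : ℝ) < 2 ^ k := by positivity
  obtain ⟨h4, h5⟩ := hk₀ k hk
  rw [lt_div_iff₀ hp] at h4
  rw [div_lt_iff₀ hp] at h5
  rw [FF_card]
  exact ⟨h4.le, h5.le⟩

theorem ideal_div (K : Type) [Field K] [NumberField K] (B : ℝ) :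
    ∃ S : Finset (Ideal (𝓞 K)), (∀ I ∈ S, I ≠ ⊥) ∧ B ≤ ∑ I ∈ S, 1 / (Ideal.absNorm I : ℝ) := by
  classical
  obtain ⟨κ, hκ, k₀, hk₀⟩ := FF_asym K
  have hblock : ∀ k, k₀ ≤ k → κ / 8 ≤ ∑ I ∈ FF K (k + 1) \ FF K k, 1 / (Ideal.absNorm I : ℝ) := by
    intro k hk
    have h1 : ∀ I ∈ FF K (k + 1) \ FF K k, 1 / (2 : ℝ) ^ (k + 1) ≤ 1 / (Ideal.absNorm I : ℝ) := by
      intro I hI
      rw [Finset.mem_sdiff, mem_FF, mem_FF, not_le] at hI
      have h2 : 0 < Ideal.absNorm I := lt_of_le_of_lt (Nat.zero_le _) hI.2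
      have h3 : (0 : ℝ) < (Ideal.absNorm I : ℝ) := by exact_mod_cast h2
      have h4 : (Ideal.absNorm I : ℝ) ≤ (2 : ℝ) ^ (k + 1) := by exact_mod_cast hI.1
      exact one_div_le_one_div_of_le h3 h4
    have h2 := Finset.sum_le_sum h1
    rw [Finset.sum_const, nsmul_eq_mul] at h2
    refine le_trans ?_ h2
    have h3 : ((FF K (k + 1) \ FF K k).card : ℝ) = ((FF K (k + 1)).card : ℝ) - ((FF K k).card : ℝ) := by
      have h4 := Finset.card_sdiff_add_card_eq_card (FF_mono (K := K) (Nat.le_succ k))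
      have h5 : ((FF K (k + 1) \ FF K k).card : ℝ) + ((FF K k).card : ℝ) = ((FF K (k + 1)).card : ℝ) := by
        exact_mod_cast h4
      linarith
    have h6 := (hk₀ (k + 1) (by omega)).1
    have h7 := (hk₀ k hk).2
    have hp : (0 : ℝ) < 2 ^ k := by positivity
    rw [h3, mul_one_div, le_div_iff₀ (by positivity)]
    have h8 : (2 : ℝ) ^ (k + 1) = 2 * 2 ^ k := by ring
    rw [h8] at h6 ⊢
    nlinarith
  have hall : ∀ n : ℕ, (n : ℝ) * (κ / 8) ≤ ∑ I ∈ FF K (k₀ + n) \ FF K k₀, 1 / (Ideal.absNorm I : ℝ) := by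
    intro n
    induction n with
    | zero => simp
    | succ n ih =>
      have h1 : FF K (k₀ + (n + 1)) \ FF K k₀ =
          (FF K (k₀ + n) \ FF K k₀) ∪ (FF K (k₀ + n + 1) \ FF K (k₀ + n)) := by
        have ha : FF K k₀ ⊆ FF K (k₀ + n) := FF_mono (by omega)
        have hb : FF K (k₀ + n) ⊆ FF K (k₀ + n + 1) := FF_mono (by omega)
        ext I
        simp only [Finset.mem_sdiff, Finset.mem_union, ← Nat.add_assoc]
        constructor
        · rintro ⟨h1, h2⟩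
          by_cases h3 : I ∈ FF K (k₀ + n)
          · exact Or.inl ⟨h3, h2⟩
          · exact Or.inr ⟨h1, h3⟩
        · rintro (⟨h1, h2⟩ | ⟨h1, h2⟩)
          · exact ⟨hb h1, h2⟩
          · exact ⟨h1, fun h3 => h2 (ha h3)⟩
      have h2 : Disjoint (FF K (k₀ + n) \ FF K k₀) (FF K (k₀ + n + 1) \ FF K (k₀ + n)) := by
        rw [Finset.disjoint_left]
        intro I h1 h2
        exact (Finset.mem_sdiff.1 h2).2 (Finset.mem_sdiff.1 h1).1
      rw [h1, Finset.sum_union h2]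
      have h3 := hblock (k₀ + n) (by omega)
      push_cast
      linarith
  obtain ⟨n, hn⟩ := exists_nat_ge (B / (κ / 8))
  refine ⟨FF K (k₀ + n) \ FF K k₀, ?_, ?_⟩
  · intro I hI h
    rw [Finset.mem_sdiff, mem_FF, mem_FF] at hI
    apply hI.2
    rw [h, Ideal.absNorm_bot]
    exact Nat.zero_le _
  · refine le_trans ?_ (hall n)
    rwa [div_le_iff₀ (by positivity)] at hn

end TightIndep
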