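import Pool.Agent.Lib.MP_f31b39_co.AS.Deg

/-!
# AS-RootP: primes modulo which a polynomial has a root

`g ∈ ℤ[X]` nonconstant.  Take an irreducible factor `g₁ ∈ ℚ[X]` of `g.map`, `K = AdjoinRoot g₁` (a
number field; universe `Type`), `θ` its root; `θ` is a root of `g`.  (Or: take a root `θ ∈ ℂ` of `g`
and `K = ℚ⟮θ⟯`, `NumberField` by `IntermediateField.adjoin.finiteDimensional`.)  Let `a ≠ 0` be the
leading coefficient of `g`, `n = natDegree`; `a θ` is integral over `ℤ`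
(`IsIntegral` of leadingCoeff * root: `isIntegral_leadingCoeff_smul` /
`RingHom.isIntegralElem_leadingCoeff_mul`), let `η ∈ 𝓞 K` be `a θ`.
Let `P` be a prime of `𝓞 K` with norm `p` prime, `p > |a|`.  `ℤ → 𝓞 K ⧸ P` is surjective (the
quotient has `p` elements and the image is a nontrivial subring/subgroup), so there is `c ∈ ℤ` with
`η - c ∈ P`; and there is `b ∈ ℤ` with `a b ≡ 1 mod p`.  Now `a^n g(X) = G(a X)` for
`G = ∑ g_i a^{n-i} X^i ∈ ℤ[X]`: `0 = a^n g(θ) = G(η) ≡ G(c) mod P`, so `G(c) ∈ P ∩ ℤ = p ℤ`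
(`p ∈ P` as `N(P) ∈ P`: `Ideal.absNorm_mem`, and `P ≠ ⊤`).  And `G(c) ≡ G(a b c) = a^n g(b c) mod p`,
so `p ∣ g(b c)`.  Take a natural number congruent to `b c` modulo `p`.
Use `deg_one` with `D' = max D |a|`.
-/

namespace TightIndep

open Finset Polynomial NumberField

private theorem root_of_hom (g : ℤ[X]) (K : Type) [Field K] [NumberField K] (θ : K)
    (hθ : Polynomial.aeval θ g = 0) (p : ℕ) (hp : p.Prime) (ψ : 𝓞 K →+* ZMod p)
    (ha : ¬ (p : ℤ) ∣ g.leadingCoeff) : ∃ a : ℕ, (p : ℤ) ∣ g.eval (a : ℤ) := by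
  have : Fact p.Prime := ⟨hp⟩
  have hint : IsIntegral ℤ (g.leadingCoeff • θ) := isIntegral_leadingCoeff_smul g θ hθ
  obtain ⟨η, hη⟩ : ∃ η : 𝓞 K, (algebraMap (𝓞 K) K) η = g.leadingCoeff • θ := ⟨⟨_, hint⟩, rfl⟩
  have h1 : Polynomial.eval₂ (Int.castRingHom (𝓞 K)) η (Polynomial.scaleRoots g g.leadingCoeff) =
      0 := by
    apply (FaithfulSMul.algebraMap_injective (𝓞 K) K)
    rw [map_zero, Polynomial.hom_eval₂, hη]
    have h2 : (algebraMap (𝓞 K) K).comp (Int.castRingHom (𝓞 K)) = Int.castRingHom K :=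
      RingHom.ext_int _ _
    rw [h2]
    have h3 : g.leadingCoeff • θ = (Int.castRingHom K) g.leadingCoeff * θ := by
      rw [zsmul_eq_mul]
      rfl
    rw [h3, Polynomial.scaleRoots_eval₂_mul]
    have h4 : Polynomial.eval₂ (Int.castRingHom K) θ g = 0 := by
      rw [Polynomial.aeval_def] at hθ
      rw [← hθ]
      congr 1
    rw [h4, mul_zero]
  have h5 := congrArg ψ h1
  rw [map_zero, Polynomial.hom_eval₂,
    show ψ.comp (Int.castRingHom (𝓞 K)) = Int.castRingHom (ZMod p) from RingHom.ext_int _ _] at h5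
  have hane : (Int.castRingHom (ZMod p)) g.leadingCoeff ≠ 0 := by
    intro h
    apply ha
    have h6 : ((g.leadingCoeff : ℤ) : ZMod p) = 0 := h
    exact (ZMod.intCast_zmod_eq_zero_iff_dvd _ _).mp h6
  obtain ⟨x, hx⟩ : ∃ x : ZMod p, ψ η = (Int.castRingHom (ZMod p)) g.leadingCoeff * x :=
    ⟨((Int.castRingHom (ZMod p)) g.leadingCoeff)⁻¹ * ψ η, by
      rw [← mul_assoc, mul_inv_cancel₀ hane, one_mul]⟩
  rw [hx, Polynomial.scaleRoots_eval₂_mul] at h5
  have h7 := (mul_eq_zero.mp h5).resolve_left (pow_ne_zero _ hane)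
  refine ⟨x.val, ?_⟩
  rw [← ZMod.intCast_zmod_eq_zero_iff_dvd]
  have h8 : ((g.eval (x.val : ℤ) : ℤ) : ZMod p) =
      Polynomial.eval₂ (Int.castRingHom (ZMod p)) x g := by
    have h9 := Polynomial.eval₂_at_apply (Int.castRingHom (ZMod p)) (x.val : ℤ) (p := g)
    have h10 : (Int.castRingHom (ZMod p)) (x.val : ℤ) = x := by
      simp
    rw [h10] at h9
    rw [h9]
    rfl
  rw [h8, h7]

private theorem exists_nf_aux (L : Type) [Field L] [iA : Algebra ℚ L] [FiniteDimensional ℚ L]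
    (θ : L) (f : ℚ[X]) (h : Polynomial.eval₂ (algebraMap ℚ L) θ f = 0) :
    ∃ (K : Type) (_ : Field K) (_ : NumberField K) (θ : K) (φ : ℚ →+* K),
      Polynomial.eval₂ φ θ f = 0 := by
  have hcz : CharZero L := charZero_of_injective_algebraMap (algebraMap ℚ L).injective
  have hA : iA = DivisionRing.toRatAlgebra := Subsingleton.elim _ _
  subst hA
  exact ⟨L, inferInstance, { to_charZero := hcz, to_finiteDimensional := inferInstance }, θ,
    algebraMap ℚ L, h⟩

private theorem exists_ext (k : Type) [Field k] (f : k[X]) (hf : 0 < f.natDegree) :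
    ∃ (L : Type) (_ : Field L) (_ : Algebra k L) (_ : FiniteDimensional k L) (θ : L),
      Polynomial.eval₂ (algebraMap k L) θ f = 0 := by
  have hsp := Polynomial.SplittingField.splits f
  obtain ⟨θ, hθ⟩ := hsp.exists_eval_eq_zero (by
    rw [Polynomial.degree_map]
    intro h
    have h2 : f.natDegree = 0 := Polynomial.natDegree_eq_of_degree_eq_some h
    omega)
  rw [Polynomial.eval_map] at hθ
  exact ⟨f.SplittingField, inferInstance, inferInstance, inferInstance, θ, hθ⟩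

private theorem exists_nf (f : ℚ[X]) (hf : 0 < f.natDegree) :
    ∃ (K : Type) (_ : Field K) (_ : NumberField K) (θ : K) (φ : ℚ →+* K),
      Polynomial.eval₂ φ θ f = 0 := by
  obtain ⟨L, iF, iA, iD, θ, hθ⟩ := exists_ext ℚ f hf
  exact exists_nf_aux L θ f hθ

theorem root_primes (g : ℤ[X]) (hg : 0 < g.natDegree) (D : ℕ) (B : ℝ) :
    ∃ T : Finset ℕ, (∀ p ∈ T, p.Prime ∧ D < p ∧ ∃ a : ℕ, (p : ℤ) ∣ g.eval (a : ℤ)) ∧
      B ≤ ∑ p ∈ T, 1 / (p : ℝ) := by
  classical
  have hg0 : g ≠ 0 := by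
    rintro rfl
    simp at hg
  have hfd : (g.map (Int.castRingHom ℚ)).natDegree = g.natDegree :=
    Polynomial.natDegree_map_eq_of_injective (RingHom.injective_int _) g
  obtain ⟨K, iK, iN, θ, φ, hθ⟩ := exists_nf (g.map (Int.castRingHom ℚ)) (by rw [hfd]; exact hg)
  have hθ' : Polynomial.aeval θ g = 0 := by
    rw [Polynomial.eval₂_map] at hθ
    rw [Polynomial.aeval_def, ← hθ]
    congr 1
    exact RingHom.ext_int _ _
  obtain ⟨T, hT, hB⟩ := deg_one K (max D g.leadingCoeff.natAbs) B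
  refine ⟨T, fun p hp => ?_, hB⟩
  obtain ⟨hpp, hD, P, hP, hP0, hN⟩ := hT p hp
  refine ⟨hpp, lt_of_le_of_lt (le_max_left _ _) hD, ?_⟩
  have hcard : Nat.card (𝓞 K ⧸ P) = p := hN
  have hfin : Finite (𝓞 K ⧸ P) := by
    apply Nat.finite_of_card_ne_zero
    rw [hcard]
    exact hpp.ne_zero
  let _ := Fintype.ofFinite (𝓞 K ⧸ P)
  rw [Nat.card_eq_fintype_card] at hcard
  refine root_of_hom g K θ hθ' p hpp
    ((ZMod.ringEquivOfPrime (𝓞 K ⧸ P) hpp hcard).symm.toRingHom.comp (Ideal.Quotient.mk P)) ?_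
  intro hdiv
  have h1 : p ∣ g.leadingCoeff.natAbs := Int.natCast_dvd.mp hdiv
  have h2 : 0 < g.leadingCoeff.natAbs :=
    Int.natAbs_pos.mpr (Polynomial.leadingCoeff_ne_zero.mpr hg0)
  have h3 := Nat.le_of_dvd h2 h1
  have h4 := le_max_right D g.leadingCoeff.natAbs
  omega

end TightIndep
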