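import Pool.Agent.Lib.MP_f31b39_co.AS.Defs

/-!
# AS-Sieve: numbers avoiding one class modulo each prime of a finite set

Let `M = ∏_{p ∈ T} p`.  The set `{N : ∀ p ∈ T, ¬ N ≡ a p [MOD p]}` is periodic modulo `M`, and has
exactly `∏ (p - 1)` elements in `[0, M)` (Chinese remainder theorem; induction on `T`, or
`ZMod.prodEquivPi`/`Nat.chineseRemainder`; an upper bound suffices: the map
`N ↦ (N mod p)_p` from `[0, M)` to the product of the sets `[0, p) \ {a p mod p}` is injective).  So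
`#{N < X : ...} ≤ (X / M + 1) * ∏ (p - 1)` (`X / M + 1` blocks of length `M`;
`Nat.count`, `Nat.filter_..periodic`), which is `≤ X ∏ (1 - 1/p) + M`.
-/

namespace TightIndep

open Finset

/-- congruent modulo all primes of `T` and in the same block of length `∏ p` implies equal -/
private lemma sieve_inj (T : Finset ℕ) (hT : ∀ p ∈ T, p.Prime) {N N' : ℕ} (hle : N' ≤ N)
    (h1 : N / ∏ p ∈ T, p = N' / ∏ p ∈ T, p) (h2 : ∀ p ∈ T, N % p = N' % p) : N = N' := by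
  have hM0 : 0 < ∏ p ∈ T, p := prod_pos fun p hp => (hT p hp).pos
  have hd : (∏ p ∈ T, p) ∣ N - N' := by
    refine prod_primes_dvd _ (fun p hp => (hT p hp).prime) fun p hp => ?_
    exact (Nat.modEq_iff_dvd' hle).1 (h2 p hp).symm
  have e1 := Nat.div_add_mod N (∏ p ∈ T, p)
  have e2 := Nat.div_add_mod N' (∏ p ∈ T, p)
  have l1 := Nat.mod_lt N hM0
  rw [h1] at e1
  have hlt : N - N' < ∏ p ∈ T, p := by omega
  have := Nat.eq_zero_of_dvd_of_lt hd hlt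
  omega

open Classical in
private lemma sieve_nat (T : Finset ℕ) (hT : ∀ p ∈ T, p.Prime) (a : ℕ → ℕ) (X : ℕ) :
    ((range X).filter fun N => ∀ p ∈ T, ¬ N ≡ a p [MOD p]).card ≤
      (X / (∏ p ∈ T, p) + 1) * ∏ p ∈ T, (p - 1) := by
  have hcard : ((range (X / (∏ p ∈ T, p) + 1)) ×ˢ
      (T.pi fun p => (range p).erase (a p % p))).card =
      (X / (∏ p ∈ T, p) + 1) * ∏ p ∈ T, (p - 1) := by
    rw [card_product, card_range, card_pi]
    congr 1
    refine prod_congr rfl fun p hp => ?_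
    rw [card_erase_of_mem (mem_range.2 (Nat.mod_lt _ (hT p hp).pos)), card_range]
  rw [← hcard]
  refine card_le_card_of_injOn (fun N => (N / ∏ p ∈ T, p, fun p _ => N % p)) ?_ ?_
  · intro N hN
    rw [mem_coe, mem_filter, mem_range] at hN
    rw [mem_coe, mem_product, mem_range, mem_pi]
    refine ⟨Nat.lt_succ_of_le (Nat.div_le_div_right hN.1.le), fun p hp => ?_⟩
    rw [mem_erase, mem_range]
    exact ⟨hN.2 p hp, Nat.mod_lt _ (hT p hp).pos⟩
  · intro N _ N' _ h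
    rw [Prod.mk.injEq] at h
    have h2 : ∀ p ∈ T, N % p = N' % p := fun p hp => congrFun (congrFun h.2 p) hp
    rcases le_total N' N with hle | hle
    · exact sieve_inj T hT hle h.1 h2
    · exact (sieve_inj T hT hle h.1.symm fun p hp => (h2 p hp).symm).symm

open Classical in
theorem sieve (T : Finset ℕ) (hT : ∀ p ∈ T, p.Prime) (a : ℕ → ℕ) (X : ℕ) :
    (((range X).filter fun N => ∀ p ∈ T, ¬ N ≡ a p [MOD p]).card : ℝ) ≤
      X * ∏ p ∈ T, (1 - 1 / (p : ℝ)) + ∏ p ∈ T, (p : ℝ) := by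
  have h := sieve_nat T hT a X
  have hM0 : (0 : ℝ) < ∏ p ∈ T, (p : ℝ) := prod_pos fun p hp => by exact_mod_cast (hT p hp).pos
  have hR : (((range X).filter fun N => ∀ p ∈ T, ¬ N ≡ a p [MOD p]).card : ℝ) ≤
      (((X / (∏ p ∈ T, p) + 1) * ∏ p ∈ T, (p - 1) : ℕ) : ℝ) := by exact_mod_cast h
  refine hR.trans ?_
  have e : ((∏ p ∈ T, (p - 1) : ℕ) : ℝ) = (∏ p ∈ T, (1 - 1 / (p : ℝ))) * ∏ p ∈ T, (p : ℝ) := by
    rw [Nat.cast_prod, ← prod_mul_distrib]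
    refine prod_congr rfl fun p hp => ?_
    have hp0 : (p : ℝ) ≠ 0 := by exact_mod_cast (hT p hp).ne_zero
    rw [Nat.cast_sub (hT p hp).one_le, Nat.cast_one, sub_mul, one_mul,
      one_div_mul_cancel hp0]
  have hle1 : (∏ p ∈ T, (1 - 1 / (p : ℝ))) ≤ 1 := by
    refine prod_le_one (fun p hp => ?_) fun p hp => ?_
    · have hp1 : (1 : ℝ) ≤ p := by exact_mod_cast (hT p hp).one_le
      have : 1 / (p : ℝ) ≤ 1 := by rw [div_le_one (by linarith)]; exact hp1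
      linarith
    · have : 0 ≤ 1 / (p : ℝ) := by positivity
      linarith
  have h0 : 0 ≤ ∏ p ∈ T, (1 - 1 / (p : ℝ)) := by
    refine prod_nonneg fun p hp => ?_
    have hp1 : (1 : ℝ) ≤ p := by exact_mod_cast (hT p hp).one_le
    have : 1 / (p : ℝ) ≤ 1 := by rw [div_le_one (by linarith)]; exact hp1
    linarith
  have hdiv : ((X / (∏ p ∈ T, p) : ℕ) : ℝ) * ∏ p ∈ T, (p : ℝ) ≤ X := by
    have : (X / (∏ p ∈ T, p)) * (∏ p ∈ T, p) ≤ X := Nat.div_mul_le_self _ _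
    calc ((X / (∏ p ∈ T, p) : ℕ) : ℝ) * ∏ p ∈ T, (p : ℝ)
        = (((X / (∏ p ∈ T, p)) * (∏ p ∈ T, p) : ℕ) : ℝ) := by push_cast; rfl
      _ ≤ X := by exact_mod_cast this
  rw [Nat.cast_mul, e, Nat.cast_add, Nat.cast_one]
  calc (((X / (∏ p ∈ T, p) : ℕ) : ℝ) + 1) *
        ((∏ p ∈ T, (1 - 1 / (p : ℝ))) * ∏ p ∈ T, (p : ℝ))
      = (((X / (∏ p ∈ T, p) : ℕ) : ℝ) * ∏ p ∈ T, (p : ℝ)) * (∏ p ∈ T, (1 - 1 / (p : ℝ))) +
        (∏ p ∈ T, (1 - 1 / (p : ℝ))) * ∏ p ∈ T, (p : ℝ) := by ring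
    _ ≤ X * (∏ p ∈ T, (1 - 1 / (p : ℝ))) + 1 * ∏ p ∈ T, (p : ℝ) :=
        add_le_add (mul_le_mul_of_nonneg_right hdiv h0)
          (mul_le_mul_of_nonneg_right hle1 hM0.le)
    _ = X * (∏ p ∈ T, (1 - 1 / (p : ℝ))) + ∏ p ∈ T, (p : ℝ) := by rw [one_mul]

theorem prod_le_exp (T : Finset ℕ) (hT : ∀ p ∈ T, p.Prime) :
    ∏ p ∈ T, (1 - 1 / (p : ℝ)) ≤ Real.exp (-∑ p ∈ T, 1 / (p : ℝ)) := by
  rw [← sum_neg_distrib, Real.exp_sum]
  refine prod_le_prod (fun p hp => ?_) fun p _ => ?_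
  · have hp1 : (1 : ℝ) ≤ p := by exact_mod_cast (hT p hp).one_le
    have : 1 / (p : ℝ) ≤ 1 := by rw [div_le_one (by linarith)]; exact hp1
    linarith
  · have := Real.add_one_le_exp (-(1 / (p : ℝ)))
    linarith

end TightIndep
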