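import Pool.Agent.Lib.MP_f31b39_co.AS.Char
import Pool.Agent.Lib.MP_f31b39_co.AS.Count
import Pool.Agent.Lib.MP_f31b39_co.AS.Bdiv
import Pool.Agent.Lib.MP_f31b39_co.AS.RootP
import Pool.Agent.Lib.MP_f31b39_co.AS.Sieve

/-!
# Tight `t`-independent sets: the density theorem
-/

namespace TightIndep

open Finset Filter Polynomial

/-- there is a tight `t`-independent set of size `m` in some finite abelian group -/
def HasTight (t m : ℕ) : Prop :=
  ∃ (G : Type) (_ : AddCommGroup G) (_ : Fintype G) (A : Finset G), A.card = m ∧ Tight t A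

open Classical in
theorem count_tight (t : ℕ) (ht : 4 ≤ t) (B : ℝ) : ∃ C : ℝ, 0 ≤ C ∧ ∀ X : ℕ,
    (((range X).filter fun m => HasTight t m).card : ℝ) ≤ X * Real.exp (-B) + C * (√X + 1) := by
  obtain ⟨g, hg, D, hD⟩ := bound_div t ht
  obtain ⟨T, hT, hB⟩ := root_primes g hg (D + t) B
  have hex : ∀ p : ℕ, ∃ a : ℕ, p ∈ T → (p : ℤ) ∣ g.eval (a : ℤ) := by
    intro p
    by_cases hp : p ∈ T
    · obtain ⟨-, -, a, ha⟩ := hT p hp
      exact ⟨a, fun _ => ha⟩
    · exact ⟨0, fun h => absurd h hp⟩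
  choose a ha using hex
  have hcb : ∀ p : ℕ, ∃ C : ℝ, 0 ≤ C ∧ (p ∈ T → ∀ (h : Fact p.Prime) (X : ℕ),
      (((range X).filter fun N => Bad p (t / 2) (1 + t % 2) N).card : ℝ) ≤ C * (√X + 1)) := by
    intro p
    by_cases hp : p ∈ T
    · haveI : Fact p.Prime := ⟨(hT p hp).1⟩
      have h1 := (hT p hp).2.1
      obtain ⟨C, hC, h2⟩ := count_bad p (t / 2) (1 + t % 2) (by omega) (by omega)
      exact ⟨C, hC, fun _ _ X => h2 X⟩
    · exact ⟨0, le_rfl, fun h => absurd h hp⟩
  choose C hC hC2 using hcb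
  have hpr : ∀ p ∈ T, (p : ℕ).Prime := fun p hp => (hT p hp).1
  have hP0 : 0 ≤ ∏ p ∈ T, (p : ℝ) := Finset.prod_nonneg fun p _ => Nat.cast_nonneg p
  refine ⟨1 + ∏ p ∈ T, (p : ℝ) + ∑ p ∈ T, C p, by
    have := Finset.sum_nonneg fun p (_ : p ∈ T) => hC p
    linarith, fun X => ?_⟩
  -- the inclusion
  have hsub : (range X).filter (fun m => HasTight t m) ⊆
      insert 0 ((((range X).filter fun N => ∀ p ∈ T, ¬ N ≡ a p [MOD p]).image fun N => N + t % 2) ∪
        (T.attach.biUnion fun p => ((range X).filter fun N =>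
          haveI : Fact (p : ℕ).Prime := ⟨hpr p p.2⟩; Bad p (t / 2) (1 + t % 2) N).image
            fun N => N + t % 2)) := by
    intro m hm
    rw [mem_filter, mem_range] at hm
    obtain ⟨hmX, G, i1, i2, A, hA, hAt⟩ := hm
    rcases Nat.eq_zero_or_pos m with h0 | h0
    · rw [h0]
      exact mem_insert_self _ _
    apply mem_insert_of_mem
    rw [mem_union]
    by_cases hav : ∀ p ∈ T, ¬ (m - t % 2) ≡ a p [MOD p]
    · left
      rw [mem_image]
      refine ⟨m - t % 2, ?_, by omega⟩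
      rw [mem_filter, mem_range]
      exact ⟨by omega, hav⟩
    · right
      push Not at hav
      obtain ⟨p, hp, hmod⟩ := hav
      rw [mem_biUnion]
      refine ⟨⟨p, hp⟩, mem_attach _ _, ?_⟩
      rw [mem_image]
      refine ⟨m - t % 2, ?_, by omega⟩
      rw [mem_filter, mem_range]
      refine ⟨by omega, ?_⟩
      haveI : Fact p.Prime := ⟨hpr p hp⟩
      obtain ⟨h1, h2, -⟩ := hT p hp
      have h3 : (p : ℤ) ∣ g.eval ((m - t % 2 : ℕ) : ℤ) := by
        have h4 : ((m - t % 2 : ℕ) : ℤ) ≡ (a p : ℤ) [ZMOD p] := (Int.natCast_modEq_iff).2 hmod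
        have h5 : (p : ℤ) ∣ ((m - t % 2 : ℕ) : ℤ) - (a p : ℤ) := h4.symm.dvd
        have h6 := h5.trans (Polynomial.sub_dvd_eval_sub ((m - t % 2 : ℕ) : ℤ) (a p : ℤ) g)
        have h7 := dvd_add h6 (ha p hp)
        rwa [sub_add_cancel] at h7
      obtain ⟨h4, h5⟩ := hD p h1 (by omega) (m - t % 2) h3
      rw [Nat.sub_add_cancel (by omega)] at h4
      refine ⟨h5, ?_⟩
      subst hA
      exact sol_of_tight t (by omega) A h0 hAt p (by omega) h4
  have h1 := Finset.card_le_card hsub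
  have h2 : (((range X).filter fun m => HasTight t m).card : ℝ) ≤
      1 + (((range X).filter fun N => ∀ p ∈ T, ¬ N ≡ a p [MOD p]).card : ℝ) +
        ∑ p ∈ T, C p * (√X + 1) := by
    have h3 := h1.trans (Finset.card_insert_le _ _)
    have h4 := h3.trans (Nat.add_le_add_right (Finset.card_union_le _ _) 1)
    have h5 := h4.trans (Nat.add_le_add_right (Nat.add_le_add card_image_le card_biUnion_le) 1)
    have h6 : ((∑ p ∈ T.attach, (((range X).filter fun N =>
          haveI : Fact (p : ℕ).Prime := ⟨hpr p p.2⟩; Bad p (t / 2) (1 + t % 2) N).image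
            fun N => N + t % 2).card : ℕ) : ℝ) ≤ ∑ p ∈ T, C p * (√X + 1) := by
      rw [← Finset.sum_attach T fun p => C p * (√X + 1)]
      push_cast
      refine Finset.sum_le_sum fun p _ => ?_
      refine le_trans ?_ (hC2 p p.2 ⟨hpr p p.2⟩ X)
      exact_mod_cast card_image_le
    have h7 : (((range X).filter fun m => HasTight t m).card : ℝ) ≤
      (((range X).filter fun N => ∀ p ∈ T, ¬ N ≡ a p [MOD p]).card : ℝ) +
        ((∑ p ∈ T.attach, (((range X).filter fun N =>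
          haveI : Fact (p : ℕ).Prime := ⟨hpr p p.2⟩; Bad p (t / 2) (1 + t % 2) N).image
            fun N => N + t % 2).card : ℕ) : ℝ) + 1 := by exact_mod_cast h5
    linarith
  have h3 := sieve T hpr a X
  have h4 := prod_le_exp T hpr
  have h5 : Real.exp (-∑ p ∈ T, 1 / (p : ℝ)) ≤ Real.exp (-B) :=
    Real.exp_le_exp.2 (neg_le_neg hB)
  have hX : (0 : ℝ) ≤ X := Nat.cast_nonneg X
  have h6 : (X : ℝ) * ∏ p ∈ T, (1 - 1 / (p : ℝ)) ≤ X * Real.exp (-B) :=
    mul_le_mul_of_nonneg_left (h4.trans h5) hX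
  have hs : 0 ≤ √(X : ℝ) := Real.sqrt_nonneg _
  rw [← Finset.sum_mul] at h2
  nlinarith [mul_nonneg hP0 hs]

open Classical in
theorem density (t : ℕ) (ht : 4 ≤ t) :
    Tendsto (fun X : ℕ => (((range X).filter fun m => HasTight t m).card : ℝ) / X) atTop
      (nhds 0) := by
  rw [Metric.tendsto_atTop]
  intro ε hε
  obtain ⟨C, hC, h⟩ := count_tight t ht (-Real.log (ε / 2))
  rw [neg_neg, Real.exp_log (by positivity)] at h
  -- `C (√X + 1) < (ε / 2) X` for large `X`
  obtain ⟨X₀, hX₀⟩ := exists_nat_gt ((4 * C / ε + 1) ^ 2)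
  refine ⟨X₀ + 1, fun X hX => ?_⟩
  have hXr : (4 * C / ε + 1) ^ 2 < (X : ℝ) := by
    have : (X₀ : ℝ) ≤ X := by exact_mod_cast (by omega : X₀ ≤ X)
    linarith
  have hX1 : (0 : ℝ) < X := lt_of_le_of_lt (by positivity) hXr
  have hK : 0 ≤ 4 * C / ε := by positivity
  have hs : 4 * C / ε + 1 < √(X : ℝ) := by
    rw [Real.lt_sqrt (by positivity)]
    exact hXr
  have hsq : √(X : ℝ) ^ 2 = X := Real.sq_sqrt hX1.le
  rw [Real.dist_eq, sub_zero, abs_of_nonneg (by positivity), div_lt_iff₀ hX1]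
  refine (h X).trans_lt ?_
  have h1 : C * (√(X : ℝ) + 1) < ε / 2 * X := by
    have h2 : C = ε / 4 * (4 * C / ε) := by field_simp
    have h3 : C ≤ ε / 4 * (√(X : ℝ) - 1) := by
      rw [h2]
      exact mul_le_mul_of_nonneg_left (by linarith) (by positivity)
    have h4 : 1 < √(X : ℝ) := by linarith
    calc C * (√(X : ℝ) + 1) ≤ ε / 4 * (√(X : ℝ) - 1) * (√(X : ℝ) + 1) :=
          mul_le_mul_of_nonneg_right h3 (by linarith)
      _ = ε / 4 * (√(X : ℝ) ^ 2 - 1) := by ring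
      _ < ε / 2 * X := by
          rw [hsq]
          nlinarith
  linarith

end TightIndep
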