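import Pool.Agent.Lib.MP_f31b39_co.AS.Defs

/-!
# AS-Root: the roots of `G_r` are simple

`GG r` has degree `r` and leading coefficient `1 / r!`; `(GG (k+1)).derivative = GG k` (induction with
the recursion: `(k+2) G_{k+2} = X G_{k+1} - 2 G_k`, derivative `G_{k+1} + X G_k - 2 G_{k-1} =
G_{k+1} + (k+1) G_{k+1}`).  A common root of `G_{k+1}` and `G_k` is a root of `G_{k-1}`, ..., of
`G_0 = 1`: contradiction.  So the roots are distinct (`Polynomial.nodup_roots`,
`Polynomial.Separable`, or `rootMultiplicity`), and over `ℂ`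
`GG r = C a * ∏_{ρ ∈ R} (X - C ρ)`, `R = (GG r).roots.toFinset`, `a = 1 / r! ≠ 0`.
Generally, for a nonempty finite set `R` of complex numbers there is `C` with
`∀ x, ∃ ρ ∈ R, ‖x - ρ‖ ≤ C * ∏_{σ ∈ R} ‖x - σ‖`: take `ρ` nearest to `x`; for `σ ≠ ρ` in `R`,
`δ ≤ ‖ρ - σ‖ ≤ 2 ‖x - σ‖`, where `0 < δ ≤ 1` is a lower bound of the distances of two different
points of `R`; `C = (2 / δ) ^ (#R - 1)`.
-/

namespace TightIndep

open Finset

private theorem GG_two (k : ℕ) : GG (k + 2) =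
    Polynomial.C (1 / ((k : ℂ) + 2)) * (Polynomial.X * GG (k + 1) - 2 * GG k) := by
  rw [GG]

private theorem k2_ne (k : ℕ) : (k : ℂ) + 2 ≠ 0 := by
  have : ((k + 2 : ℕ) : ℂ) ≠ 0 := Nat.cast_ne_zero.mpr (by omega)
  push_cast at this
  exact this

private theorem GG_two' (k : ℕ) : Polynomial.C ((k : ℂ) + 2) * GG (k + 2) =
    Polynomial.X * GG (k + 1) - 2 * GG k := by
  rw [GG_two, ← mul_assoc, ← Polynomial.C_mul, mul_one_div_cancel (k2_ne k), Polynomial.C_1,
    one_mul]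

private theorem GG_deg : ∀ k : ℕ, (GG k).natDegree ≤ k ∧ (GG k).coeff k = 1 / (k.factorial : ℂ)
  | 0 => by
    have h : GG 0 = 1 := by rw [GG]
    rw [h]
    simp
  | 1 => by
    have h : GG 1 = Polynomial.X := by rw [GG]
    rw [h]
    simp
  | k + 2 => by
    obtain ⟨h1, h2⟩ := GG_deg k
    obtain ⟨h3, h4⟩ := GG_deg (k + 1)
    constructor
    · rw [GG_two]
      refine (Polynomial.natDegree_C_mul_le _ _).trans ?_
      refine (Polynomial.natDegree_sub_le _ _).trans ?_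
      refine max_le ?_ ?_
      · refine (Polynomial.natDegree_mul_le).trans ?_
        rw [Polynomial.natDegree_X]
        omega
      · refine (Polynomial.natDegree_mul_le).trans ?_
        have : (2 : Polynomial ℂ).natDegree = 0 := by
          exact Polynomial.natDegree_ofNat 2
        omega
    · rw [GG_two, Polynomial.coeff_C_mul, Polynomial.coeff_sub, Polynomial.coeff_X_mul, h4]
      have h5 : (2 * GG k).coeff (k + 2) = 0 := by
        apply Polynomial.coeff_eq_zero_of_natDegree_lt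
        refine lt_of_le_of_lt (Polynomial.natDegree_mul_le) ?_
        have : (2 : Polynomial ℂ).natDegree = 0 := by
          exact Polynomial.natDegree_ofNat 2
        omega
      rw [h5, sub_zero, Nat.factorial_succ (k + 1)]
      push_cast
      have := k2_ne k
      have h6 : ((k + 1).factorial : ℂ) ≠ 0 := Nat.cast_ne_zero.mpr (Nat.factorial_ne_zero _)
      rw [show (k : ℂ) + 1 + 1 = k + 2 by ring, one_div_mul_one_div]

private theorem GG_der : ∀ k : ℕ, (GG (k + 1)).derivative = GG k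
  | 0 => by
    have h : GG 1 = Polynomial.X := by rw [GG]
    have h0 : GG 0 = 1 := by rw [GG]
    rw [h, h0, Polynomial.derivative_X]
  | 1 => by
    have h : GG 1 = Polynomial.X := by rw [GG]
    have h0 : GG 0 = 1 := by rw [GG]
    rw [GG_two 0, h, h0]
    simp only [Polynomial.derivative_sub, Polynomial.derivative_mul,
      Polynomial.derivative_X, mul_one, one_mul]
    rw [show Polynomial.derivative (2 : Polynomial ℂ) = 0 from Polynomial.derivative_ofNat 2,
      sub_zero, ← two_mul, ← mul_assoc, show (2 : Polynomial ℂ) = Polynomial.C 2 from rfl,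
      ← Polynomial.C_mul]
    norm_num
  | k + 2 => by
    have h1 := GG_der k
    have h2 := GG_der (k + 1)
    have h3 := GG_two' (k + 1)
    have h4 := GG_two' k
    have h5 := congrArg Polynomial.derivative h3
    rw [Polynomial.derivative_C_mul, Polynomial.derivative_sub, Polynomial.derivative_mul,
      Polynomial.derivative_X, Polynomial.derivative_mul,
      show Polynomial.derivative (2 : Polynomial ℂ) = 0 from Polynomial.derivative_ofNat 2,
      h2, h1, one_mul, zero_mul, zero_add, add_sub_assoc, ← h4] at h5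
    have h6 : Polynomial.C (((k + 1 : ℕ) : ℂ) + 2) =
        1 + Polynomial.C ((k : ℂ) + 2) := by
      rw [← Polynomial.C_1, ← Polynomial.C_add]
      congr 1
      push_cast
      ring
    have h7 : Polynomial.C (((k + 1 : ℕ) : ℂ) + 2) ≠ 0 := by
      rw [Ne, Polynomial.C_eq_zero]
      exact k2_ne (k + 1)
    apply mul_left_cancel₀ h7
    rw [h5, h6]
    ring

private theorem GG_no_common (x : ℂ) : ∀ k : ℕ, (GG (k + 1)).eval x = 0 → (GG k).eval x = 0 → False
  | 0, _, h => by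
    have h0 : GG 0 = 1 := by rw [GG]
    rw [h0] at h
    simp at h
  | k + 1, h1, h2 => by
    have h3 := congrArg (Polynomial.eval x) (GG_two' k)
    simp only [Polynomial.eval_mul, Polynomial.eval_sub, Polynomial.eval_C, Polynomial.eval_X] at h3
    rw [h1, h2, mul_zero, mul_zero, zero_sub, eq_comm, neg_eq_zero] at h3
    rcases mul_eq_zero.mp h3 with h4 | h4
    · simp at h4
    · exact GG_no_common x k h2 h4

private theorem near_prod (R : Finset ℂ) (hR : R.Nonempty) : ∃ C : ℝ, 0 ≤ C ∧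
    ∀ x : ℂ, ∃ ρ ∈ R, ‖x - ρ‖ ≤ C * ∏ σ ∈ R, ‖x - σ‖ := by
  refine ⟨∑ ρ ∈ R, ∏ σ ∈ R.erase ρ, (2 / ‖ρ - σ‖), ?_, ?_⟩
  · apply Finset.sum_nonneg
    intro ρ _
    apply Finset.prod_nonneg
    intro σ _
    positivity
  · intro x
    obtain ⟨ρ, hρ, hmin⟩ := Finset.exists_min_image R (fun ρ => ‖x - ρ‖) hR
    refine ⟨ρ, hρ, ?_⟩
    have h1 : 1 ≤ (∏ σ ∈ R.erase ρ, (2 / ‖ρ - σ‖)) * ∏ σ ∈ R.erase ρ, ‖x - σ‖ := by
      rw [← Finset.prod_mul_distrib]
      have : ∀ σ ∈ R.erase ρ, (1 : ℝ) ≤ 2 / ‖ρ - σ‖ * ‖x - σ‖ := by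
        intro σ hσ
        rw [Finset.mem_erase] at hσ
        have hpos : 0 < ‖ρ - σ‖ := norm_pos_iff.mpr (sub_ne_zero.mpr (Ne.symm hσ.1))
        have h2 : ‖ρ - σ‖ ≤ ‖x - ρ‖ + ‖x - σ‖ := by
          have h3 : ρ - σ = (x - σ) - (x - ρ) := by ring
          rw [h3]
          have := norm_sub_le (x - σ) (x - ρ)
          linarith
        have h4 := hmin σ hσ.2
        rw [div_mul_eq_mul_div, le_div_iff₀ hpos]
        linarith
      calc (1 : ℝ) = ∏ σ ∈ R.erase ρ, (1 : ℝ) := by rw [Finset.prod_const_one]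
        _ ≤ _ := Finset.prod_le_prod (fun _ _ => zero_le_one) this
    have h5 : ∏ σ ∈ R, ‖x - σ‖ = ‖x - ρ‖ * ∏ σ ∈ R.erase ρ, ‖x - σ‖ :=
      (Finset.mul_prod_erase R (fun σ => ‖x - σ‖) hρ).symm
    have h6 : (∏ σ ∈ R.erase ρ, (2 / ‖ρ - σ‖)) ≤ ∑ ρ ∈ R, ∏ σ ∈ R.erase ρ, (2 / ‖ρ - σ‖) := by
      apply Finset.single_le_sum (f := fun ρ => ∏ σ ∈ R.erase ρ, (2 / ‖ρ - σ‖)) _ hρ
      intro ρ _
      apply Finset.prod_nonneg
      intro σ _
      positivity
    have h7 : 0 ≤ ∏ σ ∈ R, ‖x - σ‖ := Finset.prod_nonneg fun σ _ => norm_nonneg _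
    calc ‖x - ρ‖ = ‖x - ρ‖ * 1 := (mul_one _).symm
      _ ≤ ‖x - ρ‖ * ((∏ σ ∈ R.erase ρ, (2 / ‖ρ - σ‖)) * ∏ σ ∈ R.erase ρ, ‖x - σ‖) :=
        mul_le_mul_of_nonneg_left h1 (norm_nonneg _)
      _ = (∏ σ ∈ R.erase ρ, (2 / ‖ρ - σ‖)) * ∏ σ ∈ R, ‖x - σ‖ := by rw [h5]; ring
      _ ≤ _ := mul_le_mul_of_nonneg_right h6 h7

theorem GG_root (r : ℕ) (hr : 1 ≤ r) : ∃ (R : Finset ℂ) (C : ℝ), 0 ≤ C ∧
    ∀ x : ℂ, ∃ ρ ∈ R, ‖x - ρ‖ ≤ C * ‖(GG r).eval x‖ := by
  classical
  obtain ⟨k, rfl⟩ : ∃ k, r = k + 1 := ⟨r - 1, by omega⟩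
  obtain ⟨hd, hc⟩ := GG_deg (k + 1)
  have hc0 : (GG (k + 1)).coeff (k + 1) ≠ 0 := by
    rw [hc]
    exact one_div_ne_zero (Nat.cast_ne_zero.mpr (Nat.factorial_ne_zero _))
  have hdeg : (GG (k + 1)).natDegree = k + 1 :=
    le_antisymm hd (Polynomial.le_natDegree_of_ne_zero hc0)
  have hne : GG (k + 1) ≠ 0 := by
    intro h
    rw [h] at hc0
    simp at hc0
  have hnd : (GG (k + 1)).roots.Nodup := by
    rw [Multiset.nodup_iff_count_le_one]
    intro a
    rw [Polynomial.count_roots]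
    by_contra hcon
    have h1 : 1 < (GG (k + 1)).rootMultiplicity a := by omega
    rw [Polynomial.one_lt_rootMultiplicity_iff_isRoot hne] at h1
    rw [GG_der] at h1
    exact GG_no_common a k h1.1 h1.2
  have hsp := IsAlgClosed.splits (GG (k + 1))
  have hcard : (GG (k + 1)).roots.card = k + 1 := by
    exact hsp.natDegree_eq_card_roots.symm.trans hdeg
  have hev : ∀ x : ℂ, (GG (k + 1)).eval x =
      (GG (k + 1)).leadingCoeff * ∏ σ ∈ (GG (k + 1)).roots.toFinset, (x - σ) := by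
    intro x
    have h1 := hsp.eval_eq_prod_roots x
    rw [h1]
    congr 1
    rw [Finset.prod]
    rw [Multiset.toFinset_val, Multiset.dedup_eq_self.mpr hnd]
  have hRne : (GG (k + 1)).roots.toFinset.Nonempty := by
    rw [Multiset.toFinset_nonempty]
    intro h
    rw [h] at hcard
    simp at hcard
  obtain ⟨C, hC0, hC⟩ := near_prod _ hRne
  have hl : 0 < ‖(GG (k + 1)).leadingCoeff‖ := by
    rw [norm_pos_iff]
    exact Polynomial.leadingCoeff_ne_zero.mpr hne
  refine ⟨(GG (k + 1)).roots.toFinset, C / ‖(GG (k + 1)).leadingCoeff‖, by positivity, ?_⟩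
  intro x
  obtain ⟨ρ, hρ, h⟩ := hC x
  refine ⟨ρ, hρ, h.trans (le_of_eq ?_)⟩
  rw [hev x, norm_mul, norm_prod]
  field_simp

end TightIndep
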