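import Pool.Agent.Lib.MP_f31b39_co.AS.Size
import Pool.Agent.Lib.MP_f31b39_co.AS.Approx
import Pool.Agent.Lib.MP_f31b39_co.AS.Root

/-!
# AS-Near: the values are near to the multiples of `√N` by roots of `G_r`

Let `j₀ ≠ 0` with `‖U j₀‖` maximal among `j ≠ 0` (finite, `exists_max_image`).  `cc_size` for
`i ↦ U (i * j₀)` (for `1 ≤ i ≤ r < p` is `(i : ZMod p) * j₀ ≠ 0`) gives `‖U j‖ ≤ K √N` for all
`j ≠ 0`.  Then for every `j ≠ 0`, `cc_approx` with `q = √N` (`q ^ 2 = N`), `cc = 0`, gives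
`q * q ^ r * ‖(GG r).eval (U j / q)‖ ≤ C q ^ r`, so `‖(GG r).eval (U j / q)‖ ≤ C / q`; `GG_root`
gives `ρ ∈ R` with `‖U j / q - ρ‖ ≤ C' C / q`; multiply by `q`.
-/

namespace TightIndep

open Finset

theorem near (r : ℕ) (hr : 1 ≤ r) : ∃ (R : Finset ℂ) (C : ℝ), 0 ≤ C ∧
    ∀ (p : ℕ) [Fact p.Prime], r < p → ∀ N : ℕ, 1 ≤ N → ∀ U : ZMod p → ℂ,
      (∀ j : ZMod p, j ≠ 0 → cc (pw N fun i => U (i * j)) r = 0) →
      ∀ j : ZMod p, j ≠ 0 → ∃ ρ ∈ R, ‖U j - ρ * (√(N : ℝ) : ℝ)‖ ≤ C := by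
  obtain ⟨K, hK1, hsize⟩ := cc_size r hr
  obtain ⟨C1, hC1, happ⟩ := cc_approx r K (by linarith)
  obtain ⟨R, C2, hC2, hroot⟩ := GG_root r hr
  refine ⟨R, C2 * C1, mul_nonneg hC2 hC1, ?_⟩
  intro p _ hrp N hN U hU
  have hp : p.Prime := Fact.out
  have hNR : (1 : ℝ) ≤ (N : ℝ) := by exact_mod_cast hN
  have hq1 : 1 ≤ √(N : ℝ) := by
    rw [show (1 : ℝ) = √1 by simp]
    exact Real.sqrt_le_sqrt hNR
  have hq0 : 0 < √(N : ℝ) := by linarith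
  have hq2 : √(N : ℝ) ^ 2 = (N : ℝ) := Real.sq_sqrt (by linarith)
  have hine : ∀ i : ℕ, 1 ≤ i → i ≤ r → ((i : ℕ) : ZMod p) ≠ 0 := by
    intro i h1 h2 h0
    rw [ZMod.natCast_eq_zero_iff] at h0
    exact absurd (Nat.le_of_dvd (by omega) h0) (by omega)
  have hne : (univ.filter fun j : ZMod p => j ≠ 0).Nonempty := by
    refine ⟨((1 : ℕ) : ZMod p), ?_⟩
    rw [mem_filter]
    exact ⟨mem_univ _, hine 1 le_rfl hr⟩
  obtain ⟨j₀, hj₀, hmax⟩ := exists_max_image (univ.filter fun j : ZMod p => j ≠ 0)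
    (fun j => ‖U j‖) hne
  rw [mem_filter] at hj₀
  have hmax' : ∀ j : ZMod p, j ≠ 0 → ‖U j‖ ≤ ‖U j₀‖ := by
    intro j hj
    exact hmax j (by rw [mem_filter]; exact ⟨mem_univ _, hj⟩)
  have hcast : (((N : ℝ)) : ℂ) = (N : ℂ) := by push_cast; rfl
  have hbig : ‖U j₀‖ ≤ K * √(N : ℝ) := by
    have h := hsize (N : ℝ) (fun i : ℕ => U ((i : ZMod p) * j₀)) hNR
      (by
        intro i h1 h2
        simp only [Nat.cast_one, one_mul]
        exact hmax' _ (mul_ne_zero (hine i h1 h2) hj₀.2))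
      (by
        rw [hcast]
        exact hU j₀ hj₀.2)
    simpa using h
  intro j hj
  have h := happ (√(N : ℝ)) (fun i : ℕ => U ((i : ZMod p) * j)) hq1
    (by
      intro i h1 h2
      exact (hmax' _ (mul_ne_zero (hine i h1 h2) hj)).trans hbig)
  rw [hq2, hcast, hU j hj] at h
  simp only [Nat.cast_one, one_mul, zero_sub, norm_neg, norm_mul, norm_pow, Complex.norm_real,
    Real.norm_of_nonneg hq0.le] at h
  obtain ⟨ρ, hρ, hle⟩ := hroot (U j / ((√(N : ℝ) : ℝ) : ℂ))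
  refine ⟨ρ, hρ, ?_⟩
  set q : ℝ := √(N : ℝ) with hq
  have hqC : ((q : ℝ) : ℂ) ≠ 0 := by
    exact_mod_cast hq0.ne'
  have hE : ‖(GG r).eval (U j / ((q : ℝ) : ℂ))‖ * q ≤ C1 := by
    have h2 : (‖(GG r).eval (U j / ((q : ℝ) : ℂ))‖ * q) * q ^ r ≤ C1 * q ^ r := by
      calc (‖(GG r).eval (U j / ((q : ℝ) : ℂ))‖ * q) * q ^ r
          = q * (q ^ r * ‖(GG r).eval (U j / ((q : ℝ) : ℂ))‖) := by ring
        _ ≤ C1 * q ^ r := h
    exact le_of_mul_le_mul_right h2 (pow_pos hq0 r)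
  have e : U j - ρ * ((q : ℝ) : ℂ) = (U j / ((q : ℝ) : ℂ) - ρ) * ((q : ℝ) : ℂ) := by
    field_simp
  rw [e, norm_mul, Complex.norm_real, Real.norm_of_nonneg hq0.le]
  calc ‖U j / ((q : ℝ) : ℂ) - ρ‖ * q
      ≤ (C2 * ‖(GG r).eval (U j / ((q : ℝ) : ℂ))‖) * q :=
        mul_le_mul_of_nonneg_right hle hq0.le
    _ = C2 * (‖(GG r).eval (U j / ((q : ℝ) : ℂ))‖ * q) := by ring
    _ ≤ C2 * C1 := mul_le_mul_of_nonneg_left hE hC2

end TightIndep
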