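import Pool.Agent.Lib.MP_f31b39_co.AS.Ideals
import Pool.Agent.Lib.MP_f31b39_co.AS.Euler

/-!
# AS-Primes: the sum of `1 / N(P)` over the primes of a number field diverges

Given `B`, take `F` from `ideal_div` with `∑_{I ∈ F} 1/N(I) ≥ exp (2 B)`, and `S` the finite set of the
nonzero primes containing a member of `F` (finite: `S` = union of the
`(UniqueFactorizationMonoid.normalizedFactors I).toFinset`, or: `I ≤ P` gives `N(P) ∣ N(I)` so
`N(P) ≤ N(I)` and `Ideal.finite_setOfPred_absNorm_le`).  For `0 ≤ x ≤ 1/2` is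
`(1 - x)⁻¹ ≤ exp (2 x)`; so `exp (2 B) ≤ ∏ ≤ exp (2 ∑_{P ∈ S} 1/N(P))`.
-/

namespace TightIndep

open NumberField Finset

private lemma inv_one_sub_le_exp (x : ℝ) (h0 : 0 ≤ x) (h1 : x ≤ 1 / 2) :
    (1 - x)⁻¹ ≤ Real.exp (2 * x) := by
  have h2 : 1 + 2 * x ≤ Real.exp (2 * x) := by
    have := Real.add_one_le_exp (2 * x)
    linarith
  have h3 : (0 : ℝ) < 1 - x := by linarith
  rw [inv_eq_one_div, div_le_iff₀ h3]
  nlinarith [mul_le_mul_of_nonneg_right h2 h3.le]

theorem prime_div (K : Type) [Field K] [NumberField K] (B : ℝ) :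
    ∃ S : Finset (Ideal (𝓞 K)), (∀ P ∈ S, P.IsPrime ∧ P ≠ ⊥) ∧
      B ≤ ∑ P ∈ S, 1 / (Ideal.absNorm P : ℝ) := by
  classical
  obtain ⟨F, hF, hFB⟩ := ideal_div K (Real.exp (2 * B))
  set S : Finset (Ideal (𝓞 K)) :=
    F.biUnion (fun I => (UniqueFactorizationMonoid.normalizedFactors I).toFinset) with hS
  have hSp : ∀ P ∈ S, P.IsPrime ∧ P ≠ ⊥ := by
    intro P hP
    rw [hS, Finset.mem_biUnion] at hP
    obtain ⟨I, hI, hPI⟩ := hP
    rw [Multiset.mem_toFinset] at hPI
    have hprime : Prime P := UniqueFactorizationMonoid.prime_of_normalized_factor P hPI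
    exact ⟨Ideal.isPrime_of_prime hprime, hprime.ne_zero⟩
  refine ⟨S, hSp, ?_⟩
  have hE := euler_le K S hSp F (by
    intro I hI
    refine ⟨hF I hI, ?_⟩
    intro P hPp hP0 hIP
    rw [hS, Finset.mem_biUnion]
    refine ⟨I, hI, ?_⟩
    rw [Multiset.mem_toFinset]
    have hprime : Prime P := Ideal.prime_of_isPrime hP0 hPp
    have hdvd : P ∣ I := Ideal.dvd_iff_le.mpr hIP
    rw [UniqueFactorizationMonoid.mem_normalizedFactors_iff' (show I ≠ 0 from hF I hI)]
    exact ⟨hprime.irreducible, normalize_eq P, hdvd⟩)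
  have hfac : ∏ P ∈ S, (1 - 1 / (Ideal.absNorm P : ℝ))⁻¹
      ≤ ∏ P ∈ S, Real.exp (2 * (1 / (Ideal.absNorm P : ℝ))) := by
    apply Finset.prod_le_prod
    · intro P hP
      have h2 : 2 ≤ Ideal.absNorm P := by
        have h0 : Ideal.absNorm P ≠ 0 := by
          rw [Ne, Ideal.absNorm_eq_zero_iff]; exact (hSp P hP).2
        have h1 : Ideal.absNorm P ≠ 1 := by
          rw [Ne, Ideal.absNorm_eq_one_iff]; exact (hSp P hP).1.ne_top
        omega
      have h2' : (2 : ℝ) ≤ (Ideal.absNorm P : ℝ) := by exact_mod_cast h2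
      have h3 : 1 / (Ideal.absNorm P : ℝ) ≤ 1 := by
        rw [div_le_one (by linarith)]; linarith
      exact inv_nonneg.mpr (by linarith)
    · intro P hP
      have h2 : 2 ≤ Ideal.absNorm P := by
        have h0 : Ideal.absNorm P ≠ 0 := by
          rw [Ne, Ideal.absNorm_eq_zero_iff]; exact (hSp P hP).2
        have h1 : Ideal.absNorm P ≠ 1 := by
          rw [Ne, Ideal.absNorm_eq_one_iff]; exact (hSp P hP).1.ne_top
        omega
      have h2' : (2 : ℝ) ≤ (Ideal.absNorm P : ℝ) := by exact_mod_cast h2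
      apply inv_one_sub_le_exp
      · positivity
      · exact one_div_le_one_div_of_le (by norm_num) h2'
  rw [← Real.exp_sum, ← Finset.mul_sum] at hfac
  have hfin : Real.exp (2 * B) ≤ Real.exp (2 * ∑ P ∈ S, 1 / (Ideal.absNorm P : ℝ)) :=
    hFB.trans (hE.trans hfac)
  rw [Real.exp_le_exp] at hfin
  linarith

end TightIndep
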