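import Pool.Agent.Lib.MP_f31b39_co.AS.Defs

/-!
# AS-Sph: the sum of the monomials over a ball

Induction on `m` (with `e` general), as in `card_ball` (file `Count.lean`, copy its bijection
`ball (m+1) e ≃ Σ x ∈ [-e, e], ball m (e - |x|)`, `nrm_insertNth`):
`∑_{v ∈ ball (m+1) e} x^v = ∑_{y ∈ [-e,e]} x_0^y ∑_{w ∈ ball m (e-|y|)} x'^w
 = ∑_{j ≤ e} (coeff j (TT x_0)) * ∑_{k ≤ e-j} coeff k (EE x')`, which is
`∑_{n ≤ e} coeff n (TT x_0 * EE x')` (`PowerSeries.coeff_mul`), `EE x = TT x_0 * EE x'`
(`Fin.prod_univ_succ`).  For `y = j > 0` and `y = -j` together `x_0^j + x_0⁻¹^j`.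
-/

namespace TightIndep

open Finset

private theorem sum_Icc_split (f : ℤ → ℂ) (e : ℕ) :
    ∑ x ∈ Finset.Icc (-(e : ℤ)) e, f x =
      f 0 + ∑ j ∈ Finset.range e, (f ((j : ℤ) + 1) + f (-((j : ℤ) + 1))) := by
  induction e with
  | zero => simp
  | succ e ih =>
    have h1 : Finset.Icc (-((e + 1 : ℕ) : ℤ)) ((e + 1 : ℕ) : ℤ) =
        insert (-((e : ℤ) + 1)) (insert ((e : ℤ) + 1) (Finset.Icc (-(e : ℤ)) e)) := by
      ext x
      simp only [Finset.mem_Icc, Finset.mem_insert]
      omega
    rw [h1, Finset.sum_insert, Finset.sum_insert, ih, Finset.sum_range_succ]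
    · ring
    · simp only [Finset.mem_Icc]
      omega
    · simp only [Finset.mem_Icc, Finset.mem_insert]
      omega

private theorem mon_insert {m : ℕ} (x : Fin (m + 1) → ℂ) (y : ℤ) (w : Fin m → ℤ) :
    mon x ((0 : Fin (m + 1)).insertNth y w : Fin (m + 1) → ℤ) =
      x 0 ^ y * mon (fun i => x i.succ) w := by
  unfold mon
  rw [Fin.prod_univ_succ]
  simp

theorem sum_ball {m : ℕ} (x : Fin m → ℂ) (e : ℕ) :
    ∑ v ∈ ball m e, mon x v = ∑ k ∈ range (e + 1), PowerSeries.coeff k (EE x) := by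
  induction m generalizing e with
  | zero =>
    have h1 : ball 0 e = {0} := by
      ext v
      rw [mem_ball]
      simp [nrm, Subsingleton.elim v 0]
    have h2 : EE x = 1 := by
      unfold EE
      simp
    rw [h1, Finset.sum_singleton, h2, Finset.sum_range_succ']
    simp [mon, PowerSeries.coeff_one]
  | succ m ih =>
    have h1 : ∑ v ∈ ball (m + 1) e, mon x v =
        ∑ p ∈ (Finset.Icc (-(e : ℤ)) e).sigma fun y => ball m (e - y.natAbs),
          x 0 ^ p.1 * mon (fun i => x i.succ) p.2 := by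
      symm
      refine Finset.sum_bij (fun p _ => ((0 : Fin (m + 1)).insertNth p.1 p.2 :
        Fin (m + 1) → ℤ)) ?_ ?_ ?_ ?_
      · rintro ⟨y, w⟩ h
        rw [Finset.mem_sigma, Finset.mem_Icc, mem_ball] at h
        rw [mem_ball, nrm_insertNth]
        simp only at h ⊢
        omega
      · rintro ⟨y, w⟩ _ ⟨y', w'⟩ _ h
        have h2 := congrArg (fun v : Fin (m + 1) → ℤ => v 0) h
        have h3 := congrArg (fun v : Fin (m + 1) → ℤ => (0 : Fin (m + 1)).removeNth v) h
        simp at h2 h3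
        subst h2
        subst h3
        rfl
      · intro v hv
        rw [mem_ball] at hv
        refine ⟨⟨v 0, (0 : Fin (m + 1)).removeNth v⟩, ?_, ?_⟩
        · have h3 := nrm_insertNth (0 : Fin (m + 1)) (v 0) ((0 : Fin (m + 1)).removeNth v)
          rw [Fin.insertNth_self_removeNth] at h3
          rw [Finset.mem_sigma, Finset.mem_Icc, mem_ball]
          simp only
          omega
        · exact Fin.insertNth_self_removeNth _ _
      · rintro ⟨y, w⟩ _
        exact (mon_insert x y w).symm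
    have h2 : EE x = TT (x 0) * EE (fun i => x i.succ) := by
      unfold EE
      rw [Fin.prod_univ_succ]
    set S : ℕ → ℂ := fun k => ∑ j ∈ range (k + 1),
      PowerSeries.coeff j (EE (fun i => x i.succ)) with hS
    have h3 : ∑ y ∈ Finset.Icc (-(e : ℤ)) e, ∑ w ∈ ball m (e - y.natAbs),
        x 0 ^ y * mon (fun i => x i.succ) w =
        ∑ y ∈ Finset.Icc (-(e : ℤ)) e, x 0 ^ y * S (e - y.natAbs) := by
      refine Finset.sum_congr rfl fun y _ => ?_
      rw [← Finset.mul_sum, ih]
    rw [h1, Finset.sum_sigma, h3, sum_Icc_split (fun y => x 0 ^ y * S (e - y.natAbs)) e]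
    have h4 : ∀ k ∈ range (e + 1), PowerSeries.coeff k (EE x) =
        ∑ i ∈ range (k + 1), PowerSeries.coeff i (TT (x 0)) *
          PowerSeries.coeff (k - i) (EE (fun i => x i.succ)) := by
      intro k _
      rw [h2, PowerSeries.coeff_mul, Finset.Nat.sum_antidiagonal_eq_sum_range_succ
        (fun i j => PowerSeries.coeff i (TT (x 0)) *
          PowerSeries.coeff j (EE (fun i => x i.succ)))]
    rw [Finset.sum_congr rfl h4, Finset.sum_range_diag_flip (e + 1)
      (fun i j => PowerSeries.coeff i (TT (x 0)) *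
          PowerSeries.coeff j (EE (fun i => x i.succ))), Finset.sum_range_succ', add_comm]
    congr 1
    · refine Finset.sum_congr rfl fun j hj => ?_
      rw [mem_range] at hj
      rw [← Finset.mul_sum]
      have h5 : e + 1 - (j + 1) = (e - (j + 1)) + 1 := by omega
      have h6 : PowerSeries.coeff (j + 1) (TT (x 0)) = x 0 ^ (j + 1) + (x 0)⁻¹ ^ (j + 1) := by
        simp [TT, PowerSeries.coeff_mk]
      have h7 : ((j : ℤ) + 1).natAbs = j + 1 := by omega
      have h8 : (-((j : ℤ) + 1)).natAbs = j + 1 := by omega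
      have h9 : x 0 ^ ((j : ℤ) + 1) = x 0 ^ (j + 1) := by
        rw [← zpow_natCast]
        push_cast
        rfl
      have h10 : x 0 ^ (-((j : ℤ) + 1)) = (x 0)⁻¹ ^ (j + 1) := by
        rw [zpow_neg, h9, inv_pow]
      rw [h5, h6]
      simp only [h7, h8, h9, h10, hS]
      ring
    · rw [← Finset.mul_sum]
      have h5 : PowerSeries.coeff 0 (TT (x 0)) = 1 := by
        simp [TT]
      rw [h5]
      simp [hS]

end TightIndep
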